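import Pool.Agent.H56.FS.Len

/-!
# FS-CONV: the convexity argument

Put `Q i = (I : z^i w)`, `h i = el (Q i)`. Then `Q (i+1) = (Q i : z)`, `Q i ≤ Q (i+1)`, and by
`el_add` `h i - h (i+1) = el (Q i + (z)) =: D i` is nonincreasing in `i`. `h (2q) = 0`. So
`∑_{i<q} D i = h 0 - h q = b = h q - h (2q) = ∑_{q≤i<2q} D i`; since `D` is nonincreasing
`∑_{i<q} D i ≥ q D_q ≥ ∑_{q≤i<2q} D i ≥ q D_{2q-1}`. Let `t = D_{q}`: `b ≥ q D_{q-1} ≥ q t ≥ b`, so all `D i`
with `i < 2q` are equal: in particular `q D_{2q-1} = b`: precisely,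
`b = ∑_{q≤i<2q} D i` and every term is `≤ D_q` with `q D_q ≤ b`, so every term equals `D_q`, and
`q D_q = b`. Finally `D_{2q-1} = h (2q-1) - h (2q) = h (2q-1) = el (Q (2q-1))`.
-/

set_option autoImplicit false

noncomputable section

namespace Pool.Agent.H56.FS

open IsLocalRing Pool.Agent.H34.HK Filter

universe u

private lemma conv_num {D h : ℕ → ℕ} (hh : ∀ i, h i = D i + h (i + 1)) (hD : Antitone D)
    {q b : ℕ} (hq : 1 ≤ q) (h0 : h 0 = 2 * b) (h1 : h q = b) (h2 : h (2 * q) = 0) :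
    q * h (2 * q - 1) = b := by
  have hA : ∀ k, k ≤ q → h q + k * D q ≤ h (q - k) := by
    intro k
    induction k with
    | zero => intro _; simp
    | succ k ih =>
      intro hk
      have e := hh (q - (k + 1))
      rw [show q - (k + 1) + 1 = q - k by omega] at e
      have hd : D q ≤ D (q - (k + 1)) := hD (by omega)
      have := ih (by omega)
      rw [e, Nat.succ_mul]
      omega
  have hB : ∀ j, h q ≤ h (q + j) + j * D q := by
    intro j
    induction j with
    | zero => simp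
    | succ j ih =>
      have e := hh (q + j)
      have hd : D (q + j) ≤ D q := hD (by omega)
      rw [Nat.succ_mul, show q + (j + 1) = q + j + 1 by omega]
      omega
  have a1 := hA q le_rfl
  rw [Nat.sub_self, h0, h1] at a1
  have a2 := hB (q - 1)
  rw [show q + (q - 1) = 2 * q - 1 by omega, h1] at a2
  have a3 := hh (2 * q - 1)
  rw [show 2 * q - 1 + 1 = 2 * q by omega, h2] at a3
  have a4 : D (2 * q - 1) ≤ D q := hD (by omega)
  obtain ⟨r, rfl⟩ : ∃ r, q = r + 1 := ⟨q - 1, by omega⟩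
  rw [Nat.succ_mul] at a1
  rw [show r + 1 - 1 = r by omega] at a2
  have a5 : h (2 * (r + 1) - 1) = D (r + 1) := by omega
  rw [a5, Nat.succ_mul]
  omega

variable {A : Type u} [CommRing A] [IsLocalRing A] [IsNoetherianRing A]

theorem conv {I : Ideal A} (hI : Mp I) (z w : A) (q b : ℕ) (hq : 1 ≤ q)
    (h0 : el (cl I w) = 2 * b) (h1 : el (cl I (z ^ q * w)) = b)
    (h2 : z ^ (2 * q) * w ∈ I) : q * el (cl I (z ^ (2 * q - 1) * w)) = b := by
  have hstep : ∀ i, cl (cl I (z ^ i * w)) z = cl I (z ^ (i + 1) * w) := by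
    intro i
    rw [cl_cl]
    congr 1
    ring
  refine conv_num (D := fun i => el (cl I (z ^ i * w) ⊔ Ideal.span {z}))
    (h := fun i => el (cl I (z ^ i * w))) (fun i => ?_) ?_ hq ?_ h1 ?_
  · show el (cl I (z ^ i * w)) = el (cl I (z ^ i * w) ⊔ Ideal.span {z}) +
      el (cl I (z ^ (i + 1) * w))
    rw [← hstep]
    exact el_add (hI.cl _) z
  · refine antitone_nat_of_succ_le fun i => ?_
    refine el_anti ((hI.cl _).mono le_sup_left) ?_
    refine sup_le_sup_right ?_ _
    rw [← hstep]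
    exact le_cl _ _
  · show el (cl I (z ^ 0 * w)) = 2 * b
    rw [pow_zero, one_mul]
    exact h0
  · show el (cl I (z ^ (2 * q) * w)) = 0
    rw [cl_eq_top.2 h2, el_top]

end Pool.Agent.H56.FS
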