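import Pool.Agent.H34.HK.Defs

/-!
# Project FS (MP_be9c2a_al): definitions

`A` is a commutative ring, mostly Noetherian local. Everything is expressed by ideals of `A`:
`cl K g = (K : g)`, `el K = ℓ(A / K)` (a natural number, only used when `K` contains a power of the
maximal ideal: `Mp K`), regular sequences modulo an ideal, simple socles, and the ideals
`Ie p e A = {x : φ x ∈ 𝔪 for every p^{-e}-linear map φ : A → A}`.
-/

set_option autoImplicit false

noncomputable section

namespace Pool.Agent.H56.FS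

open IsLocalRing Pool.Agent.H34.HK Filter

universe u

section

variable {A : Type u} [CommRing A]

/-- the colon ideal `(K : g)` -/
def cl (K : Ideal A) (g : A) : Ideal A where
  carrier := {a | g * a ∈ K}
  add_mem' {a b} ha hb := by
    show g * (a + b) ∈ K
    rw [mul_add]
    exact K.add_mem ha hb
  zero_mem' := by
    show g * 0 ∈ K
    rw [mul_zero]
    exact K.zero_mem
  smul_mem' c a ha := by
    show g * (c * a) ∈ K
    rw [mul_left_comm]
    exact K.mul_mem_left c ha

@[simp] lemma mem_cl {K : Ideal A} {g a : A} : a ∈ cl K g ↔ g * a ∈ K := Iff.rfl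

/-- the colength of `K` -/
def el (K : Ideal A) : ℕ := (Module.length A (A ⧸ K)).toNat

/-- `x` is a nonzerodivisor modulo `K` -/
def Nzd (K : Ideal A) (x : A) : Prop := ∀ a, x * a ∈ K → a ∈ K

/-- `φ` is `p^{-e}`-linear -/
def PLin (p e : ℕ) (φ : A →+ A) : Prop := ∀ r x : A, φ (r ^ p ^ e * x) = r * φ x

end

section

variable {A : Type u} [CommRing A] [IsLocalRing A]

/-- `K` contains a power of the maximal ideal -/
def Mp (K : Ideal A) : Prop := ∃ n, maximalIdeal A ^ n ≤ K

/-- regular sequences (in the maximal ideal) modulo `K` -/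
def RegSeq : Ideal A → List A → Prop
  | _, [] => True
  | K, x :: xs => x ∈ maximalIdeal A ∧ Nzd K x ∧ RegSeq (K ⊔ Ideal.span {x}) xs

/-- the socle of `A / K` is one dimensional -/
def Soc (K : Ideal A) : Prop :=
  ∃ c, c ∉ K ∧ ∀ a, (∀ r ∈ maximalIdeal A, r * a ∈ K) ↔ a ∈ K ⊔ Ideal.span {c}

variable (A)

/-- Gorenstein of dimension `d` -/
def Gor (d : ℕ) : Prop :=
  ringKrullDim A = d ∧ ∃ xs : List A, xs.length = d ∧ RegSeq ⊥ xs ∧ Soc (Ideal.ofList xs)

/-- the residue field is infinite -/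
def InfRes : Prop := ∃ u : ℕ → A, ∀ i j, i ≠ j → u i - u j ∉ maximalIdeal A

/-- `I_e = {x : φ x ∈ 𝔪 for every p^{-e}-linear φ}` -/
def Ie (p e : ℕ) : Ideal A where
  carrier := {x | ∀ φ : A →+ A, PLin p e φ → φ x ∈ maximalIdeal A}
  add_mem' {a b} ha hb := fun φ hφ => by
    rw [map_add]
    exact Ideal.add_mem _ (ha φ hφ) (hb φ hφ)
  zero_mem' := fun φ _ => by
    rw [map_zero]
    exact Ideal.zero_mem _
  smul_mem' c a ha := fun φ hφ => by
    have h1 : PLin p e (φ.comp (AddMonoidHom.mulLeft c)) := by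
      intro r x
      show φ (c * (r ^ p ^ e * x)) = r * φ (c * x)
      rw [mul_left_comm, hφ]
    exact ha _ h1

end

section

variable {A : Type u} [CommRing A] [IsLocalRing A]

lemma mem_Ie {p e : ℕ} {x : A} :
    x ∈ Ie A p e ↔ ∀ φ : A →+ A, PLin p e φ → φ x ∈ maximalIdeal A := Iff.rfl

@[simp] lemma regSeq_nil (K : Ideal A) : RegSeq K [] := trivial

@[simp] lemma regSeq_cons (K : Ideal A) (x : A) (xs : List A) :
    RegSeq K (x :: xs) ↔ x ∈ maximalIdeal A ∧ Nzd K x ∧ RegSeq (K ⊔ Ideal.span {x}) xs := Iff.rfl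

end

end Pool.Agent.H56.FS
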