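import Pool.Agent.H56.FS.RegLen

/-!
# FS-EXCH: exchange of regular sequences, socles

Let `x, z ∈ 𝔪` be regular modulo `K`.
* `sock_iff`: for `a, b` with `x b - z a ∈ K`: `𝔪 a ⊆ K + (x)` iff `𝔪 b ⊆ K + (z)`; and `a ∈ K + (x)`
  iff `b ∈ K + (z)`. (`→`: for `r ∈ 𝔪`, `r a = k + x u`, `x (r b) ≡ z (r a) ≡ x z u` mod `K`, so
  `r b - z u ∈ K`; the converse is symmetric.)
* `soc_exch`: let `c` be as in `Soc (K + (x))`. As `z c ∈ K + (x)` (`z ∈ 𝔪`), `z c ≡ x c'` mod `K`.
  `c'` works for `K + (z)`: if `𝔪 b ⊆ K + (z)` then `x b ∈ K + (z)`, `x b ≡ z a` mod `K`; then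
  `𝔪 a ⊆ K + (x)`, so `a = k + x u + r c`, `x b ≡ z x u + r x c'`, so `b ∈ K + (z) + (c')`.
* `exists_common`: prime avoidance. The set of `w` which are zero divisors modulo `K₁` is the union of the
  finitely many associated primes of `A/K₁` (`biUnion_associatedPrimes_eq_compl_regular`,
  `associatedPrimes.finite`); if `𝔪` is contained in the union of all the associated primes of `A/K₁`
  and `A/K₂` then (`Ideal.subset_union_prime_finite` or similar) `𝔪` is one of them, say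
  `𝔪 = ann (t + K₁)`, contradicting the regular element `y₁ ∈ 𝔪`.
* `exch`: induction on `n` (generalising `K`, `z`). `xs = x :: xs'`.
  `n = 0`: `xs' = []`, `soc_exch`.
  `n > 0`: `xs' = x₂ :: _`, `x₂` regular mod `K + (x)`. Some element of `𝔪` is regular mod `K + (z)`:
  `x₂` is regular mod `K + (x)`, so there is no `a ∉ K + (x)` with `𝔪 a ⊆ K + (x)`; by `sock_iff` there is
  no `b ∉ K + (z)` with `𝔪 b ⊆ K + (z)` (given `b`, `x b ∈ K + (z)` gives `a`); that means
  `𝔪 ∉ Ass (A/(K + (z)))`. This is the form needed in `exists_common`.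
  So take `w ∈ 𝔪` regular mod `K + (x)` and mod `K + (z)`. By the induction hypothesis for
  `K + (x)`, `xs'`, `w`: `(K + (x) + (w))` has a regular sequence `ys` of length `n - 1` with `Soc`.
  Then `K + (w)` has the regular sequence `x :: ys` (`x` is regular mod `K + (w)` by `Nzd.swap`), of
  length `n`, and `z` is regular mod `K + (w)` (`Nzd.swap`): the induction hypothesis for `K + (w)` and `z` gives `ys'`
  of length `n - 1` for `K + (w) + (z)`. Then `w :: ys'` works for `K + (z)`.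
-/

set_option autoImplicit false

noncomputable section

namespace Pool.Agent.H56.FS

open IsLocalRing Pool.Agent.H34.HK Filter

universe u

variable {A : Type u} [CommRing A] [IsLocalRing A]

lemma mem_sup_span_sub {K : Ideal A} {x a : A} :
    a ∈ K ⊔ Ideal.span {x} ↔ ∃ u, a - x * u ∈ K := by
  constructor
  · intro h
    obtain ⟨k, hk, y, hy, rfl⟩ := Submodule.mem_sup.1 h
    obtain ⟨u, rfl⟩ := Ideal.mem_span_singleton'.1 hy
    refine ⟨u, ?_⟩
    have : k + u * x - x * u = k := by ring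
    rwa [this]
  · rintro ⟨u, hu⟩
    have : a = (a - x * u) + x * u := by ring
    rw [this]
    exact Ideal.add_mem _ (Ideal.mem_sup_left hu)
      (Ideal.mem_sup_right (Ideal.mul_mem_right _ _ (Ideal.mem_span_singleton_self x)))

lemma sock_aux {K : Ideal A} {x z a b : A} (hx : Nzd K x)
    (h : x * b - z * a ∈ K) (r : A) (hr : r * a ∈ K ⊔ Ideal.span {x}) :
    r * b ∈ K ⊔ Ideal.span {z} := by
  obtain ⟨u, hu⟩ := mem_sup_span_sub.1 hr
  refine mem_sup_span_sub.2 ⟨u, hx _ ?_⟩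
  have : x * (r * b - z * u) = r * (x * b - z * a) + z * (r * a - x * u) := by ring
  rw [this]
  exact K.add_mem (K.mul_mem_left _ h) (K.mul_mem_left _ hu)

lemma sock_iff {K : Ideal A} {x z a b : A} (hx : Nzd K x) (hz : Nzd K z)
    (h : x * b - z * a ∈ K) :
    ((∀ r ∈ maximalIdeal A, r * a ∈ K ⊔ Ideal.span {x}) ↔
      ∀ r ∈ maximalIdeal A, r * b ∈ K ⊔ Ideal.span {z}) ∧
    (a ∈ K ⊔ Ideal.span {x} ↔ b ∈ K ⊔ Ideal.span {z}) := by
  have h' : z * a - x * b ∈ K := by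
    have := K.neg_mem h
    rwa [neg_sub] at this
  refine ⟨⟨fun H r hr => sock_aux hx h r (H r hr), fun H r hr => sock_aux hz h' r (H r hr)⟩,
    ⟨fun H => ?_, fun H => ?_⟩⟩
  · have := sock_aux hx h 1 (by rwa [one_mul])
    rwa [one_mul] at this
  · have := sock_aux hz h' 1 (by rwa [one_mul])
    rwa [one_mul] at this

lemma soc_exch {K : Ideal A} {x z : A} (hxm : x ∈ maximalIdeal A) (hzm : z ∈ maximalIdeal A)
    (hx : Nzd K x) (hz : Nzd K z) (h : Soc (K ⊔ Ideal.span {x})) :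
    Soc (K ⊔ Ideal.span {z}) := by
  obtain ⟨c, hc, H⟩ := h
  have hcs : ∀ r ∈ maximalIdeal A, r * c ∈ K ⊔ Ideal.span {x} :=
    (H c).2 (Ideal.mem_sup_right (Ideal.mem_span_singleton_self c))
  obtain ⟨c', hc'⟩ := mem_sup_span_sub.1 (hcs z hzm)
  have h1 : x * c' - z * c ∈ K := by
    have := K.neg_mem hc'
    rwa [neg_sub] at this
  refine ⟨c', fun h2 => hc ((sock_iff hx hz h1).2.2 h2), fun b => ⟨fun hb => ?_, fun hb => ?_⟩⟩
  · obtain ⟨a, ha⟩ := mem_sup_span_sub.1 (hb x hxm)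
    have h3 := (H a).1 ((sock_iff hx hz ha).1.2 hb)
    obtain ⟨r, hr⟩ := mem_sup_span_sub.1 h3
    obtain ⟨u, hu⟩ := mem_sup_span_sub.1 hr
    refine mem_sup_span_sub.2 ⟨r, mem_sup_span_sub.2 ⟨u, hx _ ?_⟩⟩
    have : x * (b - c' * r - z * u) =
        (x * b - z * a) + z * (a - c * r - x * u) - r * (x * c' - z * c) := by ring
    rw [this]
    exact K.sub_mem (K.add_mem ha (K.mul_mem_left _ hu)) (K.mul_mem_left _ h1)
  · intro s hs
    obtain ⟨r, hr⟩ := mem_sup_span_sub.1 hb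
    have h4 := (sock_iff hx hz h1).1.1 hcs s hs
    have : s * b = s * (b - c' * r) + r * (s * c') := by ring
    rw [this]
    exact Ideal.add_mem _ (Ideal.mul_mem_left _ _ hr) (Ideal.mul_mem_left _ _ h4)

variable [IsNoetherianRing A]

/-- `𝔪` is not an associated prime of `A / K` -/
def NAss (K : Ideal A) : Prop := ∀ a, (∀ r ∈ maximalIdeal A, r * a ∈ K) → a ∈ K

omit [IsNoetherianRing A] in
lemma NAss.of_nzd {K : Ideal A} {y : A} (hym : y ∈ maximalIdeal A) (hy : Nzd K y) : NAss K :=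
  fun a ha => hy a (ha y hym)

lemma not_le_assoc {K P : Ideal A} (h : NAss K) (hP : P ∈ associatedPrimes A (A ⧸ K))
    (hle : maximalIdeal A ≤ P) : False := by
  obtain ⟨hp, x, hx⟩ := isAssociatedPrime_iff.1 hP
  obtain ⟨t, rfl⟩ := Ideal.Quotient.mk_surjective x
  have ht : t ∈ K := by
    refine h t fun r hr => ?_
    have h1 : r ∈ Submodule.colon (⊥ : Submodule A (A ⧸ K)) {Ideal.Quotient.mk K t} :=
      hx ▸ hle hr
    rw [Submodule.mem_colon_singleton, Submodule.mem_bot] at h1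
    have h2 : Ideal.Quotient.mk K (r * t) = 0 := by
      rw [← h1]; rfl
    exact Ideal.Quotient.eq_zero_iff_mem.1 h2
  apply hp.ne_top
  rw [hx, Ideal.eq_top_iff_one, Submodule.mem_colon_singleton, Submodule.mem_bot,
    Ideal.Quotient.eq_zero_iff_mem.2 ht, smul_zero]

lemma nzd_of_not_mem {K : Ideal A} {w : A}
    (h : ∀ P ∈ associatedPrimes A (A ⧸ K), w ∉ P) : Nzd K w := by
  intro a ha
  by_contra hna
  have h1 : w ∈ ⋃ p ∈ associatedPrimes A (A ⧸ K), (p : Set A) := by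
    rw [biUnion_associatedPrimes_eq_zero_divisors]
    refine ⟨Ideal.Quotient.mk K a, fun h0 => hna (Ideal.Quotient.eq_zero_iff_mem.1 h0), ?_⟩
    have h2 : w • Ideal.Quotient.mk K a = Ideal.Quotient.mk K (w * a) := rfl
    rw [h2]
    exact Ideal.Quotient.eq_zero_iff_mem.2 ha
  obtain ⟨p, hp, hw⟩ := Set.mem_iUnion₂.1 h1
  exact h p hp hw

lemma exists_common {K₁ K₂ : Ideal A} (h₁ : NAss K₁) (h₂ : NAss K₂) :
    ∃ w ∈ maximalIdeal A, Nzd K₁ w ∧ Nzd K₂ w := by
  by_contra hcon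
  push Not at hcon
  have hfin : (associatedPrimes A (A ⧸ K₁) ∪ associatedPrimes A (A ⧸ K₂)).Finite :=
    (associatedPrimes.finite A (A ⧸ K₁)).union (associatedPrimes.finite A (A ⧸ K₂))
  have hsub : ((maximalIdeal A : Ideal A) : Set A) ⊆
      ⋃ p ∈ associatedPrimes A (A ⧸ K₁) ∪ associatedPrimes A (A ⧸ K₂),
        ((id p : Ideal A) : Set A) := by
    intro w hw
    by_contra hw2
    have hw3 : ∀ P ∈ associatedPrimes A (A ⧸ K₁) ∪ associatedPrimes A (A ⧸ K₂), w ∉ P :=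
      fun P hP hwP => hw2 (Set.mem_iUnion₂.2 ⟨P, hP, hwP⟩)
    exact hcon w hw (nzd_of_not_mem fun P hP => hw3 P (Or.inl hP))
      (nzd_of_not_mem fun P hP => hw3 P (Or.inr hP))
  obtain ⟨P, hP, hle⟩ := (Ideal.subset_union_prime_finite hfin (f := id) 0 0
    (fun i hi _ _ => hi.elim (fun h => h.isPrime) (fun h => h.isPrime))).1 hsub
  rcases hP with hP | hP
  · exact not_le_assoc h₁ hP hle
  · exact not_le_assoc h₂ hP hle

omit [IsNoetherianRing A] in
lemma NAss.transfer {K : Ideal A} {x z : A} (hxm : x ∈ maximalIdeal A)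
    (hx : Nzd K x) (hz : Nzd K z) (h : NAss (K ⊔ Ideal.span {x})) :
    NAss (K ⊔ Ideal.span {z}) := by
  intro b hb
  obtain ⟨a, ha⟩ := mem_sup_span_sub.1 (hb x hxm)
  exact (sock_iff hx hz ha).2.1 (h a ((sock_iff hx hz ha).1.2 hb))

theorem exch {K : Ideal A} {n : ℕ} {z : A} (hzm : z ∈ maximalIdeal A) (hz : Nzd K z)
    (h : ∃ xs : List A, xs.length = n + 1 ∧ RegSeq K xs ∧ Soc (K ⊔ Ideal.ofList xs)) :
    ∃ ys : List A, ys.length = n ∧ RegSeq (K ⊔ Ideal.span {z}) ys ∧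
      Soc (K ⊔ Ideal.span {z} ⊔ Ideal.ofList ys) := by
  induction n generalizing K z with
  | zero =>
    obtain ⟨xs, hlen, hreg, hsoc⟩ := h
    obtain ⟨x, rfl⟩ := List.length_eq_one_iff.1 hlen
    refine ⟨[], rfl, trivial, ?_⟩
    rw [Ideal.ofList_nil, sup_bot_eq]
    rw [Ideal.ofList_singleton] at hsoc
    exact soc_exch hreg.1 hzm hreg.2.1 hz hsoc
  | succ n ih =>
    obtain ⟨xs, hlen, hreg, hsoc⟩ := h
    obtain ⟨x, xs', rfl⟩ := List.exists_of_length_succ xs hlen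
    obtain ⟨hxm, hx, hreg'⟩ := hreg
    have hlen' : xs'.length = n + 1 := by simpa using hlen
    rw [Ideal.ofList_cons, ← sup_assoc] at hsoc
    have hN1 : NAss (K ⊔ Ideal.span {x}) := by
      obtain ⟨x₂, xs₂, rfl⟩ := List.exists_of_length_succ xs' hlen'
      exact NAss.of_nzd hreg'.1 hreg'.2.1
    have hN2 : NAss (K ⊔ Ideal.span {z}) := hN1.transfer hxm hx hz
    obtain ⟨w, hwm, hw1, hw2⟩ := exists_common hN1 hN2
    obtain ⟨ys, hys, hyr, hysoc⟩ := ih hwm hw1 ⟨xs', hlen', hreg', hsoc⟩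
    -- `x :: ys` is a regular sequence modulo `K + (w)`
    have hsw : ∀ p q : A, K ⊔ Ideal.span {p} ⊔ Ideal.span {q} =
        K ⊔ Ideal.span {q} ⊔ Ideal.span {p} := fun p q => by
      rw [sup_assoc, sup_assoc, sup_comm (Ideal.span {p})]
    have hxw : Nzd (K ⊔ Ideal.span {w}) x := Nzd.swap hx hw1
    have hzw : Nzd (K ⊔ Ideal.span {w}) z := Nzd.swap hz hw2
    obtain ⟨ys', hys', hyr', hysoc'⟩ := ih hzm hzw ⟨x :: ys, by simp [hys], by
      refine ⟨hxm, hxw, ?_⟩
      rw [hsw w x]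
      exact hyr, by
      rw [Ideal.ofList_cons, ← sup_assoc, hsw w x]
      exact hysoc⟩
    refine ⟨w :: ys', by simp [hys'], ⟨hwm, hw2, ?_⟩, ?_⟩
    · rw [hsw z w]
      exact hyr'
    · rw [Ideal.ofList_cons, ← sup_assoc, hsw z w]
      exact hysoc'

end Pool.Agent.H56.FS
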