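import Pool.Agent.H56.FS.IeB

/-!
# FS-FSIG: the F-signature in terms of `b_e = el (I_e)`

`F_* M = FStar p e M`.
* `length_FStar_one`: `D = length (F_* k)`. For every `A`-module `M` of finite length
  `length (F^1_* M) = D * length M`: induction (`IsFiniteLength`): exactness of `F_*`, and a simple `A`-module
  is isomorphic to the residue field `k` (`F_*` of an isomorphism is an isomorphism).
* `length_FStar`: `F^{e+1}_* M ≅ F^1_* (F^e_* M)` (identity map: `r` acts on both by `r ^ p ^ (e+1)`), so
  `length (F^e_* M) = D^e * length M` if `D ≠ ⊤` (`F^e_* M` has finite length by induction).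
* `freeRank_eq`: let `Ψ : F^e_* A ≃ A^a × N`. The linear map
  `F^e_* A → k^a`, `x ↦ (residue (Ψ x).1_i)_i` is surjective with kernel `I_e`: if `x ∈ I_e`, the maps
  `φ = (i-th coordinate of pr_1 ∘ Ψ)` are `p^{-e}`-linear, so `φ x ∈ 𝔪`. Conversely if `(Ψ x).1 ∈ 𝔪^a` and `φ`
  is `p^{-e}`-linear then `φ ∘ Ψ⁻¹ (v, n) = ∑ v_i φ(Ψ⁻¹(e_i, 0)) + φ (Ψ⁻¹(0,n)) ∈ 𝔪`, since
  `n ↦ φ (Ψ⁻¹(0,n))` is a linear map `N → A` which is not surjective, so its image is an ideal `≠ A`. So
  `F^e_*(A/I_e) ≅ k^a` and `D^e el (I_e) = a`.
* `fsig_tendsto`: `D ≠ 0`, `D ≠ ⊤` (otherwise `resDegree = 0` and the limit is `0`; `s > 0`). So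
  `a_e / (p^d D)^e = el (I_e) / (p^d)^e`.
-/

set_option autoImplicit false

noncomputable section

namespace Pool.Agent.H56.FS

open IsLocalRing Pool.Agent.H34.HK Filter

universe u

variable {A : Type u} [CommRing A] [IsLocalRing A] {p : ℕ} [Fact p.Prime] [CharP A p]

/-- `F_*` of a linear map -/
def fsMap (p e : ℕ) [ExpChar A p] {M N : Type u} [AddCommGroup M] [Module A M] [AddCommGroup N]
    [Module A N] (f : M →ₗ[A] N) : FStar p e M →ₗ[A] FStar p e N where
  toFun x := f x
  map_add' x y := f.map_add x y
  map_smul' r x := f.map_smul (iterateFrobenius A p e r) x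

omit [IsLocalRing A] in
lemma fsMap_apply (e : ℕ) {M N : Type u} [AddCommGroup M] [Module A M] [AddCommGroup N]
    [Module A N] (f : M →ₗ[A] N) (x : M) : fsMap p e f (show FStar p e M from x) = f x := rfl

/-- `F_*` of a linear equivalence -/
def fsEquiv (p e : ℕ) [ExpChar A p] {M N : Type u} [AddCommGroup M] [Module A M] [AddCommGroup N]
    [Module A N] (f : M ≃ₗ[A] N) : FStar p e M ≃ₗ[A] FStar p e N :=
  { fsMap p e f.toLinearMap with
    invFun := fun x => f.symm x
    left_inv := fun x => f.symm_apply_apply x
    right_inv := fun x => f.apply_symm_apply x }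

omit [IsLocalRing A] in
lemma smul_fs (e : ℕ) {M : Type u} [AddCommGroup M] [Module A M] (r : A) (x : M) :
    (r • (show FStar p e M from x) : FStar p e M) = ((r ^ p ^ e) • x : M) := by
  have h : (r • (show FStar p e M from x) : FStar p e M) =
      ((iterateFrobenius A p e r) • x : M) := rfl
  rw [h, iterateFrobenius_def]

/-- `F^0_* M = M` -/
def fsZero (p : ℕ) [Fact p.Prime] [CharP A p] (M : Type u) [AddCommGroup M] [Module A M] :
    FStar p 0 M ≃ₗ[A] M where
  toFun x := x
  invFun x := x
  left_inv _ := rfl
  right_inv _ := rfl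
  map_add' _ _ := rfl
  map_smul' r x := by
    have h := smul_fs (p := p) 0 r (show M from x)
    rw [pow_zero, pow_one] at h
    exact h

/-- `F^{e+1}_* M = F^1_* (F^e_* M)` -/
def fsSucc (p : ℕ) [Fact p.Prime] [CharP A p] (e : ℕ) (M : Type u) [AddCommGroup M]
    [Module A M] : FStar p (e + 1) M ≃ₗ[A] FStar p 1 (FStar p e M) where
  toFun x := x
  invFun x := x
  left_inv _ := rfl
  right_inv _ := rfl
  map_add' _ _ := rfl
  map_smul' r x := by
    have h := smul_fs (p := p) (e + 1) r (show M from x)
    have h1 := smul_fs (p := p) 1 r (show FStar p e M from x)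
    have h2 := smul_fs (p := p) e (r ^ p ^ 1) (show M from x)
    refine h.trans (Eq.trans ?_ (h1.trans h2).symm)
    rw [← pow_mul, ← pow_add, add_comm 1 e]

omit [Fact p.Prime] [CharP A p] in
lemma simple_residue : IsSimpleModule A (ResidueField A) :=
  isSimpleModule_iff_quot_maximal.2 ⟨maximalIdeal A, inferInstance, ⟨LinearEquiv.refl A _⟩⟩

theorem length_FStar_one (M : Type u) [AddCommGroup M] [Module A M] (hM : IsFiniteLength A M) :
    Module.length A (FStar p 1 M) =
      Module.length A (FStar p 1 (ResidueField A)) * Module.length A M := by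
  induction hM with
  | @of_subsingleton M _ _ hs =>
    have h1 : Subsingleton (FStar p 1 M) := hs
    rw [Module.length_eq_zero (M := FStar p 1 M), Module.length_eq_zero (M := M), mul_zero]
  | @of_simple_quotient M _ _ N hsim hN ih =>
    have h1 : Module.length A (FStar p 1 M) =
        Module.length A (FStar p 1 N) + Module.length A (FStar p 1 (M ⧸ N)) := by
      refine Module.length_eq_add_of_exact (fsMap p 1 N.subtype) (fsMap p 1 N.mkQ) ?_ ?_ ?_
      · intro x y hxy
        exact N.injective_subtype hxy
      · intro x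
        obtain ⟨y, hy⟩ := N.mkQ_surjective x
        exact ⟨y, hy⟩
      · intro x
        exact LinearMap.exact_subtype_mkQ N x
    have h2 : Module.length A M = Module.length A N + Module.length A (M ⧸ N) :=
      Module.length_eq_add_of_exact N.subtype N.mkQ N.injective_subtype N.mkQ_surjective
        (LinearMap.exact_subtype_mkQ N)
    obtain ⟨I, hI, ⟨f⟩⟩ := isSimpleModule_iff_quot_maximal.1 hsim
    have hI' : I = maximalIdeal A := IsLocalRing.eq_maximalIdeal hI
    subst hI'
    have h3 : Module.length A (FStar p 1 (M ⧸ N)) =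
        Module.length A (FStar p 1 (ResidueField A)) := (fsEquiv p 1 f).length_eq
    have h4 : Module.length A (M ⧸ N) = 1 := Module.length_eq_one A _
    rw [h1, h2, ih, h3, h4, mul_add, mul_one]

theorem length_FStar (hD : Module.length A (FStar p 1 (ResidueField A)) ≠ ⊤) (e : ℕ)
    (M : Type u) [AddCommGroup M] [Module A M] (hM : IsFiniteLength A M) :
    Module.length A (FStar p e M) =
      Module.length A (FStar p 1 (ResidueField A)) ^ e * Module.length A M := by
  have hM' : Module.length A M ≠ ⊤ := Module.length_ne_top_iff.2 hM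
  induction e with
  | zero => rw [(fsZero p M).length_eq, pow_zero, one_mul]
  | succ e ih =>
    have hfin : IsFiniteLength A (FStar p e M) := by
      rw [← Module.length_ne_top_iff, ih]
      intro h
      rcases WithTop.mul_eq_top_iff.1 h with ⟨_, h1⟩ | ⟨h1, _⟩
      · exact hM' h1
      · exact hD (ENat.pow_eq_top_iff.1 h1).1
    rw [(fsSucc p e M).length_eq, length_FStar_one _ hfin, ih, pow_succ', mul_assoc]

variable [IsNoetherianRing A]

theorem freeRank_eq (hD : Module.length A (FStar p 1 (ResidueField A)) ≠ ⊤) {e a : ℕ}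
    (h : IsFreeRank A p e a) : a = resDegree A p ^ e * el (Ie A p e) := by
  obtain ⟨N, _, _, ⟨Ψ⟩, hN⟩ := h
  -- the map to `k^a`
  let L : FStar p e A →ₗ[A] (Fin a → ResidueField A) :=
    LinearMap.pi fun i => (Algebra.linearMap A (ResidueField A)).comp
      ((LinearMap.proj i).comp ((LinearMap.fst A (Fin a → A) N).comp Ψ.toLinearMap))
  have hL : ∀ x i, L x i = residue A ((Ψ x).1 i) := fun _ _ => rfl
  have hLs : Function.Surjective L := by
    intro v
    have h1 : ∀ i, ∃ r, residue A r = v i := fun i => residue_surjective (v i)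
    choose r hr using h1
    refine ⟨Ψ.symm (r, 0), ?_⟩
    funext i
    rw [hL, Ψ.apply_symm_apply]
    exact hr i
  let π : FStar p e A →ₗ[A] FStar p e (A ⧸ Ie A p e) := fsMap p e (Ie A p e).mkQ
  have hπs : Function.Surjective π := by
    intro x
    obtain ⟨y, hy⟩ := (Ie A p e).mkQ_surjective x
    exact ⟨y, hy⟩
  have hπ : ∀ x : A, (show FStar p e A from x) ∈ LinearMap.ker π ↔ x ∈ Ie A p e := by
    intro x
    rw [LinearMap.mem_ker]
    have h1 : π (show FStar p e A from x) = (Ie A p e).mkQ x := rfl
    rw [h1]
    exact Submodule.Quotient.mk_eq_zero (Ie A p e)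
  -- `p^{-e}`-linear maps and linear maps on `F_* A`
  have hker : ∀ x : A, (show FStar p e A from x) ∈ LinearMap.ker L ↔ x ∈ Ie A p e := by
    intro x
    have hx : (show FStar p e A from x) ∈ LinearMap.ker L ↔
        ∀ i, (Ψ (show FStar p e A from x)).1 i ∈ maximalIdeal A := by
      rw [LinearMap.mem_ker]
      constructor
      · intro h0 i
        have h1 := congrFun h0 i
        rw [hL] at h1
        exact (residue_eq_zero_iff _).1 h1
      · intro h0
        funext i
        rw [hL]
        exact (residue_eq_zero_iff _).2 (h0 i)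
    rw [hx, mem_Ie]
    constructor
    · intro h0 φ hφ
      -- the linear map attached to `φ`
      let φ' : FStar p e A →ₗ[A] A :=
        { toFun := fun y => φ y
          map_add' := fun y z => φ.map_add y z
          map_smul' := fun r y => by
            have h1 := smul_fs (p := p) e r (show A from y)
            have h2 := hφ r (show A from y)
            exact (congrArg φ h1).trans h2 }
      have hx1 : φ x = φ' (Ψ.symm (Ψ (show FStar p e A from x))) := by
        rw [Ψ.symm_apply_apply]
        rfl
      set w := Ψ (show FStar p e A from x) with hw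
      have hsplit : w = (∑ i, w.1 i • ((Pi.single i (1 : A) : Fin a → A), (0 : N))) + (0, w.2) := by
        refine Prod.ext ?_ ?_
        · rw [Prod.fst_add, Prod.fst_sum]
          funext j
          simp [Finset.sum_apply, Pi.single_apply]
        · rw [Prod.snd_add, Prod.snd_sum]
          simp
      rw [hx1, hsplit, map_add, map_sum, map_add, map_sum]
      refine Ideal.add_mem _ (Ideal.sum_mem _ fun i _ => ?_) ?_
      · rw [map_smul, map_smul, smul_eq_mul]
        exact Ideal.mul_mem_right _ _ (h0 i)
      · by_contra hu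
        have hu' : IsUnit (φ' (Ψ.symm (0, w.2))) := by
          by_contra hnu
          exact hu ((mem_maximalIdeal _).2 hnu)
        apply hN
        refine ⟨φ'.comp (Ψ.symm.toLinearMap.comp (LinearMap.inr A (Fin a → A) N)), ?_⟩
        intro c
        obtain ⟨b, hb⟩ := hu'.exists_left_inv
        refine ⟨(c * b) • w.2, ?_⟩
        rw [map_smul, smul_eq_mul]
        have h3 : (φ'.comp (Ψ.symm.toLinearMap.comp (LinearMap.inr A (Fin a → A) N))) w.2 =
            φ' (Ψ.symm (0, w.2)) := rfl
        rw [h3, mul_assoc, hb, mul_one]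
    · intro h0 i
      have h1 := h0 { toFun := fun y => (Ψ (show FStar p e A from y)).1 i
                      map_zero' := by
                        have h1 : Ψ (show FStar p e A from (0 : A)) = 0 := Ψ.map_zero
                        rw [h1]
                        rfl
                      map_add' := fun y z => by
                        have h1 : Ψ (show FStar p e A from y + z) =
                          Ψ (show FStar p e A from y) + Ψ (show FStar p e A from z) := Ψ.map_add _ _
                        rw [h1]
                        rfl } ?_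
      · exact h1
      · intro r y
        have h2 : Ψ (show FStar p e A from r ^ p ^ e * y) =
            r • Ψ (show FStar p e A from y) := by
          rw [← map_smul]
          exact congrArg Ψ (smul_fs (p := p) e r y).symm
        show (Ψ (show FStar p e A from r ^ p ^ e * y)).1 i = r * (Ψ (show FStar p e A from y)).1 i
        rw [h2]
        rfl
  have hkk : LinearMap.ker L = LinearMap.ker π := by
    ext x
    exact (hker x).trans (hπ x).symm
  have hlen : Module.length A (FStar p e (A ⧸ Ie A p e)) = a := by
    rw [← (π.quotKerEquivOfSurjective hπs).length_eq, ← hkk,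
      (L.quotKerEquivOfSurjective hLs).length_eq, Module.length_pi]
    have := simple_residue (A := A)
    rw [Module.length_eq_one A (ResidueField A), mul_one]
    simp
  have hfin : IsFiniteLength A (A ⧸ Ie A p e) :=
    Module.length_ne_top_iff.1 (length_ne_top (mp_Ie e))
  rw [length_FStar hD e _ hfin] at hlen
  have h5 := congrArg ENat.toNat hlen
  rw [ENat.toNat_mul, ENat.toNat_natCast] at h5
  rw [← h5, el, resDegree]
  congr 1
  exact map_pow ENat.toNatHom _ e

theorem fsig_tendsto {d : ℕ} {s : ℝ} (hs : 0 < s) (h : IsFSignature A p d s) :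
    Tendsto (fun e : ℕ => (el (Ie A p e) : ℝ) / ((p : ℝ) ^ e) ^ d) atTop (nhds s) := by
  obtain ⟨a, ha, hlim⟩ := h
  have hres : resDegree A p ≠ 0 := by
    intro h0
    have h1 : Tendsto (fun e : ℕ => (a e : ℝ) / ((p : ℝ) ^ d * (resDegree A p : ℝ)) ^ e) atTop
        (nhds 0) := by
      refine tendsto_const_nhds.congr' ?_
      filter_upwards [eventually_ge_atTop 1] with e he
      rw [h0, Nat.cast_zero, mul_zero, zero_pow (by omega), div_zero]
    have h2 := tendsto_nhds_unique hlim h1
    exact hs.ne' h2
  have hD : Module.length A (FStar p 1 (ResidueField A)) ≠ ⊤ := by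
    intro h0
    apply hres
    rw [resDegree, h0]
    rfl
  refine hlim.congr fun e => ?_
  rw [freeRank_eq hD (ha e)]
  have hr : (resDegree A p : ℝ) ≠ 0 := Nat.cast_ne_zero.2 hres
  have hp : (p : ℝ) ≠ 0 := Nat.cast_ne_zero.2 (Fact.out : p.Prime).ne_zero
  push_cast
  rw [mul_pow, ← pow_mul, ← pow_mul, mul_comm d e]
  field_simp

end Pool.Agent.H56.FS
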