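import Pool.Agent.H56.FS.Frob

/-!
# FS-IE: the ideals `I_e`

`q = p ^ e`.
* `cl_le_Ie`: if `x g^q ∈ K^[q]`, say `g^q x = ∑ k_i^q a_i`, then for a `p^{-e}`-linear `φ`:
  `g φ(x) = φ(g^q x) = ∑ k_i φ(a_i) ∈ K`; if `φ x` were a unit then `g ∈ K`.
* `frobPow_max_le_Ie`: `φ(r^q x) = r φ(x) ∈ 𝔪` for `r ∈ 𝔪`.
* `frobPow_Ie_le`: `ψ y = φ (y ^ p ^ e')` is additive and `p^{-e}`-linear if `φ` is
  `p^{-(e+e')}`-linear.
* `Ie_quot`: given `p^{-e}`-linear `φ : A → A`, the map `ψ (f y) = f (φ (z^{q-1} y))` is well defined on `B`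
  (if `f y = 0`, `y = z y'`, `φ (z^q y') = z φ y'`), additive and `p^{-e}`-linear. So `f x ∈ I_e(B)`
  implies `f (φ (z^{q-1} x)) ∈ 𝔪_B`, hence `φ (z^{q-1} x) ∈ 𝔪_A` (a ring homomorphism maps units to
  units). To define `ψ` use a section of `f` (`Function.surjInv`), `AddMonoidHom.mk'`, or
  `QuotientAddGroup.lift` along `A ⧸ ker f ≃ B`.
* `Ie_eq_top`: `c φ(x) = φ(c^q x) = 0`, so `φ x` is not a unit.
-/

set_option autoImplicit false

noncomputable section

namespace Pool.Agent.H56.FS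

open IsLocalRing Pool.Agent.H34.HK Filter

universe u

variable {A : Type u} [CommRing A] [IsLocalRing A] {p : ℕ} [Fact p.Prime] [CharP A p]

omit [IsLocalRing A] [Fact p.Prime] [CharP A p] in
/-- a `p^{-e}`-linear map maps `K^[q]` into `K` -/
lemma PLin.map_frobPow {e : ℕ} {φ : A →+ A} (hφ : PLin p e φ) {K : Ideal A} {y : A}
    (hy : y ∈ frobPow p e K) : φ y ∈ K := by
  have key : ∀ a : A, φ (a * y) ∈ K := by
    unfold frobPow at hy
    induction hy using Submodule.span_induction with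
    | mem x hx =>
      obtain ⟨k, hk, rfl⟩ := hx
      intro a
      have h1 : φ (a * k ^ p ^ e) = k * φ a := by rw [mul_comm, hφ]
      show φ (a * k ^ p ^ e) ∈ K
      rw [h1]
      exact K.mul_mem_right _ hk
    | zero => intro a; simp
    | add x y _ _ hx hy =>
      intro a
      rw [mul_add, map_add]
      exact K.add_mem (hx a) (hy a)
    | smul r x _ hx =>
      intro a
      rw [smul_eq_mul, ← mul_assoc]
      exact hx (a * r)
  simpa using key 1

theorem cl_le_Ie (e : ℕ) {K : Ideal A} {g : A} (hg : g ∉ K) :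
    cl (frobPow p e K) (g ^ p ^ e) ≤ Ie A p e := by
  intro x hx φ hφ
  rw [mem_maximalIdeal, mem_nonunits_iff]
  intro hu
  have h1 : φ (g ^ p ^ e * x) ∈ K := hφ.map_frobPow hx
  rw [hφ] at h1
  exact hg ((Ideal.mul_unit_mem_iff_mem K hu).mp h1)

theorem frobPow_max_le_Ie (e : ℕ) : frobPow p e (maximalIdeal A) ≤ Ie A p e :=
  fun _ hx _ hφ => hφ.map_frobPow hx

theorem frobPow_Ie_le (e e' : ℕ) : frobPow p e' (Ie A p e) ≤ Ie A p (e + e') := by
  unfold frobPow
  rw [Ideal.span_le]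
  rintro _ ⟨y, hy, rfl⟩
  intro φ hφ
  have h1 : PLin p e (φ.comp (iterateFrobenius A p e').toAddMonoidHom) := by
    intro r x
    show φ ((iterateFrobenius A p e') (r ^ p ^ e * x)) = r * φ ((iterateFrobenius A p e') x)
    rw [iterateFrobenius_def, iterateFrobenius_def, mul_pow, ← pow_mul, ← pow_add, hφ]
  have h2 := hy _ h1
  have h3 : (φ.comp (iterateFrobenius A p e').toAddMonoidHom) y = φ (y ^ p ^ e') := by
    show φ ((iterateFrobenius A p e') y) = _
    rw [iterateFrobenius_def]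
  rwa [h3] at h2

theorem Ie_quot (e : ℕ) {B : Type u} [CommRing B] [IsLocalRing B] (f : A →+* B)
    (hf : Function.Surjective f) {z : A} (hk : RingHom.ker f = Ideal.span {z}) :
    (Ie B p e).comap f ≤ cl (Ie A p e) (z ^ (p ^ e - 1)) := by
  intro x hx φ hφ
  have hq : p ^ e - 1 + 1 = p ^ e := Nat.sub_add_cancel (Nat.pos_of_ne_zero
    (pow_ne_zero e (Fact.out : p.Prime).ne_zero))
  have hle : f.toAddMonoidHom.ker ≤
      (f.toAddMonoidHom.comp (φ.comp (AddMonoidHom.mulLeft (z ^ (p ^ e - 1))))).ker := by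
    intro y hy
    have hy1 : y ∈ RingHom.ker f := hy
    rw [hk, Ideal.mem_span_singleton] at hy1
    obtain ⟨y', rfl⟩ := hy1
    show f (φ (z ^ (p ^ e - 1) * (z * y'))) = 0
    rw [← mul_assoc, ← pow_succ, hq, hφ, map_mul]
    have hz : z ∈ RingHom.ker f := by
      rw [hk]
      exact Ideal.mem_span_singleton_self z
    rw [RingHom.mem_ker.mp hz, zero_mul]
  let ψ : B →+ B := f.toAddMonoidHom.liftOfSurjective hf
    ⟨f.toAddMonoidHom.comp (φ.comp (AddMonoidHom.mulLeft (z ^ (p ^ e - 1)))), hle⟩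
  have hψ : ∀ y : A, ψ (f y) = f (φ (z ^ (p ^ e - 1) * y)) := fun y =>
    AddMonoidHom.liftOfRightInverse_comp_apply _ _ _ _ y
  have hlin : PLin p e ψ := by
    intro r' x'
    obtain ⟨r, rfl⟩ := hf r'
    obtain ⟨x, rfl⟩ := hf x'
    rw [← map_pow, ← map_mul, hψ, hψ, mul_left_comm, hφ, map_mul]
  have h1 := hx ψ hlin
  rw [hψ, mem_maximalIdeal, mem_nonunits_iff] at h1
  rw [mem_maximalIdeal, mem_nonunits_iff]
  exact fun hu => h1 (hu.map f)

theorem Ie_eq_top (e : ℕ) {c : A} (hc : c ≠ 0) (hc' : c ^ p ^ e = 0) : Ie A p e = ⊤ := by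
  rw [Ideal.eq_top_iff_one]
  intro φ hφ
  rw [mem_maximalIdeal, mem_nonunits_iff]
  intro hu
  have h1 := hφ c 1
  rw [hc', zero_mul, map_zero] at h1
  exact hc ((hu.mul_left_eq_zero).mp h1.symm)

theorem mp_Ie [IsNoetherianRing A] (e : ℕ) : Mp (Ie A p e) :=
  (Mp.max.frobPow e).mono (frobPow_max_le_Ie (p := p) e)

end Pool.Agent.H56.FS
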