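import Pool.Agent.H56.FS.Poly
import Pool.Agent.H56.FS.IeB

/-!
# FS-POLYIE: `I_e(A(T)) ⊆ I_e(A) A(T)`

`q = p ^ e`.
* `plin_poly`: for a `p^{-e}`-linear `φ : A → A` and `i : ℕ` the map
  `Φ_i : A[X] → A[X]`, `Φ_i (∑ a_j X^j) = ∑_j φ(a_{qj+i}) X^j` is additive and `p^{-e}`-linear:
  `r^q = ∑ r_l^q X^{ql}` (`Polynomial.expand`/`map_frobenius`-type lemmas, or check on monomials `r` and use
  additivity of `r ↦ r^q` in characteristic `p`: both sides of `Φ_i (r^q y) = r Φ_i y` are additive in `r`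
  and in `y`, so `r = C a X^l`, `y = C b X^j`).
* `plin_loc`: a `p^{-e}`-linear map `Φ` of a ring `R` of characteristic `p` extends to a localization `R'`:
  `Φ' (y / g^q) = Φ y / g`; every element of `R'` is of this form (`f/g = f g^{q-1}/g^q`). Well
  defined: if `u (y g'^q - y' g^q) = 0` then `u^q g'^q y = u^q g^q y'`, and `Φ` gives
  `u g' Φ y = u g Φ y'`. Additive: common denominators.
* `Ie_AT`: let `x = h / g^q ∈ I_e(A')`. For all `φ`, `i`: `Φ_i' x = Φ_i h / g ∈ 𝔪'`, so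
  `Φ_i h ∈ 𝔪[X]`, i.e. `φ (h_{qj+i}) ∈ 𝔪` for all `j`; hence all coefficients of `h` are in `I_e(A)`
  and `x ∈ I_e(A) A'`.
-/

set_option autoImplicit false

noncomputable section

namespace Pool.Agent.H56.FS

open IsLocalRing Pool.Agent.H34.HK Filter Polynomial

universe u

section

variable {R : Type u} [CommRing R] {p : ℕ} [Fact p.Prime] [CharP R p]

/-- the map `∑ a_j X^j ↦ ∑_j φ(a_{qj+i}) X^j` -/
def polyMap (q i : ℕ) (hq : 0 < q) (φ : R →+ R) : R[X] →+ R[X] where
  toFun y := ∑ j ∈ Finset.range (y.natDegree + 1), monomial j (φ (y.coeff (q * j + i)))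
  map_zero' := by simp
  map_add' y z := by
    have h : ∀ (y : R[X]) (k : ℕ), (∑ j ∈ Finset.range (y.natDegree + 1),
        monomial j (φ (y.coeff (q * j + i)))).coeff k = φ (y.coeff (q * k + i)) := by
      intro y k
      rw [finsetSum_coeff]
      simp only [coeff_monomial]
      rw [Finset.sum_ite_eq' (Finset.range (y.natDegree + 1)) k]
      split_ifs with hk
      · rfl
      · rw [Finset.mem_range, not_lt] at hk
        have h1 : y.natDegree < q * k + i := by nlinarith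
        rw [coeff_eq_zero_of_natDegree_lt h1, map_zero]
    ext k
    rw [coeff_add, h, h, h, coeff_add, map_add]

omit [Fact p.Prime] [CharP R p] in
lemma polyMap_coeff (q i : ℕ) (hq : 0 < q) (φ : R →+ R) (y : R[X]) (k : ℕ) :
    (polyMap q i hq φ y).coeff k = φ (y.coeff (q * k + i)) := by
  show (∑ j ∈ Finset.range (y.natDegree + 1),
        monomial j (φ (y.coeff (q * j + i)))).coeff k = φ (y.coeff (q * k + i))
  rw [finsetSum_coeff]
  simp only [coeff_monomial]
  rw [Finset.sum_ite_eq' (Finset.range (y.natDegree + 1)) k]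
  split_ifs with hk
  · rfl
  · rw [Finset.mem_range, not_lt] at hk
    have h1 : y.natDegree < q * k + i := by nlinarith
    rw [coeff_eq_zero_of_natDegree_lt h1, map_zero]

theorem plin_poly (e : ℕ) {φ : R →+ R} (hφ : PLin p e φ) (i : ℕ) (hi : i < p ^ e) :
    ∃ Φ : R[X] →+ R[X], PLin p e Φ ∧ ∀ (y : R[X]) (j : ℕ),
      (Φ y).coeff j = φ (y.coeff (p ^ e * j + i)) := by
  have hq : 0 < p ^ e := lt_of_le_of_lt (Nat.zero_le _) hi
  refine ⟨polyMap (p ^ e) i hq φ, ?_, polyMap_coeff _ _ _ _⟩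
  intro r y
  induction r using Polynomial.induction_on' with
  | add r s hr hs =>
    rw [add_pow_char_pow, add_mul, map_add, hr, hs, add_mul]
  | monomial l a =>
    ext j
    rw [polyMap_coeff, ← C_mul_X_pow_eq_monomial, mul_pow, ← C_pow, ← pow_mul, mul_assoc,
      coeff_C_mul, hφ, mul_assoc, coeff_C_mul, coeff_X_pow_mul', coeff_X_pow_mul']
    by_cases hl : l ≤ j
    · obtain ⟨t, rfl⟩ := Nat.exists_eq_add_of_le hl
      have h1 : l * p ^ e ≤ p ^ e * (l + t) + i := by nlinarith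
      have h2 : p ^ e * (l + t) + i - l * p ^ e = p ^ e * t + i := by
        have : p ^ e * (l + t) + i = l * p ^ e + (p ^ e * t + i) := by ring
        omega
      rw [if_pos h1, if_pos hl, polyMap_coeff, h2, Nat.add_sub_cancel_left]
    · have h1 : ¬ l * p ^ e ≤ p ^ e * j + i := by
        rw [not_le] at hl ⊢
        have h3 : p ^ e * (j + 1) ≤ p ^ e * l := Nat.mul_le_mul_left _ hl
        have h4 : l * p ^ e = p ^ e * l := mul_comm _ _
        rw [h4]
        have h5 : p ^ e * (j + 1) = p ^ e * j + p ^ e := by ring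
        omega
      rw [if_neg h1, if_neg hl, map_zero]

section Loc

variable (p) (e : ℕ) (S : Submonoid R) (R' : Type u) [CommRing R'] [Algebra R R']
    [IsLocalization S R']

omit [Fact p.Prime] [CharP R p] in
lemma loc_wd (hq : 0 < p ^ e) {Φ : R →+ R} (hΦ : PLin p e Φ) {f f' : R} {g g' : S}
    (h : IsLocalization.mk' R' f g = IsLocalization.mk' R' f' g') :
    IsLocalization.mk' R' (Φ (f * (g : R) ^ (p ^ e - 1))) g =
      IsLocalization.mk' R' (Φ (f' * (g' : R) ^ (p ^ e - 1))) g' := by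
  rw [IsLocalization.eq] at h ⊢
  obtain ⟨c, hc⟩ := h
  refine ⟨c, ?_⟩
  rw [← mul_assoc, ← mul_assoc, ← hΦ, ← hΦ]
  congr 1
  obtain ⟨t, ht⟩ := Nat.exists_eq_add_of_le' (Nat.succ_le_of_lt hq)
  have ht' : p ^ e = t + 1 := ht
  rw [ht']
  simp only [Nat.add_sub_cancel]
  calc ((c : R) * g') ^ (t + 1) * (f * (g : R) ^ t)
      = (c : R) ^ t * (g' : R) ^ t * (g : R) ^ t * (c * (g' * f)) := by ring
    _ = (c : R) ^ t * (g' : R) ^ t * (g : R) ^ t * (c * (g * f')) := by rw [hc]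
    _ = ((c : R) * g) ^ (t + 1) * (f' * (g' : R) ^ t) := by ring

/-- the extension of a `p^{-e}`-linear map to a localization -/
def locFun (Φ : R →+ R) (z : R') : R' :=
  IsLocalization.mk' R'
    (Φ ((IsLocalization.sec S z).1 * ((IsLocalization.sec S z).2 : R) ^ (p ^ e - 1)))
    (IsLocalization.sec S z).2

omit [Fact p.Prime] [CharP R p] in
lemma locFun_mk (hq : 0 < p ^ e) {Φ : R →+ R} (hΦ : PLin p e Φ) (f : R) (g : S) :
    locFun p e S R' Φ (IsLocalization.mk' R' f g) =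
      IsLocalization.mk' R' (Φ (f * (g : R) ^ (p ^ e - 1))) g := by
  apply loc_wd p e S R' hq hΦ
  rw [IsLocalization.mk'_sec]

omit [Fact p.Prime] [CharP R p] in
lemma mk'_add_same (a b : R) (s : S) :
    IsLocalization.mk' R' (a + b) s = IsLocalization.mk' R' a s + IsLocalization.mk' R' b s := by
  rw [IsLocalization.mk'_eq_mul_mk'_one (S := R') (a + b),
    IsLocalization.mk'_eq_mul_mk'_one (S := R') a, IsLocalization.mk'_eq_mul_mk'_one (S := R') b,
    map_add, add_mul]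

omit [Fact p.Prime] [CharP R p] in
lemma locFun_add (hq : 0 < p ^ e) {Φ : R →+ R} (hΦ : PLin p e Φ) (y z : R') :
    locFun p e S R' Φ (y + z) = locFun p e S R' Φ y + locFun p e S R' Φ z := by
  obtain ⟨f, g, rfl⟩ := IsLocalization.exists_mk'_eq S y
  obtain ⟨f', g', rfl⟩ := IsLocalization.exists_mk'_eq S z
  have h1 : IsLocalization.mk' R' f g = IsLocalization.mk' R' (f * g') (g * g') := by
    rw [IsLocalization.eq]
    exact ⟨1, by push_cast; ring⟩
  have h2 : IsLocalization.mk' R' f' g' = IsLocalization.mk' R' (f' * g) (g * g') := by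
    rw [IsLocalization.eq]
    exact ⟨1, by push_cast; ring⟩
  rw [h1, h2, ← mk'_add_same, locFun_mk p e S R' hq hΦ, locFun_mk p e S R' hq hΦ,
    locFun_mk p e S R' hq hΦ, ← mk'_add_same, ← map_add, ← add_mul]

omit [Fact p.Prime] [CharP R p] in
lemma locFun_pow (hq : 0 < p ^ e) {Φ : R →+ R} (hΦ : PLin p e Φ) (y : R) (g : S) :
    locFun p e S R' Φ (IsLocalization.mk' R' y (g ^ p ^ e)) = IsLocalization.mk' R' (Φ y) g := by
  rw [locFun_mk p e S R' hq hΦ]
  have h1 : y * ((g ^ p ^ e : S) : R) ^ (p ^ e - 1) = ((g : R) ^ (p ^ e - 1)) ^ p ^ e * y := by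
    rw [SubmonoidClass.coe_pow, ← pow_mul, ← pow_mul, mul_comm (p ^ e) (p ^ e - 1), mul_comm]
  rw [h1, hΦ, IsLocalization.eq]
  refine ⟨1, ?_⟩
  obtain ⟨t, ht⟩ := Nat.exists_eq_add_of_le' (Nat.succ_le_of_lt hq)
  have ht' : p ^ e = t + 1 := ht
  rw [SubmonoidClass.coe_pow, ht']
  simp only [Nat.add_sub_cancel]
  ring

end Loc

theorem plin_loc (e : ℕ) (S : Submonoid R) (R' : Type u) [CommRing R'] [Algebra R R']
    [IsLocalization S R'] {Φ : R →+ R} (hΦ : PLin p e Φ) :
    ∃ Φ' : R' →+ R', PLin p e Φ' ∧ ∀ (y : R) (g : S),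
      Φ' (IsLocalization.mk' R' y (g ^ p ^ e)) = IsLocalization.mk' R' (Φ y) g := by
  have hq : 0 < p ^ e := pow_pos (Fact.out (p := p.Prime)).pos e
  refine ⟨AddMonoidHom.mk' (locFun p e S R' Φ) (locFun_add p e S R' hq hΦ), ?_, ?_⟩
  · intro r z
    show locFun p e S R' Φ (r ^ p ^ e * z) = r * locFun p e S R' Φ z
    obtain ⟨a, b, rfl⟩ := IsLocalization.exists_mk'_eq S r
    obtain ⟨f, g, rfl⟩ := IsLocalization.exists_mk'_eq S z
    have h1 : IsLocalization.mk' R' f g =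
        IsLocalization.mk' R' (f * (g : R) ^ (p ^ e - 1)) (g ^ p ^ e) := by
      rw [IsLocalization.eq]
      refine ⟨1, ?_⟩
      obtain ⟨t, ht⟩ := Nat.exists_eq_add_of_le' (Nat.succ_le_of_lt hq)
      have ht' : p ^ e = t + 1 := ht
      rw [SubmonoidClass.coe_pow, ht']
      simp only [Nat.add_sub_cancel]
      ring
    rw [h1, ← IsLocalization.mk'_pow, ← IsLocalization.mk'_mul, ← mul_pow,
      locFun_pow p e S R' hq hΦ, locFun_pow p e S R' hq hΦ, hΦ, IsLocalization.mk'_mul]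
  · intro y g
    exact locFun_pow p e S R' hq hΦ y g

end

variable {A : Type u} [CommRing A] [IsLocalRing A] {p : ℕ} [Fact p.Prime] [CharP A p]

theorem Ie_AT (e : ℕ) : Ie (AT A) p e ≤ (Ie A p e).map (iota A) := by
  intro x hx
  have hq : 0 < p ^ e := pow_pos (Fact.out (p := p.Prime)).pos e
  obtain ⟨f, g, rfl⟩ := IsLocalization.exists_mk'_eq (mX A).primeCompl x
  have h1 : IsLocalization.mk' (AT A) f g =
      IsLocalization.mk' (AT A) (f * (g : A[X]) ^ (p ^ e - 1)) (g ^ p ^ e) := by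
    rw [IsLocalization.eq]
    refine ⟨1, ?_⟩
    obtain ⟨t, ht⟩ := Nat.exists_eq_add_of_le' (Nat.succ_le_of_lt hq)
    have ht' : p ^ e = t + 1 := ht
    rw [SubmonoidClass.coe_pow, ht']
    simp only [Nat.add_sub_cancel]
    ring
  rw [h1] at hx ⊢
  set h := f * (g : A[X]) ^ (p ^ e - 1) with hh
  rw [mem_map_AT]
  refine ⟨1, fun h2 => (mX_prime A).ne_top ((Ideal.eq_top_iff_one _).2 h2), fun n => ?_⟩
  rw [one_mul]
  intro φ hφ
  obtain ⟨Φ, hΦ, hΦc⟩ := plin_poly e hφ (n % p ^ e) (Nat.mod_lt _ hq)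
  obtain ⟨Φ', hΦ', hΦc'⟩ := plin_loc e (mX A).primeCompl (AT A) hΦ
  have h3 := hx Φ' hΦ'
  rw [hΦc', IsLocalization.AtPrime.mk'_mem_maximal_iff (AT A) (mX A), mem_mX] at h3
  have h4 := h3 (n / p ^ e)
  rwa [hΦc, Nat.div_add_mod] at h4

theorem el_Ie_AT [IsNoetherianRing A] (e : ℕ) : el (Ie A p e) ≤ el (Ie (AT A) p e) := by
  have h1 := mp_Ie (A := A) (p := p) e
  haveI := charP_AT (A := A) p
  rw [← el_map_AT h1]
  exact el_anti (mp_Ie e) (Ie_AT e)

end Pool.Agent.H56.FS
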