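import Pool.Agent.H56.FS.Step
import Pool.Agent.H56.FS.PolyIe
import Pool.Agent.H56.FS.FSig

/-!
# FS-FINAL: the main theorem
-/

set_option autoImplicit false

noncomputable section

namespace Pool.Agent.H56.FS

open IsLocalRing Pool.Agent.H34.HK Filter

universe u

/-- numerical part: the defects vanish -/
theorem defect_zero (p : ℕ) [Fact p.Prime] (d : ℕ) (s : ℝ) (hs : 0 < s) (b δ : ℕ → ℝ)
    (hb : Tendsto (fun e : ℕ => b e / ((p : ℝ) ^ e) ^ d) atTop (nhds s))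
    (hδ0 : ∀ e, 0 ≤ δ e)
    (hδ : ∀ e e', b e' * δ e ≤ δ (e + e'))
    (u : ℕ → ℝ) (hu : Tendsto u atTop (nhds 0)) (hδu : ∀ e, δ e / ((p : ℝ) ^ e) ^ d ≤ u e)
    (e : ℕ) : δ e = 0 := by
  have hp : (0 : ℝ) < p := by exact_mod_cast (Fact.out : p.Prime).pos
  have h1 : Tendsto (fun e' : ℕ => b e' / ((p : ℝ) ^ e') ^ d * (δ e / ((p : ℝ) ^ e) ^ d)) atTop
      (nhds (s * (δ e / ((p : ℝ) ^ e) ^ d))) := hb.mul_const _
  have h2 : Tendsto (fun e' : ℕ => u (e + e')) atTop (nhds 0) := by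
    have := hu.comp (tendsto_add_atTop_nat e)
    refine this.congr fun n => ?_
    rw [Function.comp_apply, add_comm]
  have h3 : s * (δ e / ((p : ℝ) ^ e) ^ d) ≤ 0 := by
    refine le_of_tendsto_of_tendsto' h1 h2 fun e' => ?_
    refine le_trans ?_ (hδu (e + e'))
    have h4 : ((p : ℝ) ^ (e + e')) ^ d = ((p : ℝ) ^ e') ^ d * ((p : ℝ) ^ e) ^ d := by
      rw [pow_add, mul_pow, mul_comm]
    rw [h4, div_mul_div_comm]
    exact div_le_div_of_nonneg_right (hδ e e') (by positivity)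
  have h4 : 0 < ((p : ℝ) ^ e) ^ d := by positivity
  have h5 : 0 ≤ δ e / ((p : ℝ) ^ e) ^ d := div_nonneg (hδ0 e) h4.le
  have h6 : δ e / ((p : ℝ) ^ e) ^ d = 0 := by
    by_contra h
    have h7 : 0 < δ e / ((p : ℝ) ^ e) ^ d := lt_of_le_of_ne h5 (Ne.symm h)
    have := mul_pos hs h7
    linarith
  rcases div_eq_zero_iff.1 h6 with h7 | h7
  · exact h7
  · exact absurd h7 h4.ne'

theorem main (p : ℕ) [Fact p.Prime] (A : Type u) [CommRing A] [IsNoetherianRing A] [IsLocalRing A]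
    [CharP A p] (hG : IsGorensteinLocal A) (d : ℕ) (hd : ringKrullDim A = d) (c eHK s : ℝ)
    (hc : IsMultiplicity A d c) (hHK : IsHKMultiplicity A p d eHK) (hsig : IsFSignature A p d s)
    (hs : 0 < s) (heq : eHK = s + (1 - s) * c) : c ≤ 2 := by
  have hGor : Gor A d := Gor.of_isGorensteinLocal hG hd
  have hCP : CharP (AT A) p := charP_AT p
  have hGor' : Gor (AT A) d := gor_AT hGor
  have hinf : InfRes (AT A) := infRes_AT
  have hmax : maximalIdeal (AT A) = (maximalIdeal A).map (iota A) := max_AT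
  have hMA : Mp (maximalIdeal A) := Mp.max
  have hfp : ∀ e, el (frobPow p e (maximalIdeal (AT A))) = el (frobPow p e (maximalIdeal A)) := by
    intro e
    rw [hmax, frobPow_map, el_map_AT (hMA.frobPow e)]
  have hmult : IsMultiplicity (AT A) d c := by
    refine hc.congr fun n => ?_
    have h1 : el (maximalIdeal (AT A) ^ n) = el (maximalIdeal A ^ n) := by
      rw [hmax, ← Ideal.map_pow, el_map_AT (Mp.pow n)]
    have h2 : (Module.length (AT A) (AT A ⧸ maximalIdeal (AT A) ^ n)).toNat =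
      (Module.length A (A ⧸ maximalIdeal A ^ n)).toNat := h1
    rw [h2]
  obtain ⟨xs, hl, hreg, hJ, hS, hmu⟩ := exists_red d (AT A) hinf hGor'
  have hcJ : c = el (Ideal.ofList xs) := mult_unique hmult hmu
  set c' := el (Ideal.ofList xs) with hc'
  by_contra hlt
  rw [not_le, hcJ] at hlt
  have hc3 : 3 ≤ c' := by
    have : (2 : ℝ) < c' := hlt
    exact_mod_cast this
  have hJm : Ideal.ofList xs ≤ maximalIdeal (AT A) := by
    refine IsLocalRing.le_maximalIdeal fun h => ?_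
    rw [h, el_top] at hc'
    omega
  have hb := fsig_tendsto (p := p) hs hsig
  -- the numbers
  let b : ℕ → ℝ := fun e => el (Ie A p e)
  let b' : ℕ → ℝ := fun e => el (Ie (AT A) p e)
  have hbb : ∀ e, b e ≤ b' e := fun e => by
    show (el (Ie A p e) : ℝ) ≤ (el (Ie (AT A) p e) : ℝ)
    exact_mod_cast el_Ie_AT (A := A) (p := p) e
  let m : ℕ → ℝ := fun e => el (frobPow p e (maximalIdeal A))
  let δ : ℕ → ℝ := fun e => (c' : ℝ) * ((p : ℝ) ^ e) ^ d - m e - b' e * ((c' : ℝ) - 1)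
  have hJe : ∀ e, el (frobPow p e (Ideal.ofList xs)) = (p ^ e) ^ d * c' := fun e => by
    rw [el_frobPow_ofList e xs hreg hJ, hl]
  have hδ0 : ∀ e, 0 ≤ δ e := fun e => by
    have h1 := main1 (p := p) e hJ hJm
    rw [hfp, hJe, el_max, mul_one, ← hc'] at h1
    have h2 : (el (frobPow p e (maximalIdeal A)) : ℝ) + el (Ie (AT A) p e) * c' ≤
        (p ^ e : ℕ) ^ d * c' + el (Ie (AT A) p e) := by exact_mod_cast h1
    show 0 ≤ (c' : ℝ) * ((p : ℝ) ^ e) ^ d - el (frobPow p e (maximalIdeal A)) -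
      el (Ie (AT A) p e) * ((c' : ℝ) - 1)
    push_cast at h2
    nlinarith
  have hδ : ∀ e e', b e' * δ e ≤ δ (e + e') := fun e e' => by
    have h1 := main2 (p := p) e e' hJ hJm
    rw [hfp, hJe, hfp, hJe, el_max, ← hc'] at h1
    have h2 : (el (Ie (AT A) p e') : ℝ) * (((p ^ e : ℕ) ^ d * c' : ℝ) -
        el (frobPow p e (maximalIdeal A)) - el (Ie (AT A) p e) * ((c' : ℝ) - 1)) ≤
        ((p ^ (e + e') : ℕ) ^ d * c' : ℝ) - el (frobPow p (e + e') (maximalIdeal A)) -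
        el (Ie (AT A) p (e + e')) * ((c' : ℝ) - 1) := by exact_mod_cast h1
    have h3 : b' e' * δ e ≤ δ (e + e') := by
      show (el (Ie (AT A) p e') : ℝ) * ((c' : ℝ) * ((p : ℝ) ^ e) ^ d -
        el (frobPow p e (maximalIdeal A)) - el (Ie (AT A) p e) * ((c' : ℝ) - 1)) ≤
        (c' : ℝ) * ((p : ℝ) ^ (e + e')) ^ d - el (frobPow p (e + e') (maximalIdeal A)) -
        el (Ie (AT A) p (e + e')) * ((c' : ℝ) - 1)
      push_cast at h2
      rw [mul_comm (c' : ℝ) (((p : ℝ) ^ e) ^ d), mul_comm (c' : ℝ) (((p : ℝ) ^ (e + e')) ^ d)]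
      exact h2
    exact (mul_le_mul_of_nonneg_right (hbb e') (hδ0 e)).trans h3
  have hp : (0 : ℝ) < p := by exact_mod_cast (Fact.out : p.Prime).pos
  have hu : Tendsto (fun e : ℕ => (c' : ℝ) - m e / ((p : ℝ) ^ e) ^ d -
      b e / ((p : ℝ) ^ e) ^ d * ((c' : ℝ) - 1)) atTop (nhds 0) := by
    have h1 : Tendsto (fun e : ℕ => m e / ((p : ℝ) ^ e) ^ d) atTop (nhds eHK) := hHK
    have h2 := (tendsto_const_nhds (x := (c' : ℝ))).sub h1 |>.sub (hb.mul_const ((c' : ℝ) - 1))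
    have h3 : (c' : ℝ) - eHK - s * ((c' : ℝ) - 1) = 0 := by
      rw [heq, hcJ]
      ring
    rw [h3] at h2
    exact h2
  have hδu : ∀ e, δ e / ((p : ℝ) ^ e) ^ d ≤ (c' : ℝ) - m e / ((p : ℝ) ^ e) ^ d -
      b e / ((p : ℝ) ^ e) ^ d * ((c' : ℝ) - 1) := fun e => by
    have hq : (0 : ℝ) < ((p : ℝ) ^ e) ^ d := by positivity
    have h1 : (c' : ℝ) - m e / ((p : ℝ) ^ e) ^ d - b e / ((p : ℝ) ^ e) ^ d * ((c' : ℝ) - 1) =
        ((c' : ℝ) * ((p : ℝ) ^ e) ^ d - m e - b e * ((c' : ℝ) - 1)) / ((p : ℝ) ^ e) ^ d := by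
      field_simp
    rw [h1]
    refine div_le_div_of_nonneg_right ?_ hq.le
    show (c' : ℝ) * ((p : ℝ) ^ e) ^ d - m e - b' e * ((c' : ℝ) - 1) ≤ _
    have h2 : (0 : ℝ) ≤ (c' : ℝ) - 1 := by linarith
    have := mul_le_mul_of_nonneg_right (hbb e) h2
    linarith
  have hzero := defect_zero p d s hs b δ hb hδ0 hδ _ hu hδu
  -- some `e ≥ 1` with `b e > 0`
  have hev : ∀ᶠ e : ℕ in atTop, 0 < b e / ((p : ℝ) ^ e) ^ d := hb.eventually (lt_mem_nhds hs)
  obtain ⟨e, he0, he1⟩ := (hev.and (eventually_ge_atTop 1)).exists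
  have hbe : 0 < b e := by
    by_contra h
    have h1 : b e / ((p : ℝ) ^ e) ^ d ≤ 0 :=
      div_nonpos_of_nonpos_of_nonneg (not_lt.1 h) (by positivity)
    linarith
  have hz := hzero e
  have hle : c' * (p ^ e) ^ d + el (Ie (AT A) p e) ≤
      el (frobPow p e (maximalIdeal (AT A))) + c' * el (Ie (AT A) p e) := by
    rw [hfp]
    have h1 : (c' : ℝ) * ((p : ℝ) ^ e) ^ d - el (frobPow p e (maximalIdeal A)) -
      el (Ie (AT A) p e) * ((c' : ℝ) - 1) = 0 := hz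
    have h2 : (c' : ℝ) * ((p : ℝ) ^ e) ^ d + el (Ie (AT A) p e) ≤
        el (frobPow p e (maximalIdeal A)) + c' * el (Ie (AT A) p e) := by
      linarith
    exact_mod_cast h2
  rw [hcJ] at hmult
  have hfin := bq_zero p e he1 c' hc3 d (AT A) hinf hGor' hmult hle
  have : b' e = 0 := by
    show (el (Ie (AT A) p e) : ℝ) = 0
    rw [hfin, Nat.cast_zero]
  have := hbb e
  linarith

end Pool.Agent.H56.FS
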