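import Pool.Agent.H56.FS.Len

/-!
# FS-FROB: Frobenius powers of ideals

`frobPow p e I` is the ideal generated by the `x ^ p ^ e`, `x ∈ I`. In characteristic `p` the map
`x ↦ x ^ p ^ e` is the ring homomorphism `iterateFrobenius A p e`, so
`frobPow p e I = I.map (iterateFrobenius A p e)` (`frobPow_eq_map`), and everything follows from
properties of `Ideal.map` (`Ideal.map_sup`, `Ideal.map_span`, `Ideal.map_mul`, `Ideal.map_map`).
`Mp.frobPow`: `K ≥ 𝔪^n`, `𝔪 = (y_1..y_r)`; `𝔪^[q] ≥ 𝔪^{rq}`-type argument, or: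
`frobPow p e (𝔪^n) = (frobPow p e 𝔪)^n` and `𝔪 ≤ radical (frobPow p e 𝔪)`, `𝔪` finitely generated
(`Ideal.exists_pow_le_of_le_radical_of_fg`).
-/

set_option autoImplicit false

noncomputable section

namespace Pool.Agent.H56.FS

open IsLocalRing Pool.Agent.H34.HK Filter

universe u

section

variable {A : Type u} [CommRing A] {p : ℕ} [Fact p.Prime] [CharP A p]

lemma frobPow_eq_map (e : ℕ) (I : Ideal A) : frobPow p e I = I.map (iterateFrobenius A p e) := by
  apply le_antisymm
  · rw [frobPow, Ideal.span_le]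
    rintro _ ⟨x, hx, rfl⟩
    exact Ideal.mem_map_of_mem (iterateFrobenius A p e) hx
  · rw [Ideal.map_le_iff_le_comap]
    intro x hx
    rw [Ideal.mem_comap, iterateFrobenius_def]
    exact Ideal.subset_span ⟨x, hx, rfl⟩

lemma pow_mem_frobPow (e : ℕ) {I : Ideal A} {x : A} (hx : x ∈ I) : x ^ p ^ e ∈ frobPow p e I := by
  exact Ideal.subset_span ⟨x, hx, rfl⟩

lemma frobPow_mono (e : ℕ) {I J : Ideal A} (h : I ≤ J) : frobPow p e I ≤ frobPow p e J := by
  exact Ideal.span_mono (Set.image_mono h)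

lemma frobPow_sup (e : ℕ) (I J : Ideal A) :
    frobPow p e (I ⊔ J) = frobPow p e I ⊔ frobPow p e J := by
  rw [frobPow_eq_map, frobPow_eq_map, frobPow_eq_map, Ideal.map_sup]

lemma frobPow_span (e : ℕ) (g : A) : frobPow p e (Ideal.span {g}) = Ideal.span {g ^ p ^ e} := by
  rw [frobPow_eq_map, Ideal.map_span, Set.image_singleton, iterateFrobenius_def]

lemma frobPow_mul (e : ℕ) (I J : Ideal A) :
    frobPow p e (I * J) = frobPow p e I * frobPow p e J := by
  rw [frobPow_eq_map, frobPow_eq_map, frobPow_eq_map, Ideal.map_mul]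

lemma frobPow_frobPow (e e' : ℕ) (I : Ideal A) :
    frobPow p e' (frobPow p e I) = frobPow p (e + e') I := by
  rw [frobPow_eq_map, frobPow_eq_map, frobPow_eq_map, Ideal.map_map, ← iterateFrobenius_add,
    add_comm]

lemma frobPow_ofList (e : ℕ) (xs : List A) :
    frobPow p e (Ideal.ofList xs) = Ideal.ofList (xs.map fun x => x ^ p ^ e) := by
  rw [frobPow_eq_map, Ideal.map_ofList]
  rfl

lemma frobPow_map {B : Type u} [CommRing B] [CharP B p] (e : ℕ) (f : A →+* B) (I : Ideal A) :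
    frobPow p e (I.map f) = (frobPow p e I).map f := by
  rw [frobPow_eq_map, frobPow_eq_map, Ideal.map_map, Ideal.map_map, RingHom.iterateFrobenius_comm]

lemma frobPow_le (e : ℕ) (I : Ideal A) : frobPow p e I ≤ I := by
  rw [frobPow, Ideal.span_le]
  rintro _ ⟨x, hx, rfl⟩
  exact Ideal.pow_mem_of_mem I hx _ (pow_pos (Fact.out : p.Prime).pos e)

end

variable {A : Type u} [CommRing A] [IsLocalRing A] [IsNoetherianRing A] {p : ℕ} [Fact p.Prime]
  [CharP A p]

lemma Mp.frobPow {K : Ideal A} (h : Mp K) (e : ℕ) : Mp (frobPow p e K) := by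
  obtain ⟨n, hn⟩ := h
  have h1 : maximalIdeal A ≤ (Pool.Agent.H34.HK.frobPow p e K).radical := by
    intro x hx
    refine ⟨n * p ^ e, ?_⟩
    rw [pow_mul]
    exact pow_mem_frobPow e (hn (Ideal.pow_mem_pow hx n))
  obtain ⟨k, hk⟩ := Ideal.exists_pow_le_of_le_radical_of_fg h1
    (IsNoetherian.noetherian (maximalIdeal A))
  exact ⟨k, hk⟩

end Pool.Agent.H56.FS
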