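import Pool.Agent.H56.FS.Exch

/-!
# FS-GORQ: Gorenstein rings: dimension, quotients

* `RegSeq.isRegular`: induction with `RingTheory.Sequence.isWeaklyRegular_iff`,
  `isWeaklyRegular_cons_iff'`, or show directly from `isWeaklyRegular_iff`-type characterisations:
  `RegSeq K xs` says that `xs[i]` is regular on `A / (K + (xs_0, …, xs_{i-1}))`. (For `K = ⊥`.)
* `dim_add`: for `x ∈ 𝔪` regular mod `K`, `ringKrullDim (A/(K + (x))) + 1 = ringKrullDim (A/K)`:
  `ringKrullDim_quotient_span_singleton_succ_eq_ringKrullDim_of_mem_nonZeroDivisors` for `A/K`.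
* `RegSeq.dim`: induction, or `ringKrullDim_add_length_eq_ringKrullDim_of_isRegular`.
* `RegSeq.mp`: dimension `0`, Noetherian, so Artinian (`mp_iff_isArtinianRing`).
* `RegSeq.map`, `Soc.map`: for surjective `f : A → B` with kernel `≤ K`: `f a ∈ K.map f ↔ a ∈ K`
  (`Ideal.mem_map_iff_of_surjective`), `𝔪_B = f(𝔪_A)`.
* `Gor.quot`: `exch` with `K = ⊥`, `RegSeq.map`, `Soc.map`, and `dim_add` for `K = ⊥`.
* `Gor.of_isGorensteinLocal`: the regular sequence has length `d` by
  `ringKrullDim_add_length_eq_ringKrullDim_of_isRegular` (Artinian nontrivial: dimension `0`). In an Artinian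
  local ring `R ≠ 0` the socle is nonzero (the last nonzero power of the maximal ideal); if zero is irreducible
  then for socle elements `c ≠ 0` and `a ≠ 0`: `(a) ∩ (c) ≠ 0`, and `(a)`, `(c)` are simple modules so
  `(a) = (c)`.
* `Gor.exists_nzd`: the first member of the sequence.
-/

set_option autoImplicit false

noncomputable section

namespace Pool.Agent.H56.FS

open IsLocalRing Pool.Agent.H34.HK Filter

universe u

variable {A : Type u} [CommRing A] [IsLocalRing A]

lemma mem_map_surj {B : Type u} [CommRing B] (f : A →+* B)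
    (hf : Function.Surjective f) {K : Ideal A} (hK : RingHom.ker f ≤ K) {a : A} :
    f a ∈ K.map f ↔ a ∈ K := by
  refine ⟨fun h => ?_, fun h => Ideal.mem_map_of_mem f h⟩
  obtain ⟨k, hk, hka⟩ := (Ideal.mem_map_iff_of_surjective f hf).1 h
  have h1 : a - k ∈ RingHom.ker f := by
    rw [RingHom.mem_ker, map_sub, hka, sub_self]
  have h2 := K.add_mem (hK h1) hk
  rwa [sub_add_cancel] at h2

lemma mem_max_surj {B : Type u} [CommRing B] [IsLocalRing B] (f : A →+* B)
    (hf : Function.Surjective f) {a : A} :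
    f a ∈ maximalIdeal B ↔ a ∈ maximalIdeal A := by
  have h1 : RingHom.ker f ≤ maximalIdeal A := by
    apply IsLocalRing.le_maximalIdeal
    exact RingHom.ker_ne_top f
  rw [← IsLocalRing.map_maximalIdeal_of_surjective f hf]
  exact mem_map_surj f hf h1

lemma map_sup_span {B : Type u} [CommRing B] (f : A →+* B) (K : Ideal A) (x : A) :
    (K ⊔ Ideal.span {x}).map f = K.map f ⊔ Ideal.span {f x} := by
  rw [Ideal.map_sup, Ideal.map_span, Set.image_singleton]

lemma nzd_map {B : Type u} [CommRing B] (f : A →+* B)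
    (hf : Function.Surjective f) {K : Ideal A} (hK : RingHom.ker f ≤ K) {x : A} :
    Nzd (K.map f) (f x) ↔ Nzd K x := by
  constructor
  · intro h a ha
    rw [← mem_map_surj f hf hK] at ha ⊢
    rw [map_mul] at ha
    exact h _ ha
  · intro h b hb
    obtain ⟨a, rfl⟩ := hf b
    rw [← map_mul, mem_map_surj f hf hK] at hb
    exact (mem_map_surj f hf hK).2 (h a hb)

lemma regSeq_map {B : Type u} [CommRing B] [IsLocalRing B] (f : A →+* B)
    (hf : Function.Surjective f) (K : Ideal A) (hK : RingHom.ker f ≤ K) (xs : List A)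
    (h : RegSeq K xs) : RegSeq (K.map f) (xs.map f) := by
  induction xs generalizing K with
  | nil => exact trivial
  | cons x xs ih =>
    obtain ⟨hx, hn, hr⟩ := h
    rw [List.map_cons, regSeq_cons]
    refine ⟨(mem_max_surj f hf).2 hx, (nzd_map f hf hK).2 hn, ?_⟩
    rw [← map_sup_span]
    exact ih _ (hK.trans le_sup_left) hr

lemma soc_map {B : Type u} [CommRing B] [IsLocalRing B] (f : A →+* B)
    (hf : Function.Surjective f) (K : Ideal A) (hK : RingHom.ker f ≤ K) (h : Soc K) :
    Soc (K.map f) := by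
  obtain ⟨c, hc, h⟩ := h
  refine ⟨f c, fun hh => hc ((mem_map_surj f hf hK).1 hh), fun b => ?_⟩
  obtain ⟨a, rfl⟩ := hf b
  rw [← map_sup_span, mem_map_surj f hf (hK.trans le_sup_left), ← h a]
  constructor
  · intro hb r hr
    have h1 := hb (f r) ((mem_max_surj f hf).2 hr)
    rwa [← map_mul, mem_map_surj f hf hK] at h1
  · intro ha s hs
    obtain ⟨r, rfl⟩ := hf s
    rw [← map_mul, mem_map_surj f hf hK]
    exact ha r ((mem_max_surj f hf).1 hs)

/-- lift a regular sequence from a quotient by a regular element -/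
lemma regSeq_lift {B : Type u} [CommRing B] [IsLocalRing B] (f : A →+* B)
    (hf : Function.Surjective f) (K : Ideal A) (hK : RingHom.ker f ≤ K) (ys : List B)
    (h : RegSeq (K.map f) ys) : ∃ xs : List A, xs.map f = ys ∧ RegSeq K xs := by
  induction ys generalizing K with
  | nil => exact ⟨[], rfl, trivial⟩
  | cons y ys ih =>
    obtain ⟨hy, hn, hr⟩ := h
    obtain ⟨x, rfl⟩ := hf y
    rw [← map_sup_span] at hr
    obtain ⟨xs, hxs, hreg⟩ := ih _ (hK.trans le_sup_left) hr
    refine ⟨x :: xs, by rw [List.map_cons, hxs], ?_⟩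
    rw [regSeq_cons]
    exact ⟨(mem_max_surj f hf).1 hy, (nzd_map f hf hK).1 hn, hreg⟩

lemma soc_of_map {B : Type u} [CommRing B] [IsLocalRing B] (f : A →+* B)
    (hf : Function.Surjective f) (K : Ideal A) (hK : RingHom.ker f ≤ K) (h : Soc (K.map f)) :
    Soc K := by
  obtain ⟨c', hc, h⟩ := h
  obtain ⟨c, rfl⟩ := hf c'
  refine ⟨c, fun hh => hc ((mem_map_surj f hf hK).2 hh), fun a => ?_⟩
  have h1 := h (f a)
  rw [← map_sup_span, mem_map_surj f hf (hK.trans le_sup_left)] at h1
  rw [← h1]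
  constructor
  · intro ha s hs
    obtain ⟨r, rfl⟩ := hf s
    rw [← map_mul, mem_map_surj f hf hK]
    exact ha r ((mem_max_surj f hf).1 hs)
  · intro hb r hr
    have h1 := hb (f r) ((mem_max_surj f hf).2 hr)
    rwa [← map_mul, mem_map_surj f hf hK] at h1

variable [IsNoetherianRing A]

omit [IsNoetherianRing A] in
lemma ringKrullDim_top : ringKrullDim (A ⧸ (⊤ : Ideal A)) = ⊥ := by
  have : Subsingleton (A ⧸ (⊤ : Ideal A)) := Ideal.Quotient.subsingleton_iff.2 rfl
  exact ringKrullDim_eq_bot_of_subsingleton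

lemma dim_step (K : Ideal A) {x : A} (hx : x ∈ maximalIdeal A) (hn : Nzd K x) :
    ringKrullDim (A ⧸ (K ⊔ Ideal.span {x})) + 1 = ringKrullDim (A ⧸ K) := by
  by_cases hK : K = ⊤
  · subst hK
    rw [top_sup_eq, ringKrullDim_top]
    rfl
  · have : Nontrivial (A ⧸ K) := Ideal.Quotient.nontrivial_iff.2 hK
    have : IsLocalRing (A ⧸ K) :=
      IsLocalRing.of_surjective' (Ideal.Quotient.mk K) Ideal.Quotient.mk_surjective
    have h1 : (Ideal.Quotient.mk K x) ∈ maximalIdeal (A ⧸ K) :=
      (mem_max_surj _ Ideal.Quotient.mk_surjective).2 hx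
    have h2 : IsSMulRegular (A ⧸ K) (Ideal.Quotient.mk K x) := by
      rw [isSMulRegular_iff_right_eq_zero_of_smul]
      intro b hb
      obtain ⟨a, rfl⟩ := Ideal.Quotient.mk_surjective b
      rw [smul_eq_mul, ← map_mul, Ideal.Quotient.eq_zero_iff_mem] at hb
      exact Ideal.Quotient.eq_zero_iff_mem.2 (hn a hb)
    rw [← ringKrullDim_quotient_span_singleton_succ_eq_ringKrullDim h2 h1]
    have h3 : (Ideal.span {x}).map (Ideal.Quotient.mk K) =
        Ideal.span {Ideal.Quotient.mk K x} := by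
      rw [Ideal.map_span, Set.image_singleton]
    rw [← ringKrullDim_eq_of_ringEquiv (DoubleQuot.quotQuotEquivQuotSup K (Ideal.span {x})),
      ringKrullDim_eq_of_ringEquiv (Ideal.quotEquivOfEq h3)]

lemma dim_aux (K : Ideal A) (xs : List A) (h : RegSeq K xs) :
    ringKrullDim (A ⧸ (K ⊔ Ideal.ofList xs)) + xs.length = ringKrullDim (A ⧸ K) := by
  induction xs generalizing K with
  | nil =>
    rw [Ideal.ofList_nil, sup_bot_eq, List.length_nil, Nat.cast_zero, add_zero]
  | cons x xs ih =>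
    obtain ⟨hx, hn, hr⟩ := h
    have h1 := ih _ hr
    rw [Ideal.ofList_cons, ← sup_assoc, List.length_cons, Nat.cast_add, Nat.cast_one,
      ← add_assoc, h1, dim_step K hx hn]

/-- dimension of the quotient by a regular sequence -/
theorem regSeq_dim (xs : List A) (h : RegSeq ⊥ xs) :
    ringKrullDim (A ⧸ Ideal.ofList xs) + xs.length = ringKrullDim A := by
  have h1 := dim_aux ⊥ xs h
  rw [bot_sup_eq] at h1
  rw [h1]
  exact ringKrullDim_eq_of_ringEquiv (RingEquiv.quotientBot A)

omit [IsNoetherianRing A] in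
lemma ofList_ne_top (K : Ideal A) (hK : K ≤ maximalIdeal A) (xs : List A) (h : RegSeq K xs) :
    K ⊔ Ideal.ofList xs ≤ maximalIdeal A := by
  induction xs generalizing K with
  | nil => rwa [Ideal.ofList_nil, sup_bot_eq]
  | cons x xs ih =>
    obtain ⟨hx, hn, hr⟩ := h
    rw [Ideal.ofList_cons, ← sup_assoc]
    exact ih _ (sup_le hK ((Ideal.span_singleton_le_iff_mem _).2 hx)) hr

omit [IsLocalRing A] [IsNoetherianRing A] in
lemma wb_cancel (t : WithBot ℕ∞) (s d : ℕ) (h : t + (d : WithBot ℕ∞) = s + d) : t = s := by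
  cases t with
  | bot =>
    rw [WithBot.bot_add] at h
    have h1 : ((s : WithBot ℕ∞) + d) = (((s + d : ℕ) : ℕ∞) : WithBot ℕ∞) := by
      push_cast
      rfl
    rw [h1] at h
    exact absurd h WithBot.bot_ne_coe
  | coe t =>
    have h2 : ((t + (d : ℕ∞) : ℕ∞) : WithBot ℕ∞) =
        (((s : ℕ∞) + (d : ℕ∞) : ℕ∞) : WithBot ℕ∞) := by exact_mod_cast h
    have h5 := WithBot.coe_injective h2
    cases t with
    | top =>
      rw [top_add] at h5
      have h6 : ((s : ℕ∞) + (d : ℕ∞)) = ((s + d : ℕ) : ℕ∞) := by push_cast; rfl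
      rw [h6] at h5
      exact absurd h5 (ENat.top_ne_coe _)
    | coe n =>
      have h7 : n + d = s + d := by exact_mod_cast h5
      have h8 : n = s := by omega
      rw [h8]
      rfl

theorem mp_of_regSeq {d : ℕ} (hd : ringKrullDim A = d) (xs : List A) (hl : xs.length = d)
    (h : RegSeq ⊥ xs) : Mp (Ideal.ofList xs) := by
  have h1 := regSeq_dim xs h
  have h0 : Ideal.ofList xs ≤ maximalIdeal A := by
    have := ofList_ne_top ⊥ bot_le xs h
    rwa [bot_sup_eq] at this
  have : Nontrivial (A ⧸ Ideal.ofList xs) := Ideal.Quotient.nontrivial_iff.2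
    (fun h => (maximalIdeal.isMaximal A).ne_top (top_le_iff.1 (h ▸ h0)))
  rw [mp_iff_isArtinianRing, isArtinianRing_iff_isNoetherianRing_krullDimLE_zero]
  refine ⟨inferInstance, ?_⟩
  rw [ringKrullDimZero_iff_ringKrullDim_eq_zero]
  rw [hd, hl] at h1
  have h3 := wb_cancel _ 0 d (by rw [h1]; simp)
  rw [h3]
  rfl

/-- conversely -/
theorem dim_of_mp (xs : List A) (h : RegSeq ⊥ xs) (hM : Mp (Ideal.ofList xs)) :
    ringKrullDim A = xs.length := by
  have h1 := regSeq_dim xs h
  have h0 : Ideal.ofList xs ≤ maximalIdeal A := by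
    have := ofList_ne_top ⊥ bot_le xs h
    rwa [bot_sup_eq] at this
  have : Nontrivial (A ⧸ Ideal.ofList xs) := Ideal.Quotient.nontrivial_iff.2
    (fun h => (maximalIdeal.isMaximal A).ne_top (top_le_iff.1 (h ▸ h0)))
  rw [mp_iff_isArtinianRing, isArtinianRing_iff_isNoetherianRing_krullDimLE_zero] at hM
  have h2 := ringKrullDimZero_iff_ringKrullDim_eq_zero.1 hM.2
  rw [← h1, h2, zero_add]

theorem Gor.quot {d : ℕ} (h : Gor A (d + 1)) {z : A} (hzm : z ∈ maximalIdeal A) (hz : Nzd ⊥ z)
    {B : Type u} [CommRing B] [IsLocalRing B] (f : A →+* B) (hf : Function.Surjective f)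
    (hk : RingHom.ker f = Ideal.span {z}) : Gor B d := by
  obtain ⟨hd, xs, hl, hr, hs⟩ := h
  obtain ⟨ys, hyl, hyr, hys⟩ := exch (K := ⊥) hzm hz ⟨xs, hl, hr, by rwa [bot_sup_eq]⟩
  have hk' : RingHom.ker f ≤ ⊥ ⊔ Ideal.span {z} := by rw [hk, bot_sup_eq]
  have hm : ((⊥ : Ideal A) ⊔ Ideal.span {z}).map f = ⊥ := by
    rw [bot_sup_eq, ← hk, Ideal.map_eq_bot_iff_le_ker]
  refine ⟨?_, ys.map f, by rw [List.length_map, hyl], ?_, ?_⟩
  · have h1 := dim_step ⊥ hzm hz
    rw [bot_sup_eq, ringKrullDim_eq_of_ringEquiv (RingEquiv.quotientBot A), hd,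
      ringKrullDim_eq_of_ringEquiv ((Ideal.quotEquivOfEq hk.symm).trans
        (RingHom.quotientKerEquivOfSurjective hf))] at h1
    exact wb_cancel _ d 1 (by rw [Nat.cast_one, h1]; push_cast; rfl)
  · have h1 := regSeq_map f hf _ hk' ys hyr
    rwa [hm] at h1
  · have h1 := soc_map f hf _ (hk'.trans le_sup_left) hys
    rwa [Ideal.map_sup, hm, bot_sup_eq, Ideal.map_ofList] at h1

omit [IsLocalRing A] [IsNoetherianRing A] in
lemma nzd_of_isSMulRegular {J : Ideal A} {x : A}
    (h : IsSMulRegular (A ⧸ (J • ⊤ : Submodule A A)) x) : Nzd J x := by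
  intro a ha
  rw [isSMulRegular_iff_right_eq_zero_of_smul] at h
  have h1 := h (Submodule.Quotient.mk a) (by
    rw [← Submodule.Quotient.mk_smul, Submodule.Quotient.mk_eq_zero, smul_eq_mul]
    rw [smul_eq_mul, Ideal.mul_top]
    exact ha)
  rw [Submodule.Quotient.mk_eq_zero, smul_eq_mul, Ideal.mul_top] at h1
  exact h1

omit [IsNoetherianRing A] in
lemma regSeq_of_forall (K : Ideal A) (xs : List A) (hm : ∀ x ∈ xs, x ∈ maximalIdeal A)
    (h : ∀ i (hi : i < xs.length), Nzd (K ⊔ Ideal.ofList (xs.take i)) xs[i]) :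
    RegSeq K xs := by
  induction xs generalizing K with
  | nil => exact trivial
  | cons x xs ih =>
    rw [regSeq_cons]
    refine ⟨hm x (List.mem_cons_self), ?_, ih _ (fun y hy => hm y (List.mem_cons_of_mem _ hy)) ?_⟩
    · have h1 := h 0 (by simp)
      simpa using h1
    · intro i hi
      have h1 := h (i + 1) (by simpa using hi)
      rw [List.take_succ_cons, Ideal.ofList_cons, ← sup_assoc] at h1
      simpa using h1

theorem Gor.of_isGorensteinLocal {d : ℕ} (h : IsGorensteinLocal A) (hd : ringKrullDim A = d) :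
    Gor A d := by
  obtain ⟨xs, hreg, hart, hirr⟩ := h
  have hne : Ideal.ofList xs ≠ ⊤ := by
    intro h1
    have h2 := hreg.top_ne_smul
    rw [h1] at h2
    apply h2
    rw [smul_eq_mul, Ideal.mul_top]
  have hle : Ideal.ofList xs ≤ maximalIdeal A := IsLocalRing.le_maximalIdeal hne
  have hm : ∀ x ∈ xs, x ∈ maximalIdeal A := fun x hx => hle (Ideal.subset_span hx)
  have hrs : RegSeq ⊥ xs := by
    apply regSeq_of_forall _ _ hm
    intro i hi
    rw [bot_sup_eq]
    exact nzd_of_isSMulRegular (hreg.toIsWeaklyRegular.regular_mod_prev i hi)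
  have hMp : Mp (Ideal.ofList xs) := mp_iff_isArtinianRing.2 hart
  have hdim := dim_of_mp xs hrs hMp
  have hl : xs.length = d := by
    have h1 : ((xs.length : ℕ) : WithBot ℕ∞) = ((d : ℕ) : WithBot ℕ∞) := by rw [← hdim, hd]
    exact_mod_cast h1
  refine ⟨hd, xs, hl, hrs, ?_⟩
  obtain ⟨c, -, hc, hcm⟩ := exists_step hMp (lt_of_le_of_ne le_top hne)
  refine ⟨c, hc, fun a => ⟨fun ha => ?_, fun ha r hr => ?_⟩⟩
  · by_cases haJ : a ∈ Ideal.ofList xs
    · exact (le_sup_left : Ideal.ofList xs ≤ _) haJ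
    · set q := Ideal.Quotient.mk (Ideal.ofList xs) with hq
      have h1 : Ideal.span {q a} ⊓ Ideal.span {q c} ≠ ⊥ := by
        intro h1
        rcases hirr _ _ h1 with h2 | h2
        · rw [Ideal.span_singleton_eq_bot, hq, Ideal.Quotient.eq_zero_iff_mem] at h2
          exact haJ h2
        · rw [Ideal.span_singleton_eq_bot, hq, Ideal.Quotient.eq_zero_iff_mem] at h2
          exact hc h2
      obtain ⟨t, ht, ht0⟩ := Submodule.exists_mem_ne_zero_of_ne_bot h1
      obtain ⟨hta, htc⟩ := Submodule.mem_inf.1 ht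
      rw [Ideal.mem_span_singleton'] at hta htc
      obtain ⟨u', hu'⟩ := hta
      obtain ⟨v', hv'⟩ := htc
      obtain ⟨u, rfl⟩ := Ideal.Quotient.mk_surjective u'
      obtain ⟨v, rfl⟩ := Ideal.Quotient.mk_surjective v'
      have hu : u ∉ maximalIdeal A := by
        intro hu
        apply ht0
        rw [← hu', hq, ← map_mul, Ideal.Quotient.eq_zero_iff_mem]
        exact ha u hu
      have hu2 : IsUnit u := by
        by_contra hh
        exact hu ((mem_maximalIdeal _).2 hh)
      have h3 : u * a - v * c ∈ Ideal.ofList xs := by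
        rw [← Ideal.Quotient.eq_zero_iff_mem, map_sub, map_mul, map_mul, sub_eq_zero]
        exact hu'.trans hv'.symm
      obtain ⟨w, hw⟩ := hu2.exists_left_inv
      have h4 : a = w * (u * a - v * c) + (w * v) * c := by
        linear_combination (-a) * hw
      rw [h4]
      exact Ideal.add_mem _ ((le_sup_left : Ideal.ofList xs ≤ _) (Ideal.mul_mem_left _ _ h3))
        ((le_sup_right : Ideal.span {c} ≤ _)
          (Ideal.mul_mem_left _ _ (Ideal.mem_span_singleton_self c)))
  · obtain ⟨j, hj, s, hs, rfl⟩ := Submodule.mem_sup.1 ha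
    obtain ⟨b, rfl⟩ := Ideal.mem_span_singleton'.1 hs
    rw [mul_add]
    refine Ideal.add_mem _ (Ideal.mul_mem_left _ _ hj) ?_
    have h5 : c * r ∈ Ideal.ofList xs := by
      rw [← mem_cl, hcm]
      exact hr
    have h6 : r * (b * c) = b * (c * r) := by ring
    rw [h6]
    exact Ideal.mul_mem_left _ _ h5

theorem Gor.nAss {d : ℕ} (h : Gor A (d + 1)) : NAss (⊥ : Ideal A) := by
  obtain ⟨hd, xs, hl, hr, hs⟩ := h
  cases xs with
  | nil => simp at hl
  | cons x xs =>
    obtain ⟨hx, hn, -⟩ := hr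
    exact NAss.of_nzd hx hn

end Pool.Agent.H56.FS
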