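import Pool.Agent.H56.FS.IeB

/-!
# FS-GROWTH: growth of colengths of Frobenius powers

`b_e = el (I_e)`. Both statements are proved by induction on `el K` (or on `el K - el L`): if
`K = L` they are trivial; otherwise `exists_step` gives `g ∈ L`, `g ∉ K` with `(K : g) = 𝔪`; put
`K' = K + (g) ≤ L`, `el K = el K' + 1` (`el_add`, `el_max`), and for every `e`
`el (K^[q]) = el (K'^[q]) + el (K^[q] : g^q)` (`el_add`, `frobPow_sup`, `frobPow_span`), where
`Q_e := (K^[q] : g^q) ≤ I_e` (`cl_le_Ie`), so `el Q_e ≥ b_e` (`el_anti`).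

* `main1`: add up.
* `main2` for the step `K ≤ K'`: one has to show
  `b_{e'} (el Q_e - b_e) ≤ el Q_{e+e'} - b_{e+e'}`.
  Put `X = K^[q]`, `G = g^q`, `Y = X + (G) I_e`. By `el_colon_sup` (for `X, G, I_e`) and `Q_e ≤ I_e`:
  `el X - el Y = el Q_e - b_e`. By `el_colon_sup` for `X^[q']`, `G^{q'}`, `I_e^[q']`:
  `el (X^[q']) - el (Y^[q']) = el Q_{e+e'} - el (Q_{e+e'} + I_e^[q'])`, and
  `Q_{e+e'} + I_e^[q'] ≤ I_{e+e'}` (`cl_le_Ie`, `frobPow_Ie_le`), so this is
  `≤ el Q_{e+e'} - b_{e+e'}`. By `main1` (for `e'` and `X ≤ Y`) it is `≥ b_{e'} (el X - el Y)`.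
-/

set_option autoImplicit false

noncomputable section

namespace Pool.Agent.H56.FS

open IsLocalRing Pool.Agent.H34.HK Filter

universe u

variable {A : Type u} [CommRing A] [IsLocalRing A] [IsNoetherianRing A] {p : ℕ} [Fact p.Prime]
  [CharP A p]

lemma frobPow_step (e : ℕ) (K : Ideal A) (g : A) :
    frobPow p e (K ⊔ Ideal.span {g}) = frobPow p e K ⊔ Ideal.span {g ^ p ^ e} := by
  rw [frobPow_sup, frobPow_span]

lemma main1_aux (e : ℕ) {L : Ideal A} (n : ℕ) : ∀ K : Ideal A, Mp K → K ≤ L → el K ≤ n →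
    el (frobPow p e L) + el (Ie A p e) * el K ≤ el (frobPow p e K) + el (Ie A p e) * el L := by
  induction n with
  | zero =>
    intro K hK hKL hn
    have h1 : K = L := eq_of_el hK hKL (by omega)
    rw [h1]
  | succ n ih =>
    intro K hK hKL hn
    by_cases hne : K = L
    · rw [hne]
    obtain ⟨g, hgL, hgK, hcl⟩ := exists_step hK (lt_of_le_of_ne hKL hne)
    have h1 := el_add hK g
    rw [hcl, el_max] at h1
    have hK' : Mp (K ⊔ Ideal.span {g}) := hK.mono le_sup_left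
    have hK'L : K ⊔ Ideal.span {g} ≤ L :=
      sup_le hKL ((Ideal.span_singleton_le_iff_mem _).2 hgL)
    have h2 := ih _ hK' hK'L (by omega)
    have h3 := el_add (hK.frobPow (p := p) e) (g ^ p ^ e)
    rw [← frobPow_step] at h3
    have h4 : el (Ie A p e) ≤ el (cl (frobPow p e K) (g ^ p ^ e)) :=
      el_anti ((hK.frobPow (p := p) e).cl _) (cl_le_Ie e hgK)
    rw [h1, mul_add, mul_one, h3]
    omega

theorem main1 (e : ℕ) {K L : Ideal A} (hK : Mp K) (hKL : K ≤ L) :
    el (frobPow p e L) + el (Ie A p e) * el K ≤ el (frobPow p e K) + el (Ie A p e) * el L :=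
  main1_aux e (el K) K hK hKL le_rfl

/-- the step `K ≤ K + (g)` of `main2` -/
lemma main2_step (e e' : ℕ) {K : Ideal A} (hK : Mp K) {g : A} (hg : g ∉ K) :
    (el (Ie A p e') : ℤ) * ((el (cl (frobPow p e K) (g ^ p ^ e)) : ℤ) - el (Ie A p e)) ≤
      (el (cl (frobPow p (e + e') K) (g ^ p ^ (e + e'))) : ℤ) - el (Ie A p (e + e')) := by
  have hX : Mp (frobPow p e K) := hK.frobPow e
  have hX' : Mp (frobPow p (e + e') K) := hK.frobPow (e + e')
  have h1 := el_colon_sup hX (g ^ p ^ e) (Ie A p e)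
  rw [sup_eq_right.2 (cl_le_Ie e hg)] at h1
  have h2 := el_colon_sup hX' (g ^ p ^ (e + e')) (frobPow p e' (Ie A p e))
  have hY : frobPow p e' (frobPow p e K ⊔ Ideal.span {g ^ p ^ e} * Ie A p e) =
      frobPow p (e + e') K ⊔ Ideal.span {g ^ p ^ (e + e')} * frobPow p e' (Ie A p e) := by
    rw [frobPow_sup, frobPow_mul, frobPow_span, frobPow_frobPow, ← pow_mul, ← pow_add]
  have h3 := main1 (p := p) e' hX
    (le_sup_left : frobPow p e K ≤ frobPow p e K ⊔ Ideal.span {g ^ p ^ e} * Ie A p e)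
  rw [hY, frobPow_frobPow] at h3
  have h4 : el (Ie A p (e + e')) ≤
      el (cl (frobPow p (e + e') K) (g ^ p ^ (e + e')) ⊔ frobPow p e' (Ie A p e)) :=
    el_anti ((hX'.cl _).mono le_sup_left) (sup_le (cl_le_Ie (e + e') hg) (frobPow_Ie_le e e'))
  zify at h1 h2 h3 h4
  have h5 : (el (cl (frobPow p e K) (g ^ p ^ e)) : ℤ) - el (Ie A p e) =
      el (frobPow p e K) - el (frobPow p e K ⊔ Ideal.span {g ^ p ^ e} * Ie A p e) := by
    linarith
  rw [h5, mul_sub]
  linarith

lemma main2_aux (e e' : ℕ) {L : Ideal A} (n : ℕ) : ∀ K : Ideal A, Mp K → K ≤ L → el K ≤ n →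
    (el (Ie A p e') : ℤ) * ((el (frobPow p e K) : ℤ) - el (frobPow p e L) -
      el (Ie A p e) * ((el K : ℤ) - el L)) ≤
      (el (frobPow p (e + e') K) : ℤ) - el (frobPow p (e + e') L) -
      el (Ie A p (e + e')) * ((el K : ℤ) - el L) := by
  induction n with
  | zero =>
    intro K hK hKL hn
    have h1 : K = L := eq_of_el hK hKL (by omega)
    rw [h1]
    simp
  | succ n ih =>
    intro K hK hKL hn
    by_cases hne : K = L
    · rw [hne]
      simp
    obtain ⟨g, hgL, hgK, hcl⟩ := exists_step hK (lt_of_le_of_ne hKL hne)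
    have h1 := el_add hK g
    rw [hcl, el_max] at h1
    have hK' : Mp (K ⊔ Ideal.span {g}) := hK.mono le_sup_left
    have hK'L : K ⊔ Ideal.span {g} ≤ L :=
      sup_le hKL ((Ideal.span_singleton_le_iff_mem _).2 hgL)
    have h2 := ih _ hK' hK'L (by omega)
    have h3 := el_add (hK.frobPow (p := p) e) (g ^ p ^ e)
    rw [← frobPow_step] at h3
    have h4 := el_add (hK.frobPow (p := p) (e + e')) (g ^ p ^ (e + e'))
    rw [← frobPow_step] at h4
    have h5 := main2_step (p := p) e e' hK hgK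
    rw [h1, h3, h4]
    push_cast
    nlinarith [h2, h5]

theorem main2 (e e' : ℕ) {K L : Ideal A} (hK : Mp K) (hKL : K ≤ L) :
    (el (Ie A p e') : ℤ) * ((el (frobPow p e K) : ℤ) - el (frobPow p e L) -
      el (Ie A p e) * ((el K : ℤ) - el L)) ≤
      (el (frobPow p (e + e') K) : ℤ) - el (frobPow p (e + e') L) -
      el (Ie A p (e + e')) * ((el K : ℤ) - el L) :=
  main2_aux e e' (el K) K hK hKL le_rfl

end Pool.Agent.H56.FS
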