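import Pool.Agent.H56.FS.Defs

/-!
# FS-LEN: colengths

`A` Noetherian local. Everything follows from additivity of `Module.length`
(`Module.length_eq_add_of_exact`) and the two exact sequences
`0 → L/K → A/K → A/L → 0` and `0 → A/(K : g) → A/K → A/(K + (g)) → 0` (multiplication by `g`).

* `length_ne_top`: `A/𝔪^n` has finite length: induction on `n`, `𝔪^n/𝔪^{n+1}` is a finite
  dimensional vector space; or: `A/K` is a Noetherian ring all of whose primes are maximal, so
  Artinian (`isArtinianRing_iff_ringKrullDim_eq_zero`-type lemmas), then `Module.length_ne_top`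
  (artinian and noetherian as `A`-module).
* `exists_step`: `𝔪^n L ≤ K` for some `n`; take the least such `n` (it is `> 0`) and
  `g ∈ 𝔪^{n-1} L`, `g ∉ K`; then `𝔪 g ⊆ K`, so `(K : g) = 𝔪`.
* `el_colon_sup`: `el_add` for `K, G` and for `K ⊔ (G)I, G`, and
  `((K + G I) : G) = (K : G) + I`.
* `el_le_mul`: induction on `q`: `el K = el (K + (z)) + el (K : z)` and `z^{q-1} ∈ (K : z)`,
  `(K : z) + (z) ≥ K + (z)`.
* `exists_mp_dim`: `A/K` is Artinian iff `Mp K` (Noetherian local).
* `el_comap`: `Module.length_eq_of_surjective` and `Ideal.quotientKerEquivOfSurjective`-type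
  isomorphisms.
-/

set_option autoImplicit false

noncomputable section

namespace Pool.Agent.H56.FS

open IsLocalRing Pool.Agent.H34.HK Filter

universe u

section

variable {A : Type u} [CommRing A]

lemma le_cl (K : Ideal A) (g : A) : K ≤ cl K g := fun _ ha => K.mul_mem_left g ha

lemma cl_mono {K L : Ideal A} (h : K ≤ L) (g : A) : cl K g ≤ cl L g := fun _ ha => h ha

lemma cl_cl (K : Ideal A) (g h : A) : cl (cl K g) h = cl K (g * h) := by
  ext a
  simp [mul_assoc]

lemma cl_eq_top {K : Ideal A} {g : A} : cl K g = ⊤ ↔ g ∈ K := by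
  rw [Ideal.eq_top_iff_one]
  simp

lemma el_top : el (⊤ : Ideal A) = 0 := by
  have : Subsingleton (A ⧸ (⊤ : Ideal A)) := Ideal.Quotient.subsingleton_iff.2 rfl
  rw [el, Module.length_eq_zero]
  rfl

/-- colength in a quotient ring -/
lemma el_comap {B : Type u} [CommRing B] (f : A →+* B) (hf : Function.Surjective f)
    (L : Ideal B) : el (L.comap f) = el L := by
  let _ : Algebra A B := f.toAlgebra
  let g : A →ₗ[A] (B ⧸ L) := (L.mkQ.restrictScalars A).comp (Algebra.linearMap A B)
  have hg : ∀ a, g a = Ideal.Quotient.mk L (f a) := fun a => rfl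
  have hsurj : Function.Surjective g := by
    intro x
    obtain ⟨b, rfl⟩ := Ideal.Quotient.mk_surjective x
    obtain ⟨a, rfl⟩ := hf b
    exact ⟨a, rfl⟩
  have hker : LinearMap.ker g = L.comap f := by
    ext a
    rw [LinearMap.mem_ker, hg, Ideal.Quotient.eq_zero_iff_mem]
    exact Ideal.mem_comap.symm
  have h1 : Module.length A (A ⧸ L.comap f) = Module.length A (B ⧸ L) := by
    rw [← hker]
    exact (g.quotKerEquivOfSurjective hsurj).length_eq
  have h2 : Module.length A (B ⧸ L) = Module.length B (B ⧸ L) :=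
    Module.length_eq_of_surjective hf
  rw [el, el, h1, h2]

lemma el_map {B : Type u} [CommRing B] (f : A →+* B) (hf : Function.Surjective f)
    (K : Ideal A) : el (K.map f) = el (K ⊔ RingHom.ker f) := by
  rw [← el_comap f hf, Ideal.comap_map_of_surjective f hf]
  rfl

end

variable {A : Type u} [CommRing A] [IsLocalRing A]

lemma Mp.mono {K L : Ideal A} (h : Mp K) (hKL : K ≤ L) : Mp L := by
  obtain ⟨n, hn⟩ := h
  exact ⟨n, hn.trans hKL⟩

lemma Mp.top : Mp (⊤ : Ideal A) := ⟨0, le_top⟩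

lemma Mp.max : Mp (maximalIdeal A) := ⟨1, (pow_one _).le⟩

lemma Mp.pow (n : ℕ) : Mp (maximalIdeal A ^ n) := ⟨n, le_rfl⟩

lemma Mp.cl {K : Ideal A} (h : Mp K) (g : A) : Mp (cl K g) := h.mono (le_cl K g)

lemma el_max : el (maximalIdeal A) = 1 := by
  have : IsSimpleModule A (A ⧸ maximalIdeal A) :=
    isSimpleModule_iff_isCoatom.2 (maximalIdeal.isMaximal A).out
  rw [el, Module.length_eq_one]
  rfl

variable [IsNoetherianRing A]

lemma isArtinianRing_of_mp {K : Ideal A} (h : Mp K) : IsArtinianRing (A ⧸ K) := by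
  by_cases hK : K = ⊤
  · have : Subsingleton (A ⧸ K) := Ideal.Quotient.subsingleton_iff.2 hK
    infer_instance
  · have : Nontrivial (A ⧸ K) := Ideal.Quotient.nontrivial_iff.2 hK
    have hs : Function.Surjective (Ideal.Quotient.mk K) := Ideal.Quotient.mk_surjective
    have : IsLocalRing (A ⧸ K) := IsLocalRing.of_surjective' _ hs
    rw [isArtinianRing_iff_isNilpotent_maximalIdeal]
    obtain ⟨n, hn⟩ := h
    refine ⟨n, ?_⟩
    have : IsLocalHom (Ideal.Quotient.mk K) := hs.isLocalHom
    rw [← IsLocalRing.map_maximalIdeal_of_surjective (Ideal.Quotient.mk K) hs, ← Ideal.map_pow,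
      Ideal.zero_eq_bot, Ideal.map_eq_bot_iff_le_ker, Ideal.mk_ker]
    exact hn

lemma length_ne_top {K : Ideal A} (h : Mp K) : Module.length A (A ⧸ K) ≠ ⊤ := by
  have := isArtinianRing_of_mp h
  have h2 : Module.length A (A ⧸ K) = Module.length (A ⧸ K) (A ⧸ K) :=
    Module.length_eq_of_surjective (Ideal.Quotient.mk_surjective)
  rw [h2]
  exact Module.length_ne_top

lemma el_eq_zero {K : Ideal A} (h : Mp K) : el K = 0 ↔ K = ⊤ := by
  rw [el, ENat.toNat_eq_zero, or_iff_left (length_ne_top h), Module.length_eq_zero_iff,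
    Ideal.Quotient.subsingleton_iff]

lemma el_add {K : Ideal A} (h : Mp K) (g : A) :
    el K = el (K ⊔ Ideal.span {g}) + el (cl K g) := by
  let f₁ : (A ⧸ cl K g) →ₗ[A] (A ⧸ K) := Submodule.mapQ (cl K g) K (LinearMap.mulLeft A g)
    (fun a ha => ha)
  let f₂ : (A ⧸ K) →ₗ[A] (A ⧸ (K ⊔ Ideal.span {g})) :=
    Submodule.mapQ K (K ⊔ Ideal.span {g}) LinearMap.id (fun a ha => Ideal.mem_sup_left ha)
  have hf₁ : ∀ a, f₁ (Submodule.Quotient.mk a) = Submodule.Quotient.mk (g * a) := fun a => rfl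
  have hf₂ : ∀ a, f₂ (Submodule.Quotient.mk a) = Submodule.Quotient.mk a := fun a => rfl
  have hinj : Function.Injective f₁ := by
    rw [← LinearMap.ker_eq_bot, Submodule.eq_bot_iff]
    intro x hx
    obtain ⟨a, rfl⟩ := Submodule.Quotient.mk_surjective _ x
    rw [LinearMap.mem_ker, hf₁, Submodule.Quotient.mk_eq_zero] at hx
    rw [Submodule.Quotient.mk_eq_zero]
    exact hx
  have hsurj : Function.Surjective f₂ := by
    intro x
    obtain ⟨a, rfl⟩ := Submodule.Quotient.mk_surjective _ x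
    exact ⟨Submodule.Quotient.mk a, rfl⟩
  have hex : Function.Exact f₁ f₂ := by
    intro x
    obtain ⟨a, rfl⟩ := Submodule.Quotient.mk_surjective _ x
    rw [hf₂, Submodule.Quotient.mk_eq_zero]
    constructor
    · intro ha
      obtain ⟨k, hk, y, hy, rfl⟩ := Submodule.mem_sup.1 ha
      obtain ⟨c, rfl⟩ := Ideal.mem_span_singleton'.1 hy
      refine ⟨Submodule.Quotient.mk c, ?_⟩
      rw [hf₁, Submodule.Quotient.eq]
      have : g * c - (k + c * g) = - k := by ring
      rw [this]
      exact K.neg_mem hk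
    · rintro ⟨y, hy⟩
      obtain ⟨c, rfl⟩ := Submodule.Quotient.mk_surjective _ y
      rw [hf₁, Submodule.Quotient.eq] at hy
      have : a = g * c - (g * c - a) := by ring
      rw [this]
      exact Ideal.sub_mem _
        (Ideal.mem_sup_right (Ideal.mul_mem_right _ _ (Ideal.mem_span_singleton_self g)))
        (Ideal.mem_sup_left hy)
  have h1 := Module.length_eq_add_of_exact f₁ f₂ hinj hsurj hex
  have h2 : Module.length A (A ⧸ cl K g) ≠ ⊤ := length_ne_top (h.cl g)
  have h3 : Module.length A (A ⧸ (K ⊔ Ideal.span {g})) ≠ ⊤ := length_ne_top (h.mono le_sup_left)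
  rw [el, h1, ENat.toNat_add h2 h3, add_comm]
  rfl

lemma el_anti {K L : Ideal A} (h : Mp K) (hKL : K ≤ L) : el L ≤ el K := by
  let f₂ : (A ⧸ K) →ₗ[A] (A ⧸ L) := Submodule.mapQ K L LinearMap.id (fun a ha => hKL ha)
  have hsurj : Function.Surjective f₂ := by
    intro x
    obtain ⟨a, rfl⟩ := Submodule.Quotient.mk_surjective _ x
    exact ⟨Submodule.Quotient.mk a, rfl⟩
  exact ENat.toNat_le_toNat (Module.length_le_of_surjective f₂ hsurj) (length_ne_top h)

lemma el_lt {K L : Ideal A} (h : Mp K) (hKL : K < L) : el L < el K := by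
  obtain ⟨g, hgL, hgK⟩ := SetLike.exists_of_lt hKL
  have h1 := el_add h g
  have h2 : el (cl K g) ≠ 0 := fun h0 => by
    rw [el_eq_zero (h.cl g), cl_eq_top] at h0
    exact hgK h0
  have h3 : el L ≤ el (K ⊔ Ideal.span {g}) := el_anti (h.mono le_sup_left)
    (sup_le hKL.le ((Ideal.span_singleton_le_iff_mem _).2 hgL))
  omega

lemma eq_of_el {K L : Ideal A} (h : Mp K) (hKL : K ≤ L) (he : el K ≤ el L) : K = L := by
  by_contra hne
  exact absurd (el_lt h (lt_of_le_of_ne hKL hne)) (not_lt.2 he)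

lemma exists_step {K L : Ideal A} (h : Mp K) (hKL : K < L) :
    ∃ g ∈ L, g ∉ K ∧ cl K g = maximalIdeal A := by
  classical
  have hex : ∃ n, maximalIdeal A ^ n * L ≤ K := by
    obtain ⟨n, hn⟩ := h
    exact ⟨n, (Ideal.mul_le_left).trans hn⟩
  have hspec := Nat.find_spec hex
  have hmin : ∀ m < Nat.find hex, ¬ maximalIdeal A ^ m * L ≤ K := fun m hm => Nat.find_min hex hm
  set n := Nat.find hex
  have hn : n ≠ 0 := by
    intro h0
    rw [h0, pow_zero, one_mul] at hspec
    exact absurd hKL (not_lt_of_ge hspec)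
  obtain ⟨m, hm⟩ := Nat.exists_eq_succ_of_ne_zero hn
  have h1 := hmin m (by omega)
  obtain ⟨g, hg, hgK⟩ := SetLike.not_le_iff_exists.1 h1
  refine ⟨g, Ideal.mul_le_right hg, hgK, le_antisymm ?_ ?_⟩
  · refine IsLocalRing.le_maximalIdeal fun h2 => hgK ?_
    rwa [cl_eq_top] at h2
  · intro r hr
    rw [mem_cl, mul_comm]
    apply hspec
    rw [hm, Nat.succ_eq_add_one, pow_succ', mul_assoc]
    exact Ideal.mul_mem_mul hr hg

lemma el_colon_sup {K : Ideal A} (h : Mp K) (G : A) (I : Ideal A) :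
    el (cl K G) + el (K ⊔ Ideal.span {G} * I) = el (cl K G ⊔ I) + el K := by
  have h1 := el_add h G
  have hM : Mp (K ⊔ Ideal.span {G} * I) := h.mono le_sup_left
  have h2 := el_add hM G
  have h3 : K ⊔ Ideal.span {G} * I ⊔ Ideal.span {G} = K ⊔ Ideal.span {G} := by
    rw [sup_assoc]
    congr 1
    exact sup_eq_right.2 Ideal.mul_le_left
  have h4 : cl (K ⊔ Ideal.span {G} * I) G = cl K G ⊔ I := by
    ext a
    rw [mem_cl]
    constructor
    · intro ha
      obtain ⟨k, hk, y, hy, hky⟩ := Submodule.mem_sup.1 ha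
      obtain ⟨i, hi, rfl⟩ := Ideal.mem_span_singleton_mul.1 hy
      have h5 : a - i ∈ cl K G := by
        rw [mem_cl, mul_sub, ← hky]
        have : k + G * i - G * i = k := by ring
        rwa [this]
      have h6 : a = (a - i) + i := by ring
      rw [h6]
      exact Submodule.add_mem_sup h5 hi
    · intro ha
      obtain ⟨k, hk, i, hi, rfl⟩ := Submodule.mem_sup.1 ha
      rw [mul_add]
      exact Submodule.add_mem_sup hk (Ideal.mem_span_singleton_mul.2 ⟨i, hi, rfl⟩)
  rw [h3, h4] at h2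
  omega

lemma el_le_mul {K : Ideal A} (h : Mp K) {z : A} {q : ℕ} (hz : z ^ q ∈ K) :
    el K ≤ q * el (K ⊔ Ideal.span {z}) := by
  induction q generalizing K with
  | zero =>
    rw [pow_zero] at hz
    rw [(Ideal.eq_top_iff_one K).2 hz, el_top]
    exact Nat.zero_le _
  | succ q ih =>
    have h1 := el_add h z
    have h2 : z ^ q ∈ cl K z := by
      rw [mem_cl, ← pow_succ']
      exact hz
    have h3 := ih (h.cl z) h2
    have h4 : el (cl K z ⊔ Ideal.span {z}) ≤ el (K ⊔ Ideal.span {z}) :=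
      el_anti (h.mono le_sup_left) (sup_le_sup_right (le_cl K z) _)
    have h5 : q * el (cl K z ⊔ Ideal.span {z}) ≤ q * el (K ⊔ Ideal.span {z}) :=
      Nat.mul_le_mul_left _ h4
    have h6 : (q + 1) * el (K ⊔ Ideal.span {z}) =
      q * el (K ⊔ Ideal.span {z}) + el (K ⊔ Ideal.span {z}) := by ring
    omega

lemma mp_iff_isArtinianRing {K : Ideal A} : Mp K ↔ IsArtinianRing (A ⧸ K) := by
  refine ⟨isArtinianRing_of_mp, fun h => ?_⟩
  by_cases hK : K = ⊤
  · rw [hK]
    exact Mp.top
  · have : Nontrivial (A ⧸ K) := Ideal.Quotient.nontrivial_iff.2 hK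
    have hs : Function.Surjective (Ideal.Quotient.mk K) := Ideal.Quotient.mk_surjective
    have : IsLocalRing (A ⧸ K) := IsLocalRing.of_surjective' _ hs
    rw [isArtinianRing_iff_isNilpotent_maximalIdeal] at h
    obtain ⟨n, hn⟩ := h
    refine ⟨n, ?_⟩
    have : IsLocalHom (Ideal.Quotient.mk K) := hs.isLocalHom
    rw [← IsLocalRing.map_maximalIdeal_of_surjective (Ideal.Quotient.mk K) hs, ← Ideal.map_pow,
      Ideal.zero_eq_bot, Ideal.map_eq_bot_iff_le_ker, Ideal.mk_ker] at hn
    exact hn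

end Pool.Agent.H56.FS
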