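import Pool.Agent.H56.FS.Len

/-!
# FS-MULT: Hilbert-Samuel multiplicities

* `stolz`: put `r k = g k - c k^d / d!`, so `r k = o(k^d)`; then `∑_{k ≤ n} r k = o(∑_{k≤n} k^d)`
  (`Asymptotics.IsLittleO.sum_range`) and `∑_{k≤n} k^d ~ n^{d+1}/(d+1)` (bounds
  `n^{d+1}/(d+1) ≤ ∑_{k≤n} k^d ≤ n^{d+1}/(d+1) + n^d`, induction on `n` with Bernoulli type inequalities, or
  an integral comparison, or replace `k^d` by `d! (k+d choose d)` and use the hockey stick identity).
  `f n = f n₀ + ∑_{n₀ < k ≤ n} g k`.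
* `mult_step`: for `n ≥ n₀`: `el (𝔪_A^{n+1}) = el (𝔪_A^{n+1} + (z)) + el (𝔪_A^n)` (`el_add`) and
  `el (𝔪_A^{n+1} + (z)) = el (𝔪_B^{n+1})` (`el_map`).
* `mult_zero`: `𝔪^n = ⊥` for large `n`.
* `mult_unique`: uniqueness of limits.
-/

set_option autoImplicit false

noncomputable section

namespace Pool.Agent.H56.FS

open IsLocalRing Pool.Agent.H34.HK Filter

universe u

/-- `((i+1)^{d+1} - i^{d+1}) / (i+1)^d → d + 1` -/
lemma tendsto_pow_diff (d : ℕ) :
    Tendsto (fun i : ℕ => (((i : ℝ) + 1) ^ (d + 1) - (i : ℝ) ^ (d + 1)) / ((i : ℝ) + 1) ^ d) atTop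
      (nhds ((d : ℝ) + 1)) := by
  have hx : Tendsto (fun i : ℕ => (i : ℝ) / ((i : ℝ) + 1)) atTop (nhds 1) :=
    tendsto_natCast_div_add_atTop (1 : ℝ)
  have hs : Tendsto (fun i : ℕ => ∑ j ∈ Finset.range (d + 1), ((i : ℝ) / ((i : ℝ) + 1)) ^ j) atTop
      (nhds (∑ _j ∈ Finset.range (d + 1), (1 : ℝ))) := by
    refine tendsto_finsetSum _ fun j _ => ?_
    simpa using hx.pow j
  have h1 : (∑ _j ∈ Finset.range (d + 1), (1 : ℝ)) = (d : ℝ) + 1 := by simp
  rw [h1] at hs
  refine hs.congr fun i => ?_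
  have hi : (i : ℝ) + 1 ≠ 0 := by positivity
  have hg := mul_neg_geom_sum ((i : ℝ) / ((i : ℝ) + 1)) (d + 1)
  have h2 : 1 - (i : ℝ) / ((i : ℝ) + 1) = 1 / ((i : ℝ) + 1) := by
    field_simp
    ring
  rw [h2] at hg
  have h3 : ∑ j ∈ Finset.range (d + 1), ((i : ℝ) / ((i : ℝ) + 1)) ^ j =
      ((i : ℝ) + 1) * (1 - ((i : ℝ) / ((i : ℝ) + 1)) ^ (d + 1)) := by
    rw [← hg]
    field_simp
  rw [h3, div_pow]
  field_simp
  ring

theorem stolz (d : ℕ) (c : ℝ) (f g : ℕ → ℝ) (n₀ : ℕ) (hfg : ∀ n ≥ n₀, f (n + 1) = f n + g (n + 1))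
    (hg : Tendsto (fun n : ℕ => (d.factorial : ℝ) * g n / (n : ℝ) ^ d) atTop (nhds c)) :
    Tendsto (fun n : ℕ => ((d + 1).factorial : ℝ) * f n / (n : ℝ) ^ (d + 1)) atTop (nhds c) := by
  have hd0 : (d.factorial : ℝ) ≠ 0 := by exact_mod_cast d.factorial_ne_zero
  have hd1 : ((d + 1).factorial : ℝ) ≠ 0 := by exact_mod_cast (d + 1).factorial_ne_zero
  have hfac : ((d + 1).factorial : ℝ) = ((d : ℝ) + 1) * d.factorial := by
    rw [Nat.factorial_succ]
    push_cast
    ring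
  -- the remainder
  let F : ℕ → ℝ := fun n => f n - c * (n : ℝ) ^ (d + 1) / (d + 1).factorial
  let h : ℕ → ℝ := fun i => F (i + 1) - F i
  have hh : (fun i => h i) =o[atTop] fun i : ℕ => ((i : ℝ) + 1) ^ d := by
    have hpos : ∀ᶠ i : ℕ in atTop, ((i : ℝ) + 1) ^ d = 0 → h i = 0 := by
      refine Eventually.of_forall fun i hi => ?_
      exact absurd hi (by positivity)
    rw [Asymptotics.isLittleO_iff_tendsto' hpos]
    have hg1 : Tendsto (fun i : ℕ => (d.factorial : ℝ) * g (i + 1) / ((i : ℝ) + 1) ^ d) atTop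
        (nhds c) := by
      have := hg.comp (tendsto_add_atTop_nat 1)
      refine this.congr fun i => ?_
      simp
    have hlim := (hg1.div_const (d.factorial : ℝ)).sub
      ((tendsto_pow_diff d).mul_const (c / (d + 1).factorial))
    have h0 : c / (d.factorial : ℝ) - ((d : ℝ) + 1) * (c / (d + 1).factorial) = 0 := by
      rw [hfac]
      have hd2 : (d : ℝ) + 1 ≠ 0 := by positivity
      field_simp
      ring
    rw [h0] at hlim
    refine hlim.congr' ?_
    filter_upwards [eventually_ge_atTop n₀] with i hi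
    have hi1 : ((i : ℝ) + 1) ^ d ≠ 0 := by positivity
    simp only [h, F, hfg i hi]
    push_cast
    field_simp
    ring
  have hsum : Tendsto (fun n : ℕ => ∑ i ∈ Finset.range n, ((i : ℝ) + 1) ^ d) atTop atTop := by
    refine tendsto_atTop_mono (fun n => ?_) (tendsto_natCast_atTop_atTop (R := ℝ))
    calc (n : ℝ) = ∑ _i ∈ Finset.range n, (1 : ℝ) := by simp
      _ ≤ _ := Finset.sum_le_sum fun i _ => one_le_pow₀ (by
          have : (0 : ℝ) ≤ i := Nat.cast_nonneg i
          linarith)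
  have hS := hh.sum_range (fun i => by positivity) hsum
  have hB : (fun n : ℕ => ∑ i ∈ Finset.range n, ((i : ℝ) + 1) ^ d) =O[atTop]
      fun n : ℕ => (n : ℝ) ^ (d + 1) := by
    refine Asymptotics.IsBigO.of_bound 1 (Eventually.of_forall fun n => ?_)
    rw [one_mul, Real.norm_of_nonneg (Finset.sum_nonneg fun i _ => by positivity),
      Real.norm_of_nonneg (by positivity)]
    calc ∑ i ∈ Finset.range n, ((i : ℝ) + 1) ^ d ≤ ∑ _i ∈ Finset.range n, (n : ℝ) ^ d := by
          refine Finset.sum_le_sum fun i hi => ?_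
          refine pow_le_pow_left₀ (by positivity) ?_ d
          have : i + 1 ≤ n := Finset.mem_range.1 hi
          exact_mod_cast this
      _ = (n : ℝ) ^ (d + 1) := by
          rw [Finset.sum_const, Finset.card_range, nsmul_eq_mul, pow_succ]
          ring
  have hS2 : (fun n : ℕ => F n - F 0) =o[atTop] fun n : ℕ => (n : ℝ) ^ (d + 1) := by
    refine (hS.trans_isBigO hB).congr_left fun n => ?_
    exact Finset.sum_range_sub F n
  have hn1 : Tendsto (fun n : ℕ => (n : ℝ) ^ (d + 1)) atTop atTop :=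
    (tendsto_pow_atTop (Nat.succ_ne_zero d)).comp tendsto_natCast_atTop_atTop
  have hc0 : (fun _ : ℕ => F 0) =o[atTop] fun n : ℕ => (n : ℝ) ^ (d + 1) :=
    Asymptotics.isLittleO_const_left.2 (Or.inr (tendsto_norm_atTop_atTop.comp hn1))
  have hF : (fun n : ℕ => F n) =o[atTop] fun n : ℕ => (n : ℝ) ^ (d + 1) := by
    refine (hS2.add hc0).congr_left fun n => ?_
    ring
  have hFt : Tendsto (fun n : ℕ => F n / (n : ℝ) ^ (d + 1)) atTop (nhds 0) :=
    hF.tendsto_div_nhds_zero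
  have hfin := (hFt.const_mul ((d + 1).factorial : ℝ)).add_const c
  rw [mul_zero, zero_add] at hfin
  refine hfin.congr' ?_
  filter_upwards [eventually_gt_atTop 0] with n hn
  have hn0 : (n : ℝ) ≠ 0 := by
    have : 0 < (n : ℝ) := by exact_mod_cast hn
    exact this.ne'
  simp only [F]
  field_simp
  ring

variable {A : Type u} [CommRing A] [IsLocalRing A]

theorem mult_unique {d : ℕ} {c c' : ℝ} (h : IsMultiplicity A d c) (h' : IsMultiplicity A d c') :
    c = c' := tendsto_nhds_unique h h'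

variable [IsNoetherianRing A]

theorem mult_zero (h : Mp (⊥ : Ideal A)) : IsMultiplicity A 0 (el (⊥ : Ideal A)) := by
  obtain ⟨N, hN⟩ := h
  have hev : ∀ᶠ n : ℕ in atTop, ((el (⊥ : Ideal A) : ℕ) : ℝ) = (Nat.factorial 0 : ℝ) *
      ((Module.length A (A ⧸ maximalIdeal A ^ n)).toNat : ℝ) / (n : ℝ) ^ 0 := by
    filter_upwards [eventually_ge_atTop N] with n hn
    have h0 : maximalIdeal A ^ n = ⊥ := le_bot_iff.1 ((Ideal.pow_le_pow_right hn).trans hN)
    rw [h0]
    simp [el]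
  exact tendsto_const_nhds.congr' hev

theorem mult_step {z : A} (hzm : z ∈ maximalIdeal A)
    (hcl : ∃ n₀, ∀ n ≥ n₀, cl (maximalIdeal A ^ (n + 1)) z = maximalIdeal A ^ n)
    {B : Type u} [CommRing B] [IsLocalRing B] (f : A →+* B) (hf : Function.Surjective f)
    (hk : RingHom.ker f = Ideal.span {z}) {d : ℕ} {c : ℝ} (hB : IsMultiplicity B d c) :
    IsMultiplicity A (d + 1) c := by
  obtain ⟨n₀, hn₀⟩ := hcl
  refine stolz d c (fun n => (el (maximalIdeal A ^ n) : ℝ)) (fun n => (el (maximalIdeal B ^ n) : ℝ))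
    n₀ (fun n hn => ?_) hB
  have h1 := el_add (Mp.pow (A := A) (n + 1)) z
  have h2 := el_map f hf (maximalIdeal A ^ (n + 1))
  rw [hk, Ideal.map_pow, map_maximalIdeal_of_surjective f hf] at h2
  rw [hn₀ n hn, ← h2] at h1
  show ((el (maximalIdeal A ^ (n + 1)) : ℕ) : ℝ) =
    (el (maximalIdeal A ^ n) : ℝ) + (el (maximalIdeal B ^ (n + 1)) : ℝ)
  rw [h1]
  push_cast
  ring

end Pool.Agent.H56.FS
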