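import Pool.Agent.H56.FS.GorQ

/-!
# FS-POLY: the extension `A(T)`

`A' = AT A` is the localization of `A[X]` at the prime ideal `𝔪[X]`; `ι : A → A'`.

* `exists_coeff`: `g ∉ 𝔪[X]` iff some coefficient of `g` is a unit (`Ideal.mem_map_C_iff`).
* `mem_map_iff`: `f/g ∈ K A'` iff `h f ∈ K[X]` for some `h ∉ 𝔪[X]`
  (`IsLocalization.mem_map_algebraMap_iff`), `K[X]` = polynomials with coefficients in `K`.
* `maxAT`: `maximalIdeal A' = (𝔪[X]) A'` (`Localization.AtPrime.map_eq_maximalIdeal`).
* `infRes_AT`: `u i = ι-image of X^i`; `X^i - X^j ∉ 𝔪[X]`.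
* `comap_map_AT`: if `ι x ∈ K A'`, then `h · C x ∈ K[X]`, and `h` has a unit coefficient.
* `el_map_AT`: by induction on `el K`: if `K = ⊤` trivial; otherwise `exists_step` with `L = ⊤`: `g ∉ K` with
  `(K : g) = 𝔪`. Then `(K A' : ι g) = 𝔪'`: it contains `𝔪 A' = 𝔪'`, and it is not `⊤` by `comap_map_AT`.
  `el_add` for `A` and `A'`.
* `nzd_map_AT`: `ι x · (f/g) ∈ K A'` gives `h x f ∈ K[X]`, so coefficientwise `h f ∈ K[X]`.
* `regSeq_map_AT`: induction.
* `soc_map_AT`: if `𝔪' a ⊆ K A'`, `a = f/g`, `𝔪 = (m_1..m_r)`: `h_i m_i f ∈ K[X]`, `h = ∏ h_i`, so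
  all coefficients of `h f` are in `(K : 𝔪) = K + (c)`.
* `gor_AT`: `dim_of_mp`, `mp_of_regSeq`.
-/

set_option autoImplicit false

noncomputable section

namespace Pool.Agent.H56.FS

open IsLocalRing Pool.Agent.H34.HK Filter Polynomial

universe u

variable (A : Type u) [CommRing A] [IsLocalRing A]

/-- `𝔪[X]` -/
def mX : Ideal A[X] := (maximalIdeal A).map (C : A →+* A[X])

instance mX_prime : (mX A).IsPrime :=
  Ideal.isPrime_map_C_of_isPrime (P := maximalIdeal A)

/-- `A(T)` -/
abbrev AT : Type u := Localization.AtPrime (mX A)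

/-- the canonical map `A → A(T)` -/
def iota : A →+* AT A := (algebraMap A[X] (AT A)).comp C

instance AT_noeth [IsNoetherianRing A] : IsNoetherianRing (AT A) :=
  IsLocalization.isNoetherianRing (mX A).primeCompl _ inferInstance

variable {A}

lemma mem_mX {f : A[X]} : f ∈ mX A ↔ ∀ i, f.coeff i ∈ maximalIdeal A := Ideal.mem_map_C_iff

lemma exists_unit_coeff {h : A[X]} (hh : h ∉ mX A) : ∃ i, IsUnit (h.coeff i) := by
  rw [mem_mX, not_forall] at hh
  obtain ⟨i, hi⟩ := hh
  refine ⟨i, ?_⟩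
  by_contra h1
  exact hi ((mem_maximalIdeal _).2 h1)

lemma map_iota (K : Ideal A) :
    K.map (iota A) = (K.map (C : A →+* A[X])).map (algebraMap A[X] (AT A)) := by
  rw [Ideal.map_map]
  rfl

lemma mem_map_AT {K : Ideal A} {f : A[X]} {g : (mX A).primeCompl} :
    IsLocalization.mk' (AT A) f g ∈ K.map (iota A) ↔
      ∃ h : A[X], h ∉ mX A ∧ ∀ i, (h * f).coeff i ∈ K := by
  rw [map_iota, IsLocalization.mk'_mem_map_algebraMap_iff]
  constructor
  · rintro ⟨h, hh, h1⟩
    exact ⟨h, hh, Ideal.mem_map_C_iff.1 h1⟩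
  · rintro ⟨h, hh, h1⟩
    exact ⟨h, hh, Ideal.mem_map_C_iff.2 h1⟩

lemma iota_eq (x : A) : iota A x = IsLocalization.mk' (AT A) (C x) (1 : (mX A).primeCompl) := by
  rw [IsLocalization.mk'_one]
  rfl

lemma iota_mul_mk (x : A) (f : A[X]) (g : (mX A).primeCompl) :
    iota A x * IsLocalization.mk' (AT A) f g = IsLocalization.mk' (AT A) (C x * f) g := by
  rw [iota_eq, ← IsLocalization.mk'_mul, one_mul]

lemma comap_map_AT (K : Ideal A) {x : A} : iota A x ∈ K.map (iota A) ↔ x ∈ K := by
  refine ⟨fun h => ?_, fun h => Ideal.mem_map_of_mem _ h⟩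
  rw [iota_eq, mem_map_AT] at h
  obtain ⟨h, hh, h1⟩ := h
  obtain ⟨i, hi⟩ := exists_unit_coeff hh
  have h2 := h1 i
  rw [coeff_mul_C] at h2
  exact (Ideal.unit_mul_mem_iff_mem K hi).1 h2

lemma iota_injective : Function.Injective (iota A) := by
  rw [injective_iff_map_eq_zero]
  intro x hx
  have h1 : iota A x ∈ (⊥ : Ideal A).map (iota A) := by
    rw [hx]
    exact Ideal.zero_mem _
  exact (comap_map_AT ⊥).1 h1

lemma charP_AT (p : ℕ) [Fact p.Prime] [CharP A p] : CharP (AT A) p :=
  charP_of_injective_ringHom (iota_injective (A := A)) p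

lemma max_AT : maximalIdeal (AT A) = (maximalIdeal A).map (iota A) := by
  rw [map_iota]
  exact (Localization.AtPrime.map_eq_maximalIdeal (I := mX A)).symm

lemma infRes_AT : InfRes (AT A) := by
  refine ⟨fun i => algebraMap A[X] (AT A) (X ^ i), fun i j hij h => ?_⟩
  rw [← map_sub] at h
  rw [IsLocalization.AtPrime.to_map_mem_maximal_iff (AT A) (mX A), mem_mX] at h
  have h1 := h i
  rw [coeff_sub, coeff_X_pow_self, coeff_X_pow, if_neg hij, sub_zero] at h1
  exact (maximalIdeal.isMaximal A).ne_top ((Ideal.eq_top_iff_one _).2 h1)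

lemma mp_map_AT {K : Ideal A} (h : Mp K) : Mp (K.map (iota A)) := by
  obtain ⟨n, hn⟩ := h
  refine ⟨n, ?_⟩
  rw [max_AT, ← Ideal.map_pow]
  exact Ideal.map_mono hn

lemma map_sup_AT (K : Ideal A) (x : A) :
    (K ⊔ Ideal.span {x}).map (iota A) = K.map (iota A) ⊔ Ideal.span {iota A x} := by
  rw [Ideal.map_sup, Ideal.map_span, Set.image_singleton]

lemma el_map_AT [IsNoetherianRing A] {K : Ideal A} (h : Mp K) : el (K.map (iota A)) = el K := by
  induction hn : el K using Nat.strong_induction_on generalizing K with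
  | _ n ih =>
    by_cases hK : K = ⊤
    · subst hK
      rw [Ideal.map_top, el_top, ← hn, el_top]
    · obtain ⟨g, -, hg, hgm⟩ := exists_step h (lt_of_le_of_ne le_top hK)
      have h1 := el_add h g
      rw [hgm, el_max] at h1
      have h2 := el_add (mp_map_AT h) (iota A g)
      have h3 : cl (K.map (iota A)) (iota A g) = maximalIdeal (AT A) := by
        apply le_antisymm
        · apply IsLocalRing.le_maximalIdeal
          intro h4
          rw [cl_eq_top, comap_map_AT] at h4
          exact hg h4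
        · rw [max_AT, Ideal.map_le_iff_le_comap]
          intro r hr
          rw [Ideal.mem_comap, mem_cl, ← map_mul, comap_map_AT, ← mem_cl, hgm]
          exact hr
      rw [h3, el_max, ← map_sup_AT] at h2
      have h5 := ih (el (K ⊔ Ideal.span {g})) (by omega) (h.mono le_sup_left) rfl
      omega

lemma nzd_map_AT {K : Ideal A} {x : A} (h : Nzd K x) : Nzd (K.map (iota A)) (iota A x) := by
  intro b hb
  obtain ⟨f, g, rfl⟩ := IsLocalization.exists_mk'_eq (mX A).primeCompl b
  rw [iota_mul_mk, mem_map_AT] at hb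
  obtain ⟨k, hk, hb⟩ := hb
  rw [mem_map_AT]
  refine ⟨k, hk, fun i => h _ ?_⟩
  have h2 := hb i
  rwa [mul_left_comm, coeff_C_mul] at h2

lemma regSeq_map_AT {K : Ideal A} {xs : List A} (h : RegSeq K xs) :
    RegSeq (K.map (iota A)) (xs.map (iota A)) := by
  induction xs generalizing K with
  | nil => exact trivial
  | cons x xs ih =>
    obtain ⟨hx, hn, hr⟩ := h
    rw [List.map_cons, regSeq_cons, ← map_sup_AT]
    refine ⟨?_, nzd_map_AT hn, ih hr⟩
    rw [max_AT]
    exact Ideal.mem_map_of_mem _ hx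

lemma common_factor {K : Ideal A} {f : A[X]} (s : Finset A)
    (hs : ∀ m ∈ s, ∃ h : A[X], h ∉ mX A ∧ ∀ i, (h * (C m * f)).coeff i ∈ K) :
    ∃ h : A[X], h ∉ mX A ∧ ∀ m ∈ s, ∀ i, m * (h * f).coeff i ∈ K := by
  classical
  induction s using Finset.induction_on with
  | empty =>
    refine ⟨1, ?_, by simp⟩
    intro h
    exact (mX_prime A).ne_top ((Ideal.eq_top_iff_one _).2 h)
  | insert a s ha ih =>
    obtain ⟨h, hh, h1⟩ := ih (fun m hm => hs m (Finset.mem_insert_of_mem hm))
    obtain ⟨k, hk, h2⟩ := hs a (Finset.mem_insert_self _ _)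
    refine ⟨h * k, fun h3 => ?_, ?_⟩
    · rcases (mX_prime A).mem_or_mem h3 with h4 | h4
      · exact hh h4
      · exact hk h4
    · intro m hm i
      rw [Finset.mem_insert] at hm
      rcases hm with rfl | hm
      · have h4 : h * (k * (C m * f)) ∈ K.map (C : A →+* A[X]) :=
          Ideal.mul_mem_left _ _ (Ideal.mem_map_C_iff.2 h2)
        have h5 := Ideal.mem_map_C_iff.1 h4 i
        have h6 : h * (k * (C m * f)) = C m * (h * k * f) := by ring
        rwa [h6, coeff_C_mul] at h5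
      · have h4 : k * (C m * (h * f)) ∈ K.map (C : A →+* A[X]) := by
          apply Ideal.mul_mem_left
          rw [Ideal.mem_map_C_iff]
          intro j
          rw [coeff_C_mul]
          exact h1 m hm j
        have h5 := Ideal.mem_map_C_iff.1 h4 i
        have h6 : k * (C m * (h * f)) = C m * (h * k * f) := by ring
        rwa [h6, coeff_C_mul] at h5

lemma soc_map_AT [IsNoetherianRing A] {K : Ideal A} (h : Soc K) : Soc (K.map (iota A)) := by
  obtain ⟨c, hc, h⟩ := h
  refine ⟨iota A c, fun h1 => hc ((comap_map_AT K).1 h1), fun b => ?_⟩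
  rw [← map_sup_AT]
  constructor
  · intro hb
    obtain ⟨f, g, rfl⟩ := IsLocalization.exists_mk'_eq (mX A).primeCompl b
    obtain ⟨s, hs⟩ := (isNoetherianRing_iff_ideal_fg A).1 inferInstance (maximalIdeal A)
    have h1 : ∀ m ∈ s, ∃ h : A[X], h ∉ mX A ∧ ∀ i, (h * (C m * f)).coeff i ∈ K := by
      intro m hm
      have h2 := hb (iota A m) (by
        rw [max_AT]
        exact Ideal.mem_map_of_mem _ (hs ▸ Ideal.subset_span hm))
      rwa [iota_mul_mk, mem_map_AT] at h2
    obtain ⟨k, hk, h2⟩ := common_factor s h1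
    rw [mem_map_AT]
    refine ⟨k, hk, fun i => ?_⟩
    rw [← h]
    intro r hr
    have h3 : maximalIdeal A ≤ cl K ((k * f).coeff i) := by
      rw [← hs, Ideal.span_le]
      intro m hm
      show (k * f).coeff i * m ∈ K
      rw [mul_comm]
      exact h2 m hm i
    have h4 := h3 hr
    rw [mem_cl] at h4
    rwa [mul_comm]
  · intro hb r hr
    rw [max_AT] at hr
    have h1 : maximalIdeal A * (K ⊔ Ideal.span {c}) ≤ K := by
      rw [Ideal.mul_le]
      intro r hr s hs
      exact (h s).2 hs r hr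
    have h2 := Ideal.mul_mem_mul hr hb
    rw [← Ideal.map_mul] at h2
    exact Ideal.map_mono h1 h2

theorem gor_AT [IsNoetherianRing A] {d : ℕ} (h : Gor A d) : Gor (AT A) d := by
  obtain ⟨hd, xs, hl, hr, hs⟩ := h
  have h1 : RegSeq ⊥ (xs.map (iota A)) := by
    have h2 := regSeq_map_AT hr
    rwa [Ideal.map_bot] at h2
  have h2 : Soc (Ideal.ofList (xs.map (iota A))) := by
    have h3 := soc_map_AT hs
    rwa [Ideal.map_ofList] at h3
  refine ⟨?_, xs.map (iota A), by rw [List.length_map, hl], h1, h2⟩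
  have h3 := mp_map_AT (mp_of_regSeq hd xs hl hr)
  rw [Ideal.map_ofList] at h3
  rw [dim_of_mp _ h1 h3, List.length_map, hl]

end Pool.Agent.H56.FS
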