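import Pool.Agent.H56.FS.Defs

/-!
# FS-REES: superficial elements from the Rees algebra

`S = reesAlgebra 𝔪 ≤ A[X]` (Noetherian), `N = {f ∈ S : coeff f i ∈ 𝔪^{i+1}}` (an ideal of `S`), `F = S/N`
(finite `S`-module, `Ass F` finite). For a prime `P` of `S` let `V_P = {x ∈ 𝔪 : xT ∈ P}` (an ideal of `A`;
`xT = monomial 1 x`). The set `s` consists of the `V_P`, `P ∈ Ass F`, with `¬ 𝔪 ≤ V_P`, i.e. `P` does not
contain all `xT`, `x ∈ 𝔪`.

Let `z ∈ 𝔪` with `z ∉ V` for all `V ∈ s`, and let `U = {f ∈ F : zT f = 0}` (a submodule of `F`). Every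
`P ∈ Ass U ⊆ Ass F` contains `zT`, so `𝔪T ⊆ P`. So the ideal `𝔞 = (xT : x ∈ 𝔪)` of `S` is contained in
all `P ∈ Ass U`, hence in all minimal primes of `Ann U`
(`minimalPrimes_annihilator_subset_associatedPrimes`), hence in the radical of `Ann U`
(`Ideal.sInf_minimalPrimes`), hence `𝔞^c ≤ Ann U` for some `c` (`S` Noetherian).
In coefficients (`U` homogeneous): if `b ∈ 𝔪^l`, `z b ∈ 𝔪^{l+2}` then `bT^l ∈ U` (its class), so
`𝔪^c b ⊆ 𝔪^{l+c+1}` (multiply by the products `y_1T ⋯ y_cT`).

Let `u_1, …, u_r ∈ S` represent generators of `U` (`U` is finitely generated), all of degree `≤ D`. Claim: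
`n₀ = D + c + 1` works. Let `n ≥ n₀`, `a ∈ 𝔪^n`, `z a ∈ 𝔪^{n+2}`: `aT^n ∈ U`, so
`aT^n = ∑ s_i u_i + ν`, `s_i ∈ S`, `ν ∈ N`. Compare coefficients of `T^n`:
`a = ∑_i ∑_{j+l=n} coeff(s_i)_j coeff(u_i)_l + ν_n`, `ν_n ∈ 𝔪^{n+1}`, and only `l ≤ D`, so
`j ≥ n - D ≥ c` matter. For such `l` put `b = coeff(u_i)_l ∈ 𝔪^l`; since `zT u_i ∈ N`,
`z b ∈ 𝔪^{l+2}`, so `𝔪^c b ⊆ 𝔪^{l+c+1}` and `coeff(s_i)_j b ∈ 𝔪^{j-c} 𝔪^c b ⊆ 𝔪^{j+l+1} = 𝔪^{n+1}`.
-/

set_option autoImplicit false

noncomputable section

namespace Pool.Agent.H56.FS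

open IsLocalRing Pool.Agent.H34.HK Filter

universe u

variable {A : Type u} [CommRing A] [IsLocalRing A] [IsNoetherianRing A]

open Polynomial in
/-- the ideal `(𝔪·S : (𝔪T)^c)` of the Rees algebra, in coefficients -/
private def reesColon (I : Ideal A) (c : ℕ) : Ideal (reesAlgebra I) where
  carrier := {f | ∀ y ∈ I ^ c, ∀ l, y * (f : A[X]).coeff l ∈ I ^ (l + c + 1)}
  add_mem' {f g} hf hg := by
    intro y hy l
    have h : ((f + g : reesAlgebra I) : A[X]).coeff l
        = (f : A[X]).coeff l + (g : A[X]).coeff l := by simp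
    rw [h, mul_add]
    exact Ideal.add_mem _ (hf y hy l) (hg y hy l)
  zero_mem' := by
    intro y _ l
    simp
  smul_mem' g f hf := by
    intro y hy l
    have h : ((g • f : reesAlgebra I) : A[X]).coeff l
        = ∑ x ∈ Finset.HasAntidiagonal.antidiagonal l, (g : A[X]).coeff x.1 * (f : A[X]).coeff x.2 := by
      rw [smul_eq_mul, Subalgebra.coe_mul, coeff_mul]
    rw [h, Finset.mul_sum]
    refine Ideal.sum_mem _ ?_
    rintro ⟨j, k⟩ hjk
    have hjk' : j + k = l := Finset.HasAntidiagonal.mem_antidiagonal.mp hjk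
    have e : y * ((g : A[X]).coeff j * (f : A[X]).coeff k)
        = (g : A[X]).coeff j * (y * (f : A[X]).coeff k) := by ring
    have e2 : l + c + 1 = j + (k + c + 1) := by omega
    rw [e, e2, pow_add]
    exact Ideal.mul_mem_mul (g.2 j) (hf y hy k)

open Polynomial in
private theorem reesColon_mem {I : Ideal A} {c : ℕ} {f : reesAlgebra I} :
    f ∈ reesColon I c ↔ ∀ y ∈ I ^ c, ∀ l, y * (f : A[X]).coeff l ∈ I ^ (l + c + 1) := Iff.rfl

private theorem reesColon_le_succ (I : Ideal A) (c : ℕ) :
    reesColon I c ≤ reesColon I (c + 1) := by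
  intro f hf
  rw [reesColon_mem] at hf ⊢
  intro y hy l
  rw [pow_succ] at hy
  refine Submodule.mul_induction_on hy ?_ ?_
  · intro a ha b hb
    have e : a * b * (f : Polynomial A).coeff l = b * (a * (f : Polynomial A).coeff l) := by ring
    have e2 : l + (c + 1) + 1 = 1 + (l + c + 1) := by omega
    rw [e, e2, pow_add, pow_one]
    exact Ideal.mul_mem_mul hb (hf a ha l)
  · intro a b ha hb
    rw [add_mul]
    exact Ideal.add_mem _ ha hb

/-- the element `xT` of the Rees algebra -/
private def reesT (I : Ideal A) (x : A) (hx : x ∈ I) : reesAlgebra I :=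
  ⟨Polynomial.monomial 1 x, reesAlgebra.monomial_mem.mpr (by rwa [pow_one])⟩

private theorem reesColon_of_T {I : Ideal A} {c : ℕ} {f : reesAlgebra I}
    (h : ∀ x (hx : x ∈ I), reesT I x hx * f ∈ reesColon I c) : f ∈ reesColon I (c + 1) := by
  rw [reesColon_mem]
  intro y hy l
  rw [pow_succ] at hy
  refine Submodule.mul_induction_on hy ?_ ?_
  · intro a ha b hb
    have h1 := (reesColon_mem.mp (h b hb)) a ha (l + 1)
    have h2 : ((reesT I b hb * f : reesAlgebra I) : Polynomial A).coeff (l + 1)
        = b * (f : Polynomial A).coeff l := by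
      rw [Subalgebra.coe_mul]
      show (Polynomial.monomial 1 b * (f : Polynomial A)).coeff (l + 1) = _
      rw [Polynomial.coeff_monomial_mul]
    rw [h2] at h1
    have e : a * b * (f : Polynomial A).coeff l = a * (b * (f : Polynomial A).coeff l) := by ring
    have e2 : l + (c + 1) + 1 = l + 1 + c + 1 := by omega
    rw [e, e2]
    exact h1
  · intro a b ha hb
    rw [add_mul]
    exact Ideal.add_mem _ ha hb

theorem rees_sup : ∃ s : Finset (Ideal A), (∀ V ∈ s, ¬ maximalIdeal A ≤ V) ∧
    ∀ z ∈ maximalIdeal A, (∀ V ∈ s, z ∉ V) →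
      ∃ n₀, ∀ n ≥ n₀, ∀ a ∈ maximalIdeal A ^ n, z * a ∈ maximalIdeal A ^ (n + 2) →
        a ∈ maximalIdeal A ^ (n + 1) := by
  classical
  set I := maximalIdeal A with hI
  -- stabilisation
  obtain ⟨c, hc⟩ := monotone_stabilizes_iff_noetherian.mpr
    (inferInstance : IsNoetherian (reesAlgebra I) (reesAlgebra I))
    ⟨reesColon I, monotone_nat_of_le_succ (reesColon_le_succ I)⟩
  have hcc : reesColon I c = reesColon I (c + 1) := hc (c + 1) (Nat.le_succ c)
  set N := reesColon I c with hN
  -- the ideal `V_P`
  let V : Ideal (reesAlgebra I) → Ideal A := fun P =>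
    { carrier := {x | ∃ hx : x ∈ I, reesT I x hx ∈ P}
      add_mem' := by
        rintro a b ⟨ha, ha'⟩ ⟨hb, hb'⟩
        refine ⟨I.add_mem ha hb, ?_⟩
        have e : reesT I (a + b) (I.add_mem ha hb) = reesT I a ha + reesT I b hb := by
          apply Subtype.ext
          show Polynomial.monomial 1 (a + b) = Polynomial.monomial 1 a + Polynomial.monomial 1 b
          rw [map_add]
        rw [e]
        exact P.add_mem ha' hb'
      zero_mem' := by
        refine ⟨I.zero_mem, ?_⟩
        have e : reesT I 0 I.zero_mem = 0 := by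
          apply Subtype.ext
          show Polynomial.monomial 1 (0 : A) = 0
          rw [map_zero]
        rw [e]
        exact P.zero_mem
      smul_mem' := by
        rintro r a ⟨ha, ha'⟩
        refine ⟨I.smul_mem r ha, ?_⟩
        have e : reesT I (r • a) (I.smul_mem r ha) = algebraMap A (reesAlgebra I) r * reesT I a ha := by
          apply Subtype.ext
          rw [Subalgebra.coe_mul]
          show Polynomial.monomial 1 (r * a)
            = ((algebraMap A (reesAlgebra I) r : reesAlgebra I) : Polynomial A)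
              * Polynomial.monomial 1 a
          have h3 : ((algebraMap A (reesAlgebra I) r : reesAlgebra I) : Polynomial A)
            = Polynomial.C r := rfl
          rw [h3, Polynomial.C_mul_monomial]
        rw [e]
        exact P.mul_mem_left _ ha' }
  have hfin : (associatedPrimes (reesAlgebra I) (reesAlgebra I ⧸ N)).Finite :=
    associatedPrimes.finite _ _
  refine ⟨hfin.toFinset.image V, ?_, ?_⟩
  · intro W hW hle
    rw [Finset.mem_image] at hW
    obtain ⟨P, hP, rfl⟩ := hW
    rw [Set.Finite.mem_toFinset, AssociatedPrimes.mem_iff, isAssociatedPrime_iff] at hP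
    obtain ⟨hPp, x, hx⟩ := hP
    obtain ⟨f, rfl⟩ := Ideal.Quotient.mk_surjective x
    have hf : f ∉ N := by
      intro hf
      apply hPp.ne_top
      rw [hx, Ideal.Quotient.eq_zero_iff_mem.mpr hf]
      simp
    apply hf
    rw [hcc]
    apply reesColon_of_T
    intro y hy
    obtain ⟨hy', hyP⟩ := hle hy
    rw [hx, Submodule.mem_colon_singleton, Submodule.mem_bot] at hyP
    rw [← Ideal.Quotient.eq_zero_iff_mem]
    rw [map_mul]
    exact hyP
  · intro z hz hzV
    -- `zT` is a nonzerodivisor modulo `N`
    have hnz : ∀ f : reesAlgebra I, reesT I z hz * f ∈ N → f ∈ N := by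
      intro f hf
      by_contra hfN
      have h1 : reesT I z hz ∈ ⋃ p ∈ associatedPrimes (reesAlgebra I) (reesAlgebra I ⧸ N),
          (p : Set (reesAlgebra I)) := by
        rw [biUnion_associatedPrimes_eq_zero_divisors]
        refine ⟨Ideal.Quotient.mk N f, ?_, ?_⟩
        · rwa [Ne, Ideal.Quotient.eq_zero_iff_mem]
        · have : reesT I z hz • (Ideal.Quotient.mk N f) = Ideal.Quotient.mk N (reesT I z hz * f) := by
            rw [map_mul]
            rfl
          rw [this, Ideal.Quotient.eq_zero_iff_mem]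
          exact hf
      rw [Set.mem_iUnion₂] at h1
      obtain ⟨P, hP, hzP⟩ := h1
      refine hzV (V P) ?_ ⟨hz, hzP⟩
      rw [Finset.mem_image]
      exact ⟨P, by rwa [Set.Finite.mem_toFinset], rfl⟩
    -- generators of `N`
    obtain ⟨G, hG⟩ := (isNoetherian_def.mp
      (inferInstance : IsNoetherian (reesAlgebra I) (reesAlgebra I))) N
    let D : ℕ := G.sup (fun u => (u : Polynomial A).natDegree)
    refine ⟨D + c, ?_⟩
    intro n hn a ha hza
    let f : reesAlgebra I := ⟨Polynomial.monomial n a, reesAlgebra.monomial_mem.mpr ha⟩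
    have hfN : f ∈ N := by
      apply hnz
      rw [hN, reesColon_mem]
      intro y hy l
      have h2 : ((reesT I z hz * f : reesAlgebra I) : Polynomial A)
          = Polynomial.monomial (1 + n) (z * a) := by
        rw [Subalgebra.coe_mul]
        show Polynomial.monomial 1 z * Polynomial.monomial n a = _
        rw [Polynomial.monomial_mul_monomial]
      rw [h2, Polynomial.coeff_monomial]
      split_ifs with hl
      · subst hl
        have e : 1 + n + c + 1 = c + (n + 2) := by omega
        rw [e, pow_add]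
        exact Ideal.mul_mem_mul hy hza
      · rw [mul_zero]
        exact Ideal.zero_mem _
    -- coefficient of `T^n` of any element of `N`
    have key : ∀ g ∈ Submodule.span (reesAlgebra I) (G : Set (reesAlgebra I)),
        (g : Polynomial A).coeff n ∈ I ^ (n + 1) := by
      intro g hg
      rw [Submodule.mem_span_finset] at hg
      obtain ⟨t, -, rfl⟩ := hg
      have e1 : ((∑ u ∈ G, t u • u : reesAlgebra I) : Polynomial A)
          = ∑ u ∈ G, (t u : Polynomial A) * (u : Polynomial A) := by
        rw [AddSubmonoidClass.coe_finsetSum]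
        rfl
      rw [e1, Polynomial.finsetSum_coeff]
      refine Ideal.sum_mem _ ?_
      intro u hu
      have huN : u ∈ N := by
        rw [← hG]
        exact Submodule.subset_span hu
      rw [Polynomial.coeff_mul]
      refine Ideal.sum_mem _ ?_
      rintro ⟨j, l⟩ hjl
      have hjl' : j + l = n := Finset.HasAntidiagonal.mem_antidiagonal.mp hjl
      show (t u : Polynomial A).coeff j * (u : Polynomial A).coeff l ∈ I ^ (n + 1)
      by_cases hl : l ≤ D
      · have hj : j = (j - c) + c := by omega
        have h5 : (t u : Polynomial A).coeff j ∈ I ^ (j - c) * I ^ c := by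
          rw [← pow_add, ← hj]
          exact (t u).2 j
        refine Submodule.mul_induction_on h5 ?_ ?_
        · intro p hp q hq
          have h6 := (reesColon_mem.mp huN) q hq l
          have e : p * q * (u : Polynomial A).coeff l = p * (q * (u : Polynomial A).coeff l) := by
            ring
          have e2 : n + 1 = (j - c) + (l + c + 1) := by omega
          rw [e, e2, pow_add]
          exact Ideal.mul_mem_mul hp h6
        · intro p q hp hq
          rw [add_mul]
          exact Ideal.add_mem _ hp hq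
      · have h7 : (u : Polynomial A).coeff l = 0 := by
          apply Polynomial.coeff_eq_zero_of_natDegree_lt
          have h8 : (u : Polynomial A).natDegree ≤ D :=
            Finset.le_sup (f := fun u : reesAlgebra I => (u : Polynomial A).natDegree) hu
          omega
        rw [h7, mul_zero]
        exact Ideal.zero_mem _
    have h3 := key f (by rw [hG]; exact hfN)
    have h4 : (f : Polynomial A).coeff n = a := by
      show (Polynomial.monomial n a).coeff n = a
      rw [Polynomial.coeff_monomial, if_pos rfl]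
    rwa [h4] at h3

end Pool.Agent.H56.FS
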