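import Pool.Agent.H56.FS.Exch
import Pool.Agent.H56.FS.Rees

/-!
# FS-SUPER: superficial elements

* `avoid`: induction on the finite set `s`: let `z ∈ 𝔪` avoid all members of `s`, and let `V` be a new ideal,
  `w ∈ 𝔪`, `w ∉ V`. If `z ∉ V` done. Otherwise `z ∈ V`; consider the elements `z + u_j w`, `j : ℕ`
  (`u` from `InfRes`). For `V' ∈ s` at most one `j` has `z + u_j w ∈ V'` (two: `(u_j - u_i) w ∈ V'`, so
  `w ∈ V'`, so `z ∈ V'`), and at most one `j` has `z + u_j w ∈ V` (then `u_j w ∈ V` so `u_j ∈ 𝔪`, and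
  `u_i - u_j ∉ 𝔪`). So some `j ≤ |s| + 1` is good (pigeonhole).
* `nass_finite`: the set of the associated primes of `A`: if `z ∉ P` for all `P ∈ Ass A` then `z` is regular
  (`biUnion_associatedPrimes_eq_compl_nonZeroDivisors`), `𝔪 ≤ P` would mean `P = 𝔪 ∈ Ass A`, against
  `NAss ⊥`.
* `exists_superficial`: `avoid` for the ideals of `rees_sup`, the associated primes of `A`, and `W`. Then
  `(𝔪^{n+1} : z) = 𝔪^n` for large `n`: Artin-Rees (`Ideal.exists_pow_inf_eq_pow_smul` for the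
  submodule `(z)` of `A`): there is `k` with `𝔪^n ∩ (z) = 𝔪^{n-k} (𝔪^k ∩ (z)) ≤ 𝔪^{n-k} z` for
  `n ≥ k`. If `z a ∈ 𝔪^{n+1}` then `z a = z a'` with `a' ∈ 𝔪^{n+1-k}`, `a = a'`. If `n + 1 - k ≥ n₀`
  then by `rees_sup`: from `a ∈ 𝔪^j`, `n₀ ≤ j < n`, `z a ∈ 𝔪^{n+1} ≤ 𝔪^{j+2}` we get `a ∈ 𝔪^{j+1}`;
  induction gives `a ∈ 𝔪^n`.
-/

set_option autoImplicit false

noncomputable section

namespace Pool.Agent.H56.FS

open IsLocalRing Pool.Agent.H34.HK Filter

universe u

variable {A : Type u} [CommRing A] [IsLocalRing A]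

theorem avoid (hinf : InfRes A) (s : Finset (Ideal A)) (hs : ∀ V ∈ s, ¬ maximalIdeal A ≤ V) :
    ∃ z ∈ maximalIdeal A, ∀ V ∈ s, z ∉ V := by
  classical
  induction s using Finset.induction_on with
  | empty => exact ⟨0, zero_mem _, by simp⟩
  | insert V s hV ih =>
    obtain ⟨z, hz, hzs⟩ := ih (fun V' h => hs V' (Finset.mem_insert_of_mem h))
    obtain ⟨w, hw, hwV⟩ := Set.not_subset.1 (hs V (Finset.mem_insert_self _ _))
    obtain ⟨u, hu⟩ := hinf
    by_contra hcon
    push Not at hcon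
    have h1 : ∀ j, ∃ V' ∈ insert V s, z + u j * w ∈ V' := fun j =>
      hcon _ (Ideal.add_mem _ hz (Ideal.mul_mem_left _ _ hw))
    choose F hF hF' using h1
    obtain ⟨i, j, hij, hFij⟩ := Finite.exists_ne_map_eq_of_infinite
      (fun j : ℕ => (⟨F j, hF j⟩ : {x // x ∈ insert V s}))
    have hFij' : F i = F j := congrArg Subtype.val hFij
    have h2 : (u i - u j) * w ∈ F i := by
      have h := Ideal.sub_mem _ (hF' i) (hFij'.symm ▸ hF' j)
      have e : (u i - u j) * w = z + u i * w - (z + u j * w) := by ring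
      rw [e]; exact h
    have h3 : IsUnit (u i - u j) := by
      by_contra h
      exact hu i j hij ((mem_maximalIdeal _).2 h)
    have h4 : w ∈ F i := (Ideal.unit_mul_mem_iff_mem _ h3).1 h2
    have h5 : z ∈ F i := by
      have h := Ideal.sub_mem _ (hF' i) (Ideal.mul_mem_left _ (u i) h4)
      rwa [add_sub_cancel_right] at h
    rcases Finset.mem_insert.1 (hF i) with h | h
    · exact hwV (h ▸ h4)
    · exact hzs _ h h5

variable [IsNoetherianRing A]

theorem nass_finite (h : NAss (⊥ : Ideal A)) : ∃ s : Finset (Ideal A),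
    (∀ V ∈ s, ¬ maximalIdeal A ≤ V) ∧ ∀ z : A, (∀ V ∈ s, z ∉ V) → Nzd ⊥ z := by
  classical
  refine ⟨(associatedPrimes.finite A A).toFinset, ?_, ?_⟩
  · intro V hV hle
    rw [Set.Finite.mem_toFinset, AssociatedPrimes.mem_iff, isAssociatedPrime_iff] at hV
    obtain ⟨hVp, x, hx⟩ := hV
    have h1 : x ∈ (⊥ : Ideal A) := h x (by
      intro r hr
      have h2 : r ∈ V := hle hr
      rw [hx] at h2
      simpa using h2)
    apply hVp.ne_top
    rw [hx, (Submodule.mem_bot A).1 h1]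
    ext a
    simp
  · intro z hz a ha
    by_contra hne
    have h1 : z ∈ ⋃ p ∈ associatedPrimes A A, (p : Set A) := by
      rw [biUnion_associatedPrimes_eq_zero_divisors]
      exact ⟨a, fun h0 => hne (by rw [h0]; exact zero_mem _), (Submodule.mem_bot A).1 ha⟩
    rw [Set.mem_iUnion₂] at h1
    obtain ⟨p, hp, hzp⟩ := h1
    exact hz p ((associatedPrimes.finite A A).mem_toFinset.2 hp) hzp

theorem exists_superficial (hinf : InfRes A) (h : NAss (⊥ : Ideal A)) (W : Ideal A)
    (hW : ¬ maximalIdeal A ≤ W) : ∃ z ∈ maximalIdeal A, Nzd ⊥ z ∧ z ∉ W ∧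
      ∃ n₀, ∀ n ≥ n₀, cl (maximalIdeal A ^ (n + 1)) z = maximalIdeal A ^ n := by
  classical
  obtain ⟨s₁, hs₁, hr⟩ := rees_sup (A := A)
  obtain ⟨s₂, hs₂, hn⟩ := nass_finite h
  obtain ⟨z, hz, hzs⟩ := avoid hinf (insert W (s₁ ∪ s₂)) (by
    intro V hV
    rcases Finset.mem_insert.1 hV with rfl | hV
    · exact hW
    · rcases Finset.mem_union.1 hV with hV | hV
      · exact hs₁ V hV
      · exact hs₂ V hV)
  have hreg : Nzd ⊥ z := hn z fun V hV =>
    hzs V (Finset.mem_insert_of_mem (Finset.mem_union_right _ hV))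
  obtain ⟨n₁, hn₁⟩ := hr z hz fun V hV =>
    hzs V (Finset.mem_insert_of_mem (Finset.mem_union_left _ hV))
  obtain ⟨k, hk⟩ := Ideal.exists_pow_inf_eq_pow_smul (maximalIdeal A)
    (Ideal.span {z} : Submodule A A)
  refine ⟨z, hz, hreg, hzs W (Finset.mem_insert_self _ _), n₁ + k, fun n hnn => ?_⟩
  apply le_antisymm
  · intro a ha
    rw [mem_cl] at ha
    have h1 : z * a ∈ maximalIdeal A ^ (n + 1) • (⊤ : Submodule A A) ⊓ Ideal.span {z} := by
      refine ⟨?_, Ideal.mul_mem_right _ _ (Ideal.mem_span_singleton_self z)⟩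
      rw [Ideal.smul_eq_mul, Ideal.mul_top]
      exact ha
    rw [hk (n + 1) (by omega)] at h1
    have h2 : z * a ∈ maximalIdeal A ^ (n + 1 - k) * Ideal.span {z} := by
      rw [← Ideal.smul_eq_mul]
      exact Submodule.smul_mono le_rfl inf_le_right h1
    obtain ⟨a', ha', hza⟩ := Ideal.mem_mul_span_singleton.1 h2
    have h3 : a = a' := by
      have h4 : z * (a - a') ∈ (⊥ : Ideal A) := by
        rw [mul_sub, ← hza, mul_comm a' z, sub_self]
        exact zero_mem _
      exact sub_eq_zero.1 ((Submodule.mem_bot A).1 (hreg _ h4))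
    rw [← h3] at ha'
    have h5 : ∀ j, j ≤ n → a ∈ maximalIdeal A ^ j := by
      intro j
      induction j with
      | zero => intro _; simp
      | succ j ih =>
        intro hj
        by_cases hj' : j + 1 ≤ n + 1 - k
        · exact Ideal.pow_le_pow_right hj' ha'
        · exact hn₁ j (by omega) a (ih (by omega)) (Ideal.pow_le_pow_right (by omega) ha)
    exact h5 n le_rfl
  · intro a ha
    rw [mem_cl, pow_succ']
    exact Ideal.mul_mem_mul hz ha

end Pool.Agent.H56.FS
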