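import Pool.Agent.H56.FS.GorQ
import Pool.Agent.H56.FS.Super
import Pool.Agent.H56.FS.Mult

/-!
# FS-RED: minimal reductions

By induction on `d`. `d = 0`: `xs = []` (`ofList [] = ⊥`), `mult_zero`. `d + 1`: `exists_superficial`
(with `W = ⊥`; `𝔪 ≠ ⊥` since there is a regular element in `𝔪`... if `𝔪 ≤ ⊥` then `0` is regular, so `1 = 0`)
gives `z`, `B = A/(z)`, `Gor.quot`, and the induction hypothesis for `B` gives `ys`, lifted to `A`
(`regSeq_lift`, with `K = (z)`); `xs = z :: ys'`. `Mp`: `mp_of_regSeq`. `Soc`: `soc_of_map`.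
`el (ofList xs) = el (ofList ys)` (`el_comap`/`el_map`), `mult_step`.
-/

set_option autoImplicit false

noncomputable section

namespace Pool.Agent.H56.FS

open IsLocalRing Pool.Agent.H34.HK Filter

universe u

lemma infRes_of_surjective {A B : Type u} [CommRing A] [IsLocalRing A] [CommRing B]
    [IsLocalRing B] (f : A →+* B) (hf : Function.Surjective f) (h : InfRes A) : InfRes B := by
  obtain ⟨u, hu⟩ := h
  have : IsLocalHom f := hf.isLocalHom
  refine ⟨fun i => f (u i), fun i j hij hm => hu i j hij ?_⟩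
  rw [← map_sub, mem_maximalIdeal, mem_nonunits_iff] at hm
  rw [mem_maximalIdeal, mem_nonunits_iff]
  exact fun h => hm (h.map f)

theorem exists_red (d : ℕ) : ∀ (A : Type u) [CommRing A] [IsLocalRing A] [IsNoetherianRing A],
    InfRes A → Gor A d → ∃ xs : List A, xs.length = d ∧ RegSeq ⊥ xs ∧ Mp (Ideal.ofList xs) ∧
      Soc (Ideal.ofList xs) ∧ IsMultiplicity A d (el (Ideal.ofList xs)) := by
  induction d with
  | zero =>
    intro A _ _ _ _ hG
    obtain ⟨hd, xs, hl, -, hS⟩ := hG
    rw [List.length_eq_zero_iff.1 hl] at hS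
    have hM : Mp (Ideal.ofList ([] : List A)) := mp_of_regSeq (d := 0) hd [] rfl trivial
    refine ⟨[], rfl, trivial, hM, hS, ?_⟩
    rw [Ideal.ofList_nil] at hM ⊢
    exact mult_zero hM
  | succ d ih =>
    intro A _ _ _ hinf hG
    have hN := hG.nAss
    have hW : ¬ maximalIdeal A ≤ ⊥ := by
      intro h
      have h1 : (1 : A) ∈ (⊥ : Ideal A) := hN 1 fun r hr => by
        rw [mul_one]
        exact h hr
      exact one_ne_zero ((Ideal.mem_bot).1 h1)
    obtain ⟨z, hzm, hznzd, -, hsup⟩ := exists_superficial hinf hN ⊥ hW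
    have hne : Ideal.span {z} ≠ ⊤ := by
      intro h
      have : z ∉ maximalIdeal A := by
        rw [mem_maximalIdeal, mem_nonunits_iff, not_not, ← Ideal.span_singleton_eq_top]
        exact h
      exact this hzm
    have : Nontrivial (A ⧸ Ideal.span {z}) := Ideal.Quotient.nontrivial_iff.2 hne
    have hf : Function.Surjective (Ideal.Quotient.mk (Ideal.span {z})) :=
      Ideal.Quotient.mk_surjective
    have : IsLocalRing (A ⧸ Ideal.span {z}) := IsLocalRing.of_surjective' _ hf
    have hk : RingHom.ker (Ideal.Quotient.mk (Ideal.span {z})) = Ideal.span {z} :=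
      Ideal.mk_ker
    have hGB : Gor (A ⧸ Ideal.span {z}) d := hG.quot hzm hznzd _ hf hk
    obtain ⟨ys, hyl, hyr, -, hyS, hmu⟩ :=
      ih (A ⧸ Ideal.span {z}) (infRes_of_surjective _ hf hinf) hGB
    have hmap : (Ideal.span {z}).map (Ideal.Quotient.mk (Ideal.span {z})) = ⊥ :=
      Ideal.map_quotient_self _
    obtain ⟨xs, hxs, hxr⟩ := regSeq_lift (Ideal.Quotient.mk (Ideal.span {z})) hf
      (Ideal.span {z}) hk.le ys (by rw [hmap]; exact hyr)
    have hofl : (Ideal.ofList xs).map (Ideal.Quotient.mk (Ideal.span {z})) = Ideal.ofList ys := by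
      rw [← hxs, Ideal.map_ofList]
    have hofl' : (Ideal.ofList (z :: xs)).map (Ideal.Quotient.mk (Ideal.span {z})) =
        Ideal.ofList ys := by
      rw [Ideal.ofList_cons, Ideal.map_sup, hmap, bot_sup_eq, hofl]
    have hker : RingHom.ker (Ideal.Quotient.mk (Ideal.span {z})) ≤ Ideal.ofList (z :: xs) := by
      rw [hk, Ideal.ofList_cons]
      exact le_sup_left
    have hlen : (z :: xs).length = d + 1 := by
      rw [List.length_cons, ← hyl, ← hxs, List.length_map]
    have hreg : RegSeq ⊥ (z :: xs) := ⟨hzm, hznzd, by rw [bot_sup_eq]; exact hxr⟩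
    refine ⟨z :: xs, hlen, hreg, mp_of_regSeq hG.1 _ hlen hreg,
      soc_of_map _ hf _ hker (by rw [hofl']; exact hyS), ?_⟩
    have hel : el (Ideal.ofList (z :: xs)) = el (Ideal.ofList ys) := by
      rw [← hofl', el_map _ hf, sup_eq_left.2 hker]
    rw [hel]
    exact mult_step hzm hsup _ hf hk hmu

end Pool.Agent.H56.FS
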