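import Pool.Agent.H56.FS.Frob

/-!
# FS-REGLEN: colengths of powers of regular sequences

* `Nzd.swap`: `x a = k + y b` gives `y b ∈ K + (x)`, so `b = k' + x b'`, `x (a - y b') ∈ K`.
* `nzd_pow_left`: `y a = k + x^n c`: induction on `n`; `y a ∈ K + (x)` gives `a = k' + x a₁`,
  `x (y a₁ - x^{n-1} c) ∈ K`, so `y a₁ ∈ K + (x^{n-1})`, so `a₁ ∈ K + (x^{n-1})`.
* `RegSeq.pow_left` by induction on the list (generalising `K`): from `x` regular mod `K` and
  `RegSeq (K + (x)) (y :: ys)`: `y` is regular mod `K + (x^n)` (`nzd_pow_left`), `x` is regular mod `K + (y)`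
  (`Nzd.swap`), so the induction hypothesis applies to `K + (y)` (rewrite
  `K ⊔ span{y} ⊔ span{x^n} = K ⊔ span{x^n} ⊔ span{y}`).
* `el_pow`: `el (K + (x^{n+1})) = el (K + (x)) + el (K + (x^n))` by `el_add` for the element `x`
  (`((K + (x^{n+1})) : x) = K + (x^n)`).
* `el_pow_list`: induction on the list: for `y :: ys` apply the induction hypothesis to `K + (y)`.
* `el_pow_all`: induction on the list with `RegSeq.pow_left` and `el_pow_list`.
-/

set_option autoImplicit false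

noncomputable section

namespace Pool.Agent.H56.FS

open IsLocalRing Pool.Agent.H34.HK Filter

universe u

section

variable {A : Type u} [CommRing A]

lemma mem_sup_span {K : Ideal A} {x a : A} :
    a ∈ K ⊔ Ideal.span {x} ↔ ∃ k ∈ K, ∃ c, a = k + x * c := by
  rw [Submodule.mem_sup]
  constructor
  · rintro ⟨k, hk, z, hz, rfl⟩
    obtain ⟨c, rfl⟩ := Ideal.mem_span_singleton'.1 hz
    exact ⟨k, hk, c, by rw [mul_comm x c]⟩
  · rintro ⟨k, hk, c, rfl⟩
    exact ⟨k, hk, x * c, Ideal.mul_mem_right c _ (Ideal.mem_span_singleton_self x), rfl⟩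

lemma Nzd.swap {K : Ideal A} {x y : A} (hx : Nzd K x) (hy : Nzd (K ⊔ Ideal.span {x}) y) :
    Nzd (K ⊔ Ideal.span {y}) x := by
  intro a ha
  obtain ⟨k, hk, b, hb⟩ := mem_sup_span.1 ha
  have h1 : y * b ∈ K ⊔ Ideal.span {x} := by
    refine mem_sup_span.2 ⟨-k, K.neg_mem hk, a, ?_⟩
    rw [hb]; ring
  obtain ⟨k', hk', b', hb'⟩ := mem_sup_span.1 (hy b h1)
  have h2 : x * (a - y * b') ∈ K := by
    have : x * (a - y * b') = k + y * k' := by
      rw [mul_sub, hb, hb']; ring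
    rw [this]
    exact K.add_mem hk (K.mul_mem_left y hk')
  exact mem_sup_span.2 ⟨a - y * b', hx _ h2, b', by ring⟩

lemma nzd_pow_left {K : Ideal A} {x y : A} (hx : Nzd K x) (hy : Nzd (K ⊔ Ideal.span {x}) y)
    (n : ℕ) : Nzd (K ⊔ Ideal.span {x ^ n}) y := by
  induction n with
  | zero =>
    intro a _
    refine mem_sup_span.2 ⟨0, K.zero_mem, a, ?_⟩
    simp
  | succ n ih =>
    intro a ha
    obtain ⟨k, hk, c, hc⟩ := mem_sup_span.1 ha
    have h1 : y * a ∈ K ⊔ Ideal.span {x} :=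
      mem_sup_span.2 ⟨k, hk, x ^ n * c, by rw [hc]; ring⟩
    obtain ⟨k', hk', a₁, ha₁⟩ := mem_sup_span.1 (hy a h1)
    have h2 : x * (y * a₁ - x ^ n * c) ∈ K := by
      have : x * (y * a₁ - x ^ n * c) = k - y * k' := by
        have h3 : y * (k' + x * a₁) = k + x ^ (n + 1) * c := by rw [← ha₁]; exact hc
        have h4 : x * (y * a₁) = k + x ^ (n + 1) * c - y * k' := by
          rw [← h3]; ring
        rw [mul_sub, h4]; ring
      rw [this]
      exact K.sub_mem hk (K.mul_mem_left y hk')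
    have h5 : y * a₁ ∈ K ⊔ Ideal.span {x ^ n} :=
      mem_sup_span.2 ⟨_, hx _ h2, c, by ring⟩
    obtain ⟨k₂, hk₂, c₂, hc₂⟩ := mem_sup_span.1 (ih a₁ h5)
    refine mem_sup_span.2 ⟨k' + x * k₂, K.add_mem hk' (K.mul_mem_left x hk₂), c₂, ?_⟩
    rw [ha₁, hc₂]; ring

lemma cl_sup_pow {K : Ideal A} {x : A} (hx : Nzd K x) (n : ℕ) :
    cl (K ⊔ Ideal.span {x ^ (n + 1)}) x = K ⊔ Ideal.span {x ^ n} := by
  ext a
  rw [mem_cl]
  constructor
  · intro h
    obtain ⟨k, hk, c, hc⟩ := mem_sup_span.1 h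
    have h2 : x * (a - x ^ n * c) ∈ K := by
      have : x * (a - x ^ n * c) = k := by
        rw [mul_sub, hc]; ring
      rw [this]
      exact hk
    exact mem_sup_span.2 ⟨_, hx _ h2, c, by ring⟩
  · intro h
    obtain ⟨k, hk, c, rfl⟩ := mem_sup_span.1 h
    exact mem_sup_span.2 ⟨x * k, K.mul_mem_left x hk, c, by ring⟩

lemma sup_pow_sup (K : Ideal A) (x : A) (n : ℕ) :
    K ⊔ Ideal.span {x ^ (n + 1)} ⊔ Ideal.span {x} = K ⊔ Ideal.span {x} := by
  rw [sup_assoc]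
  congr 1
  refine sup_eq_right.2 ?_
  rw [Ideal.span_singleton_le_iff_mem]
  exact Ideal.mem_span_singleton.2 (dvd_pow_self x n.succ_ne_zero)

lemma sup_pow_le (K : Ideal A) (x : A) (n : ℕ) :
    (K ⊔ Ideal.span {x}) ^ n ≤ K ⊔ Ideal.span {x ^ n} := by
  induction n with
  | zero => simp
  | succ n ih =>
    rw [pow_succ]
    refine (Ideal.mul_mono_left ih).trans ?_
    rw [Ideal.mul_le]
    intro r hr s hs
    obtain ⟨k, hk, c, rfl⟩ := mem_sup_span.1 hr
    obtain ⟨k', hk', c', rfl⟩ := mem_sup_span.1 hs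
    refine mem_sup_span.2 ⟨k * (k' + x * c') + x ^ n * c * k',
      K.add_mem (K.mul_mem_right _ hk) (K.mul_mem_left _ hk'), c * c', ?_⟩
    ring

end

variable {A : Type u} [CommRing A] [IsLocalRing A]

lemma Mp.sup_pow {K : Ideal A} {x : A} (h : Mp (K ⊔ Ideal.span {x})) (n : ℕ) :
    Mp (K ⊔ Ideal.span {x ^ n}) := by
  obtain ⟨m, hm⟩ := h
  refine ⟨m * n, ?_⟩
  rw [pow_mul]
  exact (Ideal.pow_right_mono hm n).trans (sup_pow_le K x n)

lemma RegSeq.pow_left {K : Ideal A} {x : A} {xs : List A} (hx : Nzd K x)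
    (h : RegSeq (K ⊔ Ideal.span {x}) xs) (n : ℕ) : RegSeq (K ⊔ Ideal.span {x ^ n}) xs := by
  induction xs generalizing K with
  | nil => trivial
  | cons y ys ih =>
    obtain ⟨hy, hyx, hys⟩ := h
    refine ⟨hy, nzd_pow_left hx hyx n, ?_⟩
    rw [sup_right_comm] at hys ⊢
    exact ih (hx.swap hyx) hys

variable [IsNoetherianRing A]

lemma el_pow {K : Ideal A} {x : A} (hx : Nzd K x) (hM : Mp (K ⊔ Ideal.span {x})) (n : ℕ) :
    Mp (K ⊔ Ideal.span {x ^ n}) ∧ el (K ⊔ Ideal.span {x ^ n}) = n * el (K ⊔ Ideal.span {x}) := by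
  refine ⟨hM.sup_pow n, ?_⟩
  induction n with
  | zero =>
    have h0 : K ⊔ Ideal.span {x ^ 0} = ⊤ := by simp
    rw [h0, el_top, zero_mul]
  | succ n ih =>
    rw [el_add (hM.sup_pow (n + 1)) x, sup_pow_sup, cl_sup_pow hx, ih]
    ring

lemma el_pow_list {K : Ideal A} {x : A} (xs : List A) (hx : Nzd K x)
    (h : RegSeq (K ⊔ Ideal.span {x}) xs) (hM : Mp (K ⊔ Ideal.span {x} ⊔ Ideal.ofList xs))
    (n : ℕ) : Mp (K ⊔ Ideal.span {x ^ n} ⊔ Ideal.ofList xs) ∧
      el (K ⊔ Ideal.span {x ^ n} ⊔ Ideal.ofList xs) =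
        n * el (K ⊔ Ideal.span {x} ⊔ Ideal.ofList xs) := by
  induction xs generalizing K with
  | nil =>
    simp only [Ideal.ofList_nil, sup_bot_eq] at hM ⊢
    exact el_pow hx hM n
  | cons y ys ih =>
    obtain ⟨hy, hyx, hys⟩ := h
    have h1 : ∀ z : A, K ⊔ Ideal.span {z} ⊔ Ideal.ofList (y :: ys) =
        K ⊔ Ideal.span {y} ⊔ Ideal.span {z} ⊔ Ideal.ofList ys := by
      intro z
      rw [Ideal.ofList_cons, ← sup_assoc, sup_right_comm K]
    rw [h1 x] at hM ⊢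
    rw [h1 (x ^ n)]
    rw [sup_right_comm] at hys
    exact ih (hx.swap hyx) hys hM

lemma el_pow_all {K : Ideal A} (xs : List A) (h : RegSeq K xs) (hM : Mp (K ⊔ Ideal.ofList xs))
    (n : ℕ) : el (K ⊔ Ideal.ofList (xs.map fun x => x ^ n)) =
      n ^ xs.length * el (K ⊔ Ideal.ofList xs) := by
  induction xs generalizing K with
  | nil => simp
  | cons x xs ih =>
    obtain ⟨hx, hxK, hxs⟩ := h
    have h1 : K ⊔ Ideal.ofList (x :: xs) = K ⊔ Ideal.span {x} ⊔ Ideal.ofList xs := by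
      rw [Ideal.ofList_cons, ← sup_assoc]
    rw [h1] at hM ⊢
    obtain ⟨hM', he⟩ := el_pow_list xs hxK hxs hM n
    rw [List.map_cons, Ideal.ofList_cons, ← sup_assoc, ih (RegSeq.pow_left hxK hxs n) hM', he,
      List.length_cons]
    ring

theorem el_frobPow_ofList {p : ℕ} [Fact p.Prime] [CharP A p] (e : ℕ) (xs : List A)
    (h : RegSeq ⊥ xs) (hM : Mp (Ideal.ofList xs)) :
    el (frobPow p e (Ideal.ofList xs)) = (p ^ e) ^ xs.length * el (Ideal.ofList xs) := by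
  have := el_pow_all xs h (by rwa [bot_sup_eq]) (p ^ e)
  rwa [bot_sup_eq, bot_sup_eq, ← frobPow_ofList] at this

end Pool.Agent.H56.FS
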