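import Pool.Agent.H56.FS.Red
import Pool.Agent.H56.FS.Growth
import Pool.Agent.H56.FS.Conv

/-!
# FS-STEP: the main induction

`A` Gorenstein local of dimension `d` with infinite residue field, `e(A) = c ≥ 3`, `q = p^e`, `e ≥ 1`. If
`c q^d ≤ ℓ(A/𝔪^[q]) + (c - 1) b_e` then `b_e = 0`.
-/

set_option autoImplicit false

noncomputable section

namespace Pool.Agent.H56.FS

open IsLocalRing Pool.Agent.H34.HK Filter

universe u

lemma charP_of_hom {A B : Type u} [CommRing A] [CommRing B] [Nontrivial B] (f : A →+* B) (p : ℕ)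
    [hp : Fact p.Prime] [CharP A p] : CharP B p := by
  have h0 : (p : B) = 0 := by
    rw [← map_natCast f, CharP.cast_eq_zero, map_zero]
  have h1 : ringChar B ∣ p := ringChar.dvd h0
  rcases (Nat.dvd_prime hp.out).1 h1 with h2 | h2
  · exact absurd h2 (CharP.ringChar_ne_one)
  · exact ringChar.of_eq h2

section

variable {A : Type u} [CommRing A] [IsLocalRing A]

lemma max_map {B : Type u} [CommRing B] [IsLocalRing B] (f : A →+* B)
    (hf : Function.Surjective f) : (maximalIdeal A).map f = maximalIdeal B := by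
  have : IsLocalHom f := hf.isLocalHom
  exact IsLocalRing.map_maximalIdeal_of_surjective f hf

lemma cl_eq_max {J : Ideal A} {g : A} (hg : g ∉ J) (h : ∀ r ∈ maximalIdeal A, r * g ∈ J) :
    cl J g = maximalIdeal A := by
  apply le_antisymm
  · refine IsLocalRing.le_maximalIdeal fun h1 => hg ?_
    rwa [cl_eq_top] at h1
  · intro r hr
    rw [mem_cl, mul_comm]
    exact h r hr

variable [IsNoetherianRing A]

/-- choice of `z` and `y` -/
theorem exists_zy {J : Ideal A} (hJ : Mp J) (hS : Soc J) (h3 : 3 ≤ el J) :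
    ∃ W : Ideal A, ¬ maximalIdeal A ≤ W ∧ ∀ z ∈ maximalIdeal A, z ∉ W →
      ∃ y ∈ maximalIdeal A, z * y ∉ J ∧ z * (z * y) ∈ J ∧ el (cl J y) = 2 ∧ el (cl J (z * y)) = 1 := by
  classical
  obtain ⟨s, hs, hsoc⟩ := hS
  have hsJ : ∀ r ∈ maximalIdeal A, r * s ∈ J :=
    (hsoc s).2 (Ideal.mem_sup_right (Ideal.mem_span_singleton_self s))
  have hn := Nat.find_spec hJ
  have hmin : ∀ n < Nat.find hJ, ¬ maximalIdeal A ^ n ≤ J := fun n => Nat.find_min hJ
  set n := Nat.find hJ with hndef
  have hn0 : n ≠ 0 := by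
    intro h0
    rw [h0, pow_zero, Ideal.one_eq_top, top_le_iff] at hn
    rw [hn, el_top] at h3
    omega
  have hn1 : n ≠ 1 := by
    intro h1
    rw [h1, pow_one] at hn
    have := el_anti Mp.max hn
    rw [el_max] at this
    omega
  have hn2 : n ≠ 2 := by
    intro h2
    rw [h2, pow_two] at hn
    have h4 : maximalIdeal A ≤ J ⊔ Ideal.span {s} := fun a ha =>
      (hsoc a).1 fun r hr => hn (Ideal.mul_mem_mul hr ha)
    have h5 := el_anti Mp.max h4
    have h6 : cl J s = maximalIdeal A := cl_eq_max hs hsJ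
    have h7 := el_add hJ s
    rw [h6, el_max] at h7
    rw [el_max] at h5
    omega
  obtain ⟨k, hk⟩ : ∃ k, n = k + 3 := ⟨n - 3, by omega⟩
  have hc : ¬ maximalIdeal A ^ (k + 2) ≤ J := hmin _ (by omega)
  rw [hk] at hn
  refine ⟨⨅ y ∈ maximalIdeal A ^ (k + 1), cl J y, fun hW => hc ?_, fun z hz hzW => ?_⟩
  · rw [pow_succ, Ideal.mul_le]
    intro y hy r hr
    have h4 := hW hr
    simp only [Ideal.mem_iInf] at h4
    exact h4 y hy
  · simp only [Ideal.mem_iInf, not_forall] at hzW
    obtain ⟨y, hy, hzy⟩ := hzW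
    rw [mem_cl, mul_comm] at hzy
    have hym : y ∈ maximalIdeal A := Ideal.pow_le_self (Nat.succ_ne_zero k) hy
    have hkill : ∀ r ∈ maximalIdeal A, ∀ t ∈ maximalIdeal A, r * (t * y) ∈ J := by
      intro r hr t ht
      apply hn
      rw [show k + 3 = (k + 1) + 1 + 1 from rfl, pow_succ, pow_succ]
      have h4 : y * t * r ∈ maximalIdeal A ^ (k + 1) * maximalIdeal A * maximalIdeal A :=
        Ideal.mul_mem_mul (Ideal.mul_mem_mul hy ht) hr
      have h5 : r * (t * y) = y * t * r := by ring
      rwa [h5]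
    have h1 : cl J (z * y) = maximalIdeal A := cl_eq_max hzy fun r hr => hkill r hr z hz
    refine ⟨y, hym, hzy, hkill z hz z hz, ?_, by rw [h1, el_max]⟩
    have h2 : cl (cl J y) z = maximalIdeal A := by
      rw [cl_cl, mul_comm y z, h1]
    have hyJ : y ∉ J := fun h => hzy (J.mul_mem_left z h)
    have h3' : cl J y ⊔ Ideal.span {z} = maximalIdeal A := by
      apply le_antisymm
      · refine sup_le (IsLocalRing.le_maximalIdeal fun h => hyJ ?_) ?_
        · rwa [cl_eq_top] at h
        · rw [Ideal.span_singleton_le_iff_mem]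
          exact hz
      · -- `s ∈ J + (zy)`
        have h4 : z * y ∈ J ⊔ Ideal.span {s} := (hsoc _).1 fun r hr => hkill r hr z hz
        obtain ⟨j, hj, w, hw, hjw⟩ := Submodule.mem_sup.1 h4
        obtain ⟨u, rfl⟩ := Ideal.mem_span_singleton'.1 hw
        have hu : IsUnit u := by
          by_contra hu
          apply hzy
          rw [← hjw]
          exact J.add_mem hj (hsJ u ((mem_maximalIdeal u).2 hu))
        obtain ⟨v, hv⟩ := hu.exists_left_inv
        intro r hr
        have h5 : r * y ∈ J ⊔ Ideal.span {s} := (hsoc _).1 fun t ht => hkill t ht r hr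
        obtain ⟨j', hj', w', hw', hjw'⟩ := Submodule.mem_sup.1 h5
        obtain ⟨u', rfl⟩ := Ideal.mem_span_singleton'.1 hw'
        have h6 : s = v * (z * y) - v * j := by
          rw [← hjw]
          linear_combination (-s) * hv
        have h7 : r - u' * v * z ∈ cl J y := by
          rw [mem_cl]
          have h8 : y * (r - u' * v * z) = j' - u' * v * j := by
            have h9 : r * y = j' + u' * (v * (z * y) - v * j) := by rw [← h6]; exact hjw'.symm
            linear_combination h9
          rw [h8]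
          exact J.sub_mem hj' (J.mul_mem_left _ hj)
        have h8 : r = (r - u' * v * z) + u' * v * z := by ring
        rw [h8]
        exact Submodule.add_mem_sup h7 (Ideal.mul_mem_left _ _ (Ideal.mem_span_singleton_self z))
    rw [el_add (hJ.cl y) z, h2, h3', el_max]

variable {p : ℕ} [Fact p.Prime] [CharP A p]

/-- the consequences of extremality -/
theorem extremal (e : ℕ) {J : Ideal A} (hJ : Mp J)
    (h : el (frobPow p e J) + el (Ie A p e) ≤
      el (frobPow p e (maximalIdeal A)) + el (Ie A p e) * el J) {y : A}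
    (hy : y ∈ maximalIdeal A) (hJm : J ≤ maximalIdeal A) :
    el (cl (frobPow p e J) (y ^ p ^ e)) = el (Ie A p e) * el (cl J y) := by
  have h1 := main1 (p := p) e hJ (le_sup_left : J ≤ J ⊔ Ideal.span {y})
  have h2 := main1 (p := p) e (hJ.mono (le_sup_left : J ≤ J ⊔ Ideal.span {y}))
    (sup_le hJm ((Ideal.span_singleton_le_iff_mem _).2 hy))
  have h3 := el_add (hJ.frobPow (p := p) e) (y ^ p ^ e)
  have h4 := el_add hJ y
  rw [← frobPow_span, ← frobPow_sup] at h3
  rw [el_max, mul_one] at h2
  have h5 : el (Ie A p e) * el J =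
      el (Ie A p e) * el (J ⊔ Ideal.span {y}) + el (Ie A p e) * el (cl J y) := by
    rw [← mul_add, ← h4]
  omega

lemma mp_comap {B : Type u} [CommRing B] [IsLocalRing B] (f : A →+* B)
    (hf : Function.Surjective f) {L : Ideal B} (h : Mp L) : Mp (L.comap f) := by
  obtain ⟨n, hn⟩ := h
  refine ⟨n, Ideal.map_le_iff_le_comap.1 ?_⟩
  rwa [Ideal.map_pow, max_map f hf]

/-- the descent from `A` to `A/(z)` for the numbers `b_e` -/
theorem descent (e : ℕ) {J : Ideal A} (hJ : Mp J) (hJm : J ≤ maximalIdeal A)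
    (h : el (frobPow p e J) + el (Ie A p e) ≤
      el (frobPow p e (maximalIdeal A)) + el (Ie A p e) * el J) {z y : A}
    (hz : z ∈ maximalIdeal A) (hy : y ∈ maximalIdeal A) (h1 : z * y ∉ J) (h2 : z * (z * y) ∈ J)
    (h3 : el (cl J y) = 2) (h4 : el (cl J (z * y)) = 1)
    {B : Type u} [CommRing B] [IsLocalRing B] (f : A →+* B) (hf : Function.Surjective f)
    (hk : RingHom.ker f = Ideal.span {z}) :
    el (Ie A p e) ≤ p ^ e * el (Ie B p e) := by
  have : IsNoetherianRing B := isNoetherianRing_of_surjective A B f hf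
  have : CharP B p := charP_of_hom f p
  have hq : 1 ≤ p ^ e := Nat.one_le_pow _ _ (Fact.out : p.Prime).pos
  have e0 := extremal (p := p) e hJ h hy hJm
  have e1 := extremal (p := p) e hJ h (Ideal.mul_mem_left _ z hy) hJm
  rw [h3, mul_comm] at e0
  rw [h4, mul_one] at e1
  have hI := hJ.frobPow (p := p) e
  have e2 : z ^ (2 * p ^ e) * y ^ p ^ e ∈ frobPow p e J := by
    have := pow_mem_frobPow (p := p) e h2
    have h5 : (z * (z * y)) ^ p ^ e = z ^ (2 * p ^ e) * y ^ p ^ e := by ring
    rwa [h5] at this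
  have e3 := conv hI z (y ^ p ^ e) (p ^ e) (el (Ie A p e)) hq e0
    (by rw [← mul_pow]; exact e1) e2
  have e4 : cl (frobPow p e J) ((z * y) ^ p ^ e) = Ie A p e :=
    eq_of_el (hI.cl _) (cl_le_Ie e h1) e1.le
  have e5 : cl (frobPow p e J) (z ^ (2 * p ^ e - 1) * y ^ p ^ e) =
      cl (Ie A p e) (z ^ (p ^ e - 1)) := by
    rw [← e4, cl_cl, mul_pow]
    congr 1
    have : 2 * p ^ e - 1 = p ^ e + (p ^ e - 1) := by omega
    rw [this, pow_add]
    ring
  rw [e5] at e3
  have e6 := el_anti (mp_comap f hf (mp_Ie (A := B) (p := p) e)) (Ie_quot (p := p) e f hf hk)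
  rw [el_comap f hf] at e6
  calc el (Ie A p e) = p ^ e * el (cl (Ie A p e) (z ^ (p ^ e - 1))) := e3.symm
    _ ≤ p ^ e * el (Ie B p e) := Nat.mul_le_mul_left _ e6

end

theorem bq_zero (p : ℕ) [Fact p.Prime] (e : ℕ) (he : 1 ≤ e) (c : ℕ) (hc : 3 ≤ c) (d : ℕ) :
    ∀ (A : Type u) [CommRing A] [IsLocalRing A] [IsNoetherianRing A] [CharP A p],
      InfRes A → Gor A d → IsMultiplicity A d c →
      c * (p ^ e) ^ d + el (Ie A p e) ≤
        el (frobPow p e (maximalIdeal A)) + c * el (Ie A p e) → el (Ie A p e) = 0 := by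
  induction d with
  | zero =>
    intro A _ _ _ _ hinf hG hM _
    have hM0 : Mp (⊥ : Ideal A) := by
      have := mp_of_regSeq (A := A) (d := 0) hG.1 [] rfl trivial
      rwa [Ideal.ofList_nil] at this
    obtain ⟨-, xs, hl, -, hS⟩ := hG
    rw [List.length_eq_zero_iff.1 hl, Ideal.ofList_nil] at hS
    have h1 := mult_unique hM (mult_zero hM0)
    have h2 : c = el (⊥ : Ideal A) := by exact_mod_cast h1
    obtain ⟨s, hs, hsoc⟩ := hS
    have hsm : ∀ r ∈ maximalIdeal A, r * s = 0 := fun r hr => by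
      have := (hsoc s).2 (Ideal.mem_sup_right (Ideal.mem_span_singleton_self s)) r hr
      simpa using this
    have hs0 : s ≠ 0 := fun h => hs (by rw [h]; exact Ideal.zero_mem _)
    have hsM : s ∈ maximalIdeal A := by
      rw [mem_maximalIdeal]
      intro hu
      obtain ⟨v, hv⟩ := hu.exists_right_inv
      have h3 : maximalIdeal A = ⊥ := by
        rw [eq_bot_iff]
        intro r hr
        have h4 : r = r * s * v := by rw [mul_assoc, hv, mul_one]
        rw [Ideal.mem_bot, h4, hsm r hr, zero_mul]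
      rw [← h3, el_max] at h2
      omega
    have h3 : s ^ p ^ e = 0 := by
      have hp2 : 2 ≤ p ^ e := by
        calc 2 ≤ p := (Fact.out : p.Prime).two_le
          _ = p ^ 1 := (pow_one p).symm
          _ ≤ p ^ e := Nat.pow_le_pow_right (Fact.out : p.Prime).pos he
      obtain ⟨k, hk⟩ := Nat.exists_eq_add_of_le hp2
      rw [hk, pow_add, pow_two, hsm s hsM, zero_mul]
    rw [Ie_eq_top e hs0 h3, el_top]
  | succ d ih =>
    intro A _ _ _ _ hinf hG hM hle
    obtain ⟨xs, hl, hreg, hJ, hS, hmu⟩ := exists_red (d + 1) A hinf hG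
    have hcJ : c = el (Ideal.ofList xs) := by exact_mod_cast mult_unique hM hmu
    have hfJ := el_frobPow_ofList (p := p) e xs hreg hJ
    rw [← hcJ, hl] at hfJ
    have hJm : Ideal.ofList xs ≤ maximalIdeal A := by
      refine IsLocalRing.le_maximalIdeal fun h => ?_
      rw [h, el_top] at hcJ
      omega
    have hext : el (frobPow p e (Ideal.ofList xs)) + el (Ie A p e) ≤
        el (frobPow p e (maximalIdeal A)) + el (Ie A p e) * el (Ideal.ofList xs) := by
      rw [hfJ, ← hcJ, mul_comm _ c, mul_comm _ c]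
      exact hle
    obtain ⟨W, hW, hWz⟩ := exists_zy hJ hS (by rw [← hcJ]; exact hc)
    obtain ⟨z, hzm, hznzd, hzW, hsup⟩ := exists_superficial hinf hG.nAss W hW
    obtain ⟨y, hym, h1, h2, h3, h4⟩ := hWz z hzm hzW
    have hne : Ideal.span {z} ≠ ⊤ := by
      intro h
      have : z ∉ maximalIdeal A := by
        rw [mem_maximalIdeal, mem_nonunits_iff, not_not, ← Ideal.span_singleton_eq_top]
        exact h
      exact this hzm
    have : Nontrivial (A ⧸ Ideal.span {z}) := Ideal.Quotient.nontrivial_iff.2 hne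
    have hf : Function.Surjective (Ideal.Quotient.mk (Ideal.span {z})) :=
      Ideal.Quotient.mk_surjective
    have : IsLocalRing (A ⧸ Ideal.span {z}) := IsLocalRing.of_surjective' _ hf
    have hk : RingHom.ker (Ideal.Quotient.mk (Ideal.span {z})) = Ideal.span {z} :=
      Ideal.mk_ker
    have hCP : CharP (A ⧸ Ideal.span {z}) p := charP_of_hom (Ideal.Quotient.mk (Ideal.span {z})) p
    have hdesc := descent (p := p) e hJ hJm hext hzm hym h1 h2 h3 h4 _ hf hk
    have hGB : Gor (A ⧸ Ideal.span {z}) d := hG.quot hzm hznzd _ hf hk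
    have hinfB := infRes_of_surjective _ hf hinf
    obtain ⟨ys, -, -, -, -, hmuB⟩ := exists_red d (A ⧸ Ideal.span {z}) hinfB hGB
    have hcB : c = el (Ideal.ofList ys) := by
      exact_mod_cast mult_unique hM (mult_step hzm hsup _ hf hk hmuB)
    rw [← hcB] at hmuB
    have hmB : el (frobPow p e (maximalIdeal A)) ≤
        p ^ e * el (frobPow p e (maximalIdeal (A ⧸ Ideal.span {z}))) := by
      rw [← max_map (Ideal.Quotient.mk (Ideal.span {z})) hf, frobPow_map, el_map _ hf, hk]
      exact el_le_mul (Mp.max.frobPow e) (pow_mem_frobPow e hzm)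
    have hq : 0 < p ^ e := pow_pos (Fact.out : p.Prime).pos e
    have hB := ih (A ⧸ Ideal.span {z}) hinfB hGB hmuB ?_
    · rw [hB, mul_zero] at hdesc
      omega
    · obtain ⟨k, hk'⟩ := Nat.exists_eq_add_of_le hc
      subst hk'
      set bB := el (Ie (A ⧸ Ideal.span {z}) p e)
      set xB := el (frobPow p e (maximalIdeal (A ⧸ Ideal.span {z})))
      set b := el (Ie A p e)
      set x := el (frobPow p e (maximalIdeal A))
      set q := p ^ e
      have g1 : (3 + k) * q ^ (d + 1) ≤ x + (2 + k) * b := by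
        have : (3 + k) * b = (2 + k) * b + b := by ring
        omega
      have g2 : (2 + k) * b ≤ (2 + k) * (q * bB) := Nat.mul_le_mul_left _ hdesc
      have g3 : q * ((3 + k) * q ^ d) ≤ q * (xB + (2 + k) * bB) := by
        calc q * ((3 + k) * q ^ d) = (3 + k) * q ^ (d + 1) := by ring
          _ ≤ x + (2 + k) * b := g1
          _ ≤ q * xB + (2 + k) * (q * bB) := add_le_add hmB g2
          _ = q * (xB + (2 + k) * bB) := by ring
      have g4 := Nat.le_of_mul_le_mul_left g3 hq
      have g5 : (3 + k) * bB = (2 + k) * bB + bB := by ring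
      omega

end Pool.Agent.H56.FS
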